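import Pool.Agent.Run7.h568.Basic

namespace Run7.h568

open Real Matrix

namespace HexPattern

variable {V : Type*} (P : HexPattern V)

theorem tau3 (p : V) : P.tau (P.tau (P.tau p)) = p := P.hex p

theorem B_inj {p q : V} (h : P.B p = P.B q) : p = q := by
  have h1 := P.B_rho_B p
  have h2 := P.B_rho_B q
  rw [h, h2] at h1
  have := congrArg P.rho h1
  rw [P.rho_rho, P.rho_rho] at this
  exact this.symm

theorem B_surj (p : V) : P.B (P.rho (P.B (P.rho p))) = p := by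
  rw [P.B_rho_B, P.rho_rho]

theorem B_bij : Function.Bijective P.B :=
  ⟨fun _ _ h => P.B_inj h, fun p => ⟨_, P.B_surj p⟩⟩

theorem iota_bij : Function.Bijective P.iota :=
  ⟨fun p q h => by rw [← P.iota_iota p, h, P.iota_iota], fun p => ⟨_, P.iota_iota p⟩⟩

theorem rho_bij : Function.Bijective P.rho :=
  ⟨fun p q h => by rw [← P.rho_rho p, h, P.rho_rho], fun p => ⟨_, P.rho_rho p⟩⟩

theorem tau_bij : Function.Bijective P.tau :=
  ⟨fun p q h => by rw [← P.tau3 p, h, P.tau3], fun p => ⟨_, P.tau3 p⟩⟩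

/-- the reflection of a pair of pants -/
def sg (p : V) : V := P.rho (P.iota p)

theorem iota_sg (p : V) : P.iota (P.sg p) = P.rho p := by
  unfold sg; rw [P.rho_iota, P.iota_iota]

theorem rho_sg (p : V) : P.rho (P.sg p) = P.iota p := by
  unfold sg; rw [P.rho_rho]

theorem sg_sg (p : V) : P.sg (P.sg p) = p := by
  change P.rho (P.iota (P.sg p)) = p
  rw [iota_sg, P.rho_rho]

theorem tau_sg (p : V) : P.tau (P.sg p) = P.sg (P.tau (P.tau p)) := by
  change P.B (P.iota (P.sg p)) = P.rho (P.iota (P.tau (P.tau p)))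
  have h := P.B_rho_B (P.iota (P.tau (P.tau p)))
  have h2 : P.B (P.iota (P.tau (P.tau p))) = p := P.tau3 p
  rw [h2] at h
  rw [iota_sg, h]

theorem sg_tau (p : V) : P.sg (P.tau p) = P.tau (P.tau (P.sg p)) := by
  rw [P.tau_sg, P.tau_sg, P.tau3]

end HexPattern

namespace HypMetric

variable {V : Type*} {P : HexPattern V} (m : HypMetric P)

/-- transport from the frame arriving at `ι p` along `α` to the one leaving from `τ p`. -/
noncomputable def h (p : V) : Matrix (Fin 2) (Fin 2) ℝ :=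
  R (π - m.θ (P.iota p)) * T (m.y (P.iota p)) * R (m.θ (P.tau p))

theorem closes' (p : V) :
    T (m.x p) * m.h p * (T (m.x (P.tau p)) * m.h (P.tau p)) *
      (T (m.x (P.tau (P.tau p))) * m.h (P.tau (P.tau p))) = -1 := by
  have := m.closes p
  unfold h
  rw [P.tau3]
  exact this

theorem h_eq (p : V) : m.h p =
      !![sin (m.θ (P.iota p) / 2) * cos (m.θ (P.tau p) / 2) * exp (m.y (P.iota p) / 2)
          - cos (m.θ (P.iota p) / 2) * sin (m.θ (P.tau p) / 2) * exp (-(m.y (P.iota p) / 2)),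
         sin (m.θ (P.iota p) / 2) * sin (m.θ (P.tau p) / 2) * exp (m.y (P.iota p) / 2)
          + cos (m.θ (P.iota p) / 2) * cos (m.θ (P.tau p) / 2) * exp (-(m.y (P.iota p) / 2));
         -(cos (m.θ (P.iota p) / 2) * cos (m.θ (P.tau p) / 2) * exp (m.y (P.iota p) / 2)
          + sin (m.θ (P.iota p) / 2) * sin (m.θ (P.tau p) / 2) * exp (-(m.y (P.iota p) / 2))),
         sin (m.θ (P.iota p) / 2) * cos (m.θ (P.tau p) / 2) * exp (-(m.y (P.iota p) / 2))
          - cos (m.θ (P.iota p) / 2) * sin (m.θ (P.tau p) / 2) * exp (m.y (P.iota p) / 2)] := by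
  unfold h
  rw [RTR_h]

theorem cos_pos (p : V) : 0 < cos (m.θ p / 2) := by
  apply Real.cos_pos_of_mem_Ioo
  constructor <;> [linarith [m.θ_pos p, Real.pi_pos]; linarith [m.θ_lt p]]

theorem sin_pos (p : V) : 0 < sin (m.θ p / 2) := by
  apply Real.sin_pos_of_pos_of_lt_pi
  · linarith [m.θ_pos p]
  · linarith [m.θ_lt p, Real.pi_pos]

theorem h01_pos (p : V) : 0 < m.h p 0 1 := by
  rw [h_eq]
  have := m.cos_pos (P.iota p)
  have := m.sin_pos (P.iota p)
  have := m.cos_pos (P.tau p)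
  have := m.sin_pos (P.tau p)
  simp
  positivity

theorem h10_neg (p : V) : m.h p 1 0 < 0 := by
  rw [h_eq]
  have := m.cos_pos (P.iota p)
  have := m.sin_pos (P.iota p)
  have := m.cos_pos (P.tau p)
  have := m.sin_pos (P.tau p)
  simp only [Matrix.of_apply, Matrix.cons_val', Matrix.cons_val_zero, Matrix.cons_val_one]
  rw [neg_lt_zero]
  positivity

theorem h_det (p : V) : m.h p 0 0 * m.h p 1 1 - m.h p 0 1 * m.h p 1 0 = 1 := by
  rw [h_eq]
  simp only [Matrix.of_apply, Matrix.cons_val', Matrix.cons_val_zero, Matrix.cons_val_one]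
  have e : exp (m.y (P.iota p) / 2) * exp (-(m.y (P.iota p) / 2)) = 1 := by
    rw [← Real.exp_add]; simp
  have a := Real.sin_sq_add_cos_sq (m.θ (P.iota p) / 2)
  have b := Real.sin_sq_add_cos_sq (m.θ (P.tau p) / 2)
  generalize exp (m.y (P.iota p) / 2) = E at *
  generalize exp (-(m.y (P.iota p) / 2)) = E' at *
  generalize sin (m.θ (P.iota p) / 2) = s at *
  generalize cos (m.θ (P.iota p) / 2) = c at *
  generalize sin (m.θ (P.tau p) / 2) = s' at *
  generalize cos (m.θ (P.tau p) / 2) = c' at *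
  have : (s * c' * E - c * s' * E') * (s * c' * E' - c * s' * E) -
    (s * s' * E + c * c' * E') * -(c * c' * E + s * s' * E') =
      (s ^ 2 + c ^ 2) * (s' ^ 2 + c' ^ 2) * (E * E') := by ring
  rw [this, a, b, e]; ring

/-- the symmetry `σ` on the `h` matrices -/
theorem h_sg (p : V) :
    m.h (P.sg (P.tau p)) 0 0 = - m.h p 1 1 ∧ m.h (P.sg (P.tau p)) 0 1 = m.h p 0 1 ∧
    m.h (P.sg (P.tau p)) 1 0 = m.h p 1 0 ∧ m.h (P.sg (P.tau p)) 1 1 = - m.h p 0 0 := by
  have e1 : m.θ (P.iota (P.sg (P.tau p))) = m.θ (P.tau p) := by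
    rw [P.iota_sg, m.θ_rho]
  have e2 : m.y (P.iota (P.sg (P.tau p))) = m.y (P.iota p) := by
    rw [P.iota_sg]; exact m.y_rho _
  have e3 : m.θ (P.tau (P.sg (P.tau p))) = m.θ (P.iota p) := by
    rw [P.tau_sg, P.tau3]; exact m.θ_rho _
  rw [m.h_eq (P.sg (P.tau p)), m.h_eq p, e1, e2, e3]
  simp only [Matrix.of_apply, Matrix.cons_val', Matrix.cons_val_zero, Matrix.cons_val_one]
  refine ⟨?_, ?_, ?_, ?_⟩ <;> ring

end HypMetric

theorem closing_last_aux {x0 x1 x2 a0 b0 c0 d0 a1 b1 c1 d1 a2 b2 c2 d2 : ℝ}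
    (hd : a2 * d2 - b2 * c2 = 1)
    (hcl : T x0 * !![a0, b0; c0, d0] * (T x1 * !![a1, b1; c1, d1]) *
      (T x2 * !![a2, b2; c2, d2]) = -1) :
    exp (x0 / 2) * exp (x2 / 2) * (a0 * a1 * exp (x1 / 2) + b0 * c1 * exp (-(x1 / 2))) = - d2 ∧
    exp (-(x0 / 2)) * exp (-(x2 / 2)) * (c0 * b1 * exp (x1 / 2) + d0 * d1 * exp (-(x1 / 2)))
      = - a2 := by
  have hadj : !![a2, b2; c2, d2] * !![d2, -b2; -c2, a2] = 1 := by
    apply T_ext <;> simp [Matrix.mul_apply, Fin.sum_univ_two]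
    · linarith
    · ring
    · ring
    · linarith
  have e : T x0 * !![a0, b0; c0, d0] * (T x1 * !![a1, b1; c1, d1]) * T x2
      = -!![d2, -b2; -c2, a2] := by
    have h1 : T x0 * !![a0, b0; c0, d0] * (T x1 * !![a1, b1; c1, d1]) * T x2 =
      (T x0 * !![a0, b0; c0, d0] * (T x1 * !![a1, b1; c1, d1]) * (T x2 * !![a2, b2; c2, d2]))
        * !![d2, -b2; -c2, a2] := by
      have : (T x0 * !![a0, b0; c0, d0] * (T x1 * !![a1, b1; c1, d1]) *
        (T x2 * !![a2, b2; c2, d2])) * !![d2, -b2; -c2, a2] =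
        T x0 * !![a0, b0; c0, d0] * (T x1 * !![a1, b1; c1, d1]) * T x2 *
          (!![a2, b2; c2, d2] * !![d2, -b2; -c2, a2]) := by
        simp only [Matrix.mul_assoc]
      rw [this, hadj, Matrix.mul_one]
    rw [h1, hcl, neg_mul, Matrix.one_mul]
  have e00 := congrFun (congrFun e 0) 0
  have e11 := congrFun (congrFun e 1) 1
  simp [T] at e00 e11
  constructor <;> linarith

/-- Solving the closing relation for the last factor. -/
theorem closing_last {x0 x1 x2 : ℝ} {h0 h1 h2 : Matrix (Fin 2) (Fin 2) ℝ}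
    (hd : h2 0 0 * h2 1 1 - h2 0 1 * h2 1 0 = 1)
    (hcl : T x0 * h0 * (T x1 * h1) * (T x2 * h2) = -1) :
    exp (x0 / 2) * exp (x2 / 2) * (h0 0 0 * h1 0 0 * exp (x1 / 2)
      + h0 0 1 * h1 1 0 * exp (-(x1 / 2))) = - h2 1 1 ∧
    exp (-(x0 / 2)) * exp (-(x2 / 2)) * (h0 1 0 * h1 0 1 * exp (x1 / 2)
      + h0 1 1 * h1 1 1 * exp (-(x1 / 2))) = - h2 0 0 := by
  rw [Matrix.eta_fin_two h0, Matrix.eta_fin_two h1, Matrix.eta_fin_two h2] at hcl
  exact closing_last_aux hd hcl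

/-- sign of the diagonal entries, abstract form -/
theorem sign_aux {E0 E1 E2 E0' E1' E2' F0 F1 F2 F0' F1' F2' a0 d0 a1 a2 b1 b2 c1 c2 d1 d2 : ℝ}
    (hE0 : E0 * E0' = 1) (hE1 : E1 * E1' = 1) (hE2 : E2 * E2' = 1)
    (hF0 : F0 * F0' = 1) (hF1 : F1 * F1' = 1) (hF2 : F2 * F2' = 1)
    (pE0 : 0 < E0) (pE1 : 0 < E1) (pE2 : 1 < E2) (pE0' : 0 < E0') (pE1' : 0 < E1') (pE2' : 0 < E2')
    (pF0 : 0 < F0) (pF1 : 0 < F1) (pF2 : 1 < F2) (pF0' : 0 < F0') (pF1' : 0 < F1') (pF2' : 0 < F2')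
    (hb1 : 0 < b1) (hb2 : 0 < b2) (hc1 : c1 < 0) (hc2 : c2 < 0)
    (F00 : E1 * E0 * (a1 * a2 * E2 + b1 * c2 * E2') = -d0)
    (F11 : E1' * E0' * (c1 * b2 * E2 + d1 * d2 * E2') = -a0)
    (S00 : F0 * F1 * (d2 * d1 * F2 + b2 * c1 * F2') = a0)
    (S11 : F0' * F1' * (c2 * b1 * F2 + a2 * a1 * F2') = d0) : 0 < a0 ∧ d0 < 0 := by
  have hE2' : E2' < 1 := by nlinarith
  have hF2' : F2' < 1 := by nlinarith
  have G00 : a1 * a2 * E2 + b1 * c2 * E2' = -d0 * (E0' * E1') := by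
    linear_combination E0' * E1' * F00 - (a1 * a2 * E2 + b1 * c2 * E2') * E0 * E0' * hE1
      - (a1 * a2 * E2 + b1 * c2 * E2') * hE0
  have G11 : c1 * b2 * E2 + d1 * d2 * E2' = -a0 * (E0 * E1) := by
    linear_combination E0 * E1 * F11 - (c1 * b2 * E2 + d1 * d2 * E2') * E0 * E0' * hE1
      - (c1 * b2 * E2 + d1 * d2 * E2') * hE0
  have U00 : d2 * d1 * F2 + b2 * c1 * F2' = a0 * (F0' * F1') := by
    linear_combination F0' * F1' * S00 - (d2 * d1 * F2 + b2 * c1 * F2') * F0 * F0' * hF1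
      - (d2 * d1 * F2 + b2 * c1 * F2') * hF0
  have U11 : c2 * b1 * F2 + a2 * a1 * F2' = d0 * (F0 * F1) := by
    linear_combination F0 * F1 * S11 - (c2 * b1 * F2 + a2 * a1 * F2') * F0 * F0' * hF1
      - (c2 * b1 * F2 + a2 * a1 * F2') * hF0
  have K1 : b1 * c2 * (F2 - E2' * E2' * F2') = d0 * (F0 * F1 + E0' * E1' * E2' * F2') := by
    linear_combination U11 - E2' * F2' * G00 + a1 * a2 * F2' * hE2
  have K2 : b2 * c1 * (F2' - E2 * E2 * F2) = a0 * (F0' * F1' + E0 * E1 * E2 * F2) := by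
    linear_combination U00 - E2 * F2 * G11 + d1 * d2 * F2 * hE2
  constructor
  · have h1 : 0 < b2 * c1 * (F2' - E2 * E2 * F2) := by
      apply mul_pos_of_neg_of_neg (mul_neg_of_pos_of_neg hb2 hc1)
      nlinarith [mul_pos (sub_pos.mpr pE2) (sub_pos.mpr pE2)]
    rw [K2] at h1
    by_contra hcon
    rw [not_lt] at hcon
    have := mul_nonneg (neg_nonneg.mpr hcon)
      (show 0 ≤ F0' * F1' + E0 * E1 * E2 * F2 by positivity)
    linarith
  · have h1 : b1 * c2 * (F2 - E2' * E2' * F2') < 0 := by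
      apply mul_neg_of_neg_of_pos (mul_neg_of_pos_of_neg hb1 hc2)
      have : E2' * E2' < 1 := by nlinarith
      nlinarith
    rw [K1] at h1
    by_contra hcon
    rw [not_lt] at hcon
    have := mul_nonneg hcon (show 0 ≤ F0 * F1 + E0' * E1' * E2' * F2' by positivity)
    linarith

theorem exp_half_mul (x : ℝ) : exp (x / 2) * exp (-(x / 2)) = 1 := by
  rw [← Real.exp_add]; simp

theorem one_lt_exp_half {x : ℝ} (hx : 0 < x) : 1 < exp (x / 2) := by
  rw [Real.one_lt_exp_iff]; linarith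

theorem HypMetric.x_sg {V : Type*} {P : HexPattern V} (m : HypMetric P) (p : V) :
    m.x (P.sg p) = m.x (P.rho p) := by
  change m.x (P.rho (P.iota p)) = _
  rw [P.rho_iota, m.x_iota]

theorem HypMetric.h_signs {V : Type*} {P : HexPattern V} (m : HypMetric P) (p : V) :
    0 < m.h p 0 0 ∧ m.h p 1 1 < 0 := by
  have c1 := m.closes' (P.tau p)
  rw [P.tau3] at c1
  have c2 := m.closes' (P.sg p)
  have t1 : P.tau (P.sg p) = P.sg (P.tau (P.tau p)) := P.tau_sg p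
  have t2 : P.tau (P.sg (P.tau (P.tau p))) = P.sg (P.tau p) := by rw [P.tau_sg, P.tau3]
  rw [t1, t2, m.x_sg, m.x_sg, m.x_sg] at c2
  have f := closing_last (m.h_det p) c1
  have s := closing_last (m.h_det (P.sg (P.tau p))) c2
  have g0 := m.h_sg p
  have g1 := m.h_sg (P.tau p)
  have g2 := m.h_sg (P.tau (P.tau p))
  rw [P.tau3] at g2
  rw [g2.1, g2.2.1, g2.2.2.1, g2.2.2.2, g1.1, g1.2.1, g1.2.2.1, g1.2.2.2, g0.1, g0.2.2.2] at s
  refine sign_aux (exp_half_mul (m.x p)) (exp_half_mul (m.x (P.tau p)))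
    (exp_half_mul (m.x (P.tau (P.tau p)))) (exp_half_mul (m.x (P.rho p)))
    (exp_half_mul (m.x (P.rho (P.tau p)))) (exp_half_mul (m.x (P.rho (P.tau (P.tau p)))))
    (exp_pos _) (exp_pos _) (one_lt_exp_half (m.x_pos _)) (exp_pos _) (exp_pos _) (exp_pos _)
    (exp_pos _) (exp_pos _) (one_lt_exp_half (m.x_pos _)) (exp_pos _) (exp_pos _) (exp_pos _)
    (m.h01_pos (P.tau p)) (m.h01_pos (P.tau (P.tau p))) (m.h10_neg (P.tau p))
    (m.h10_neg (P.tau (P.tau p))) f.1 f.2 ?_ ?_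
  · linarith [s.1]
  · linarith [s.2]

end Run7.h568
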