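import Mathlib

namespace Run7.h568

open Real

/-- `cosh` of the distance between the points at positions `u`, `-v` on two ultraparallel lines
at distance `arcosh C`. -/
noncomputable def cf (C u v : ℝ) : ℝ := C * (cosh u * cosh v) + sinh u * sinh v
noncomputable def cfu (C u v : ℝ) : ℝ := C * (sinh u * cosh v) + cosh u * sinh v
noncomputable def cfv (C u v : ℝ) : ℝ := C * (cosh u * sinh v) + sinh u * cosh v

theorem one_lt_cf {C : ℝ} (hC : 1 < C) (u v : ℝ) : 1 < cf C u v := by
  have h1 : 1 ≤ cosh (u + v) := Real.one_le_cosh _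
  rw [Real.cosh_add] at h1
  have h2 : 0 < cosh u * cosh v := mul_pos (Real.cosh_pos _) (Real.cosh_pos _)
  unfold cf
  nlinarith

theorem dist_grad_mono {C u v u' v' : ℝ} (hC : 1 < C) (hne : u' ≠ u ∨ v' ≠ v) :
    0 < (u' - u) * (cfu C u' v' / √(cf C u' v' ^ 2 - 1) - cfu C u v / √(cf C u v ^ 2 - 1)) +
      (v' - v) * (cfv C u' v' / √(cf C u' v' ^ 2 - 1) - cfv C u v / √(cf C u v ^ 2 - 1)) := by
  set p := u' - u with hp
  set q := v' - v with hq
  let U : ℝ → ℝ := fun t => u + p * t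
  let W : ℝ → ℝ := fun t => v + q * t
  let f : ℝ → ℝ := fun t => cf C (U t) (W t)
  let k : ℝ → ℝ := fun t => p * cfu C (U t) (W t) + q * cfv C (U t) (W t)
  have hU : ∀ t, HasDerivAt U p t := fun t => by
    exact (((hasDerivAt_id t).const_mul p).const_add u).congr_deriv (by simp)
  have hW : ∀ t, HasDerivAt W q t := fun t => by
    exact (((hasDerivAt_id t).const_mul q).const_add v).congr_deriv (by simp)
  have hcu : ∀ t, HasDerivAt (fun t => cosh (U t)) (sinh (U t) * p) t := fun t => (hU t).cosh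
  have hsu : ∀ t, HasDerivAt (fun t => sinh (U t)) (cosh (U t) * p) t := fun t => (hU t).sinh
  have hcv : ∀ t, HasDerivAt (fun t => cosh (W t)) (sinh (W t) * q) t := fun t => (hW t).cosh
  have hsv : ∀ t, HasDerivAt (fun t => sinh (W t)) (cosh (W t) * q) t := fun t => (hW t).sinh
  have hf : ∀ t, HasDerivAt f (k t) t := fun t => by
    have := (((hcu t).mul (hcv t)).const_mul C).add ((hsu t).mul (hsv t))
    exact this.congr_deriv (by simp only [k, cfu, cfv]; ring)
  have hk : ∀ t, HasDerivAt k (p ^ 2 * f t + q ^ 2 * f t +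
      2 * p * q * (C * (sinh (U t) * sinh (W t)) + cosh (U t) * cosh (W t))) t := fun t => by
    have h1 := ((((hsu t).mul (hcv t)).const_mul C).add ((hcu t).mul (hsv t))).const_mul p
    have h2 := ((((hcu t).mul (hsv t)).const_mul C).add ((hsu t).mul (hcv t))).const_mul q
    have := h1.add h2
    exact this.congr_deriv (by simp only [f, cf]; ring)
  have hf1 : ∀ t, 1 < f t := fun t => one_lt_cf hC _ _
  have hpos : ∀ t, 0 < f t ^ 2 - 1 := fun t => by nlinarith [hf1 t]
  have hφ : ∀ t, HasDerivAt (fun t => k t / √(f t ^ 2 - 1))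
      ((((p ^ 2 * f t + q ^ 2 * f t +
      2 * p * q * (C * (sinh (U t) * sinh (W t)) + cosh (U t) * cosh (W t))) * √(f t ^ 2 - 1)) -
        k t * ((2 * f t * k t) / (2 * √(f t ^ 2 - 1)))) / (√(f t ^ 2 - 1)) ^ 2) t := fun t => by
    have h1 : HasDerivAt (fun t => f t ^ 2 - 1) (2 * f t * k t) t := by
      have := ((hf t).pow 2).sub_const 1
      exact this.congr_deriv (by ring)
    exact (hk t).div (h1.sqrt (hpos t).ne') (Real.sqrt_pos.mpr (hpos t)).ne'
  have hpq : p ≠ 0 ∨ q ≠ 0 := by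
    rcases hne with h | h
    · left; rw [hp]; exact sub_ne_zero.mpr h
    · right; rw [hq]; exact sub_ne_zero.mpr h
  have hmono : StrictMono (fun t => k t / √(f t ^ 2 - 1)) := by
    apply strictMono_of_deriv_pos
    intro t
    rw [(hφ t).deriv]
    have hr := Real.sqrt_pos.mpr (hpos t)
    have hr2 := Real.sq_sqrt (hpos t).le
    set r := √(f t ^ 2 - 1)
    apply div_pos _ (pow_pos hr 2)
    have e1 := Real.cosh_sq (U t)
    have e2 := Real.cosh_sq (W t)
    have c1 := Real.cosh_pos (U t)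
    have c2 := Real.cosh_pos (W t)
    have key : (p ^ 2 * f t + q ^ 2 * f t +
      2 * p * q * (C * (sinh (U t) * sinh (W t)) + cosh (U t) * cosh (W t))) * (f t ^ 2 - 1)
        - f t * k t ^ 2 = (C ^ 2 - 1) * (f t * (p ^ 2 * cosh (W t) ^ 2 + q ^ 2 * cosh (U t) ^ 2)
          + 2 * p * q * cosh (U t) * cosh (W t)) := by
      simp only [f, k, cf, cfu, cfv]
      set cu := cosh (U t)
      set cv := cosh (W t)
      set su := sinh (U t)
      set sv := sinh (W t)
      linear_combination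
        p ^ 2 * (C * (cu * cv) + su * sv) * ((C ^ 2 * cv ^ 2 - sv ^ 2) * e1 + e2)
        + q ^ 2 * (C * (cu * cv) + su * sv) * ((C ^ 2 * cu ^ 2 - su ^ 2) * e2 + e1)
        + 2 * p * q * (C * (cu * cv) + su * sv) * C * ((cv ^ 2 - sv ^ 2) * e1 + e2)
    have hq : 0 < f t * (p ^ 2 * cosh (W t) ^ 2 + q ^ 2 * cosh (U t) ^ 2)
          + 2 * p * q * cosh (U t) * cosh (W t) := by
      have h3 : 0 < p ^ 2 * cosh (W t) ^ 2 + q ^ 2 * cosh (U t) ^ 2 := by
        rcases hpq with h | h
        · have : 0 < p ^ 2 * cosh (W t) ^ 2 := by positivity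
          nlinarith [sq_nonneg (q * cosh (U t))]
        · have : 0 < q ^ 2 * cosh (U t) ^ 2 := by positivity
          nlinarith [sq_nonneg (p * cosh (W t))]
      nlinarith [hf1 t, sq_nonneg (p * cosh (W t) + q * cosh (U t)), mul_pos (sub_pos.mpr (hf1 t)) h3]
    have hC2 : 0 < C ^ 2 - 1 := by nlinarith
    have h4 : (p ^ 2 * f t + q ^ 2 * f t +
      2 * p * q * (C * (sinh (U t) * sinh (W t)) + cosh (U t) * cosh (W t))) * r -
        k t * ((2 * f t * k t) / (2 * r)) = ((C ^ 2 - 1) * (f t * (p ^ 2 * cosh (W t) ^ 2 + q ^ 2 * cosh (U t) ^ 2)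
          + 2 * p * q * cosh (U t) * cosh (W t))) / r := by
      rw [← key, ← hr2]
      field_simp
    rw [h4]
    exact div_pos (mul_pos hC2 hq) hr
  have h01 := hmono (show (0 : ℝ) < 1 by norm_num)
  simp only [k, f, U, W, mul_zero, mul_one, add_zero] at h01
  have hu' : u + p = u' := by rw [hp]; ring
  have hv' : v + q = v' := by rw [hq]; ring
  rw [hu', hv'] at h01
  have e : p * (cfu C u' v' / √(cf C u' v' ^ 2 - 1) - cfu C u v / √(cf C u v ^ 2 - 1)) +
      q * (cfv C u' v' / √(cf C u' v' ^ 2 - 1) - cfv C u v / √(cf C u v ^ 2 - 1)) =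
      (p * cfu C u' v' + q * cfv C u' v') / √(cf C u' v' ^ 2 - 1) -
      (p * cfu C u v + q * cfv C u v) / √(cf C u v ^ 2 - 1) := by ring
  rw [e]
  linarith

end Run7.h568
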