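import Pool.Agent.Run7.h568.Decomp
import Pool.Agent.Run7.h568.Conv

namespace Run7.h568

open Real Matrix

theorem cosh_half (u : ℝ) : cosh u = (exp (u / 2) ^ 2 + exp (-(u / 2)) ^ 2) / 2 := by
  rw [Real.cosh_eq, ← Real.exp_nat_mul, ← Real.exp_nat_mul]
  have a1 : ((2 : ℕ) : ℝ) * (u / 2) = u := by push_cast; ring
  have a2 : ((2 : ℕ) : ℝ) * -(u / 2) = -u := by push_cast; ring
  rw [a1, a2]

theorem sinh_half (u : ℝ) : sinh u = (exp (u / 2) ^ 2 - exp (-(u / 2)) ^ 2) / 2 := by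
  rw [Real.sinh_eq, ← Real.exp_nat_mul, ← Real.exp_nat_mul]
  have a1 : ((2 : ℕ) : ℝ) * (u / 2) = u := by push_cast; ring
  have a2 : ((2 : ℕ) : ℝ) * -(u / 2) = -u := by push_cast; ring
  rw [a1, a2]

theorem cos_half (a : ℝ) : cos a = cos (a / 2) ^ 2 - sin (a / 2) ^ 2 := by
  have h : a = 2 * (a / 2) := by ring
  conv_lhs => rw [h, Real.cos_two_mul]
  have := Real.sin_sq_add_cos_sq (a / 2)
  linarith

theorem sin_half (a : ℝ) : sin a = 2 * sin (a / 2) * cos (a / 2) := by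
  have h : a = 2 * (a / 2) := by ring
  conv_lhs => rw [h, Real.sin_two_mul]

theorem law_of_h {α β y u v s c : ℝ} (hcs : c ^ 2 - s ^ 2 = 1)
    (h : R (π - β) * T y * R α = T (-u) * Sm s c * T v) :
    cosh y = cf (c ^ 2 + s ^ 2) u v ∧ sinh y * cos β = cfu (c ^ 2 + s ^ 2) u v ∧
      sinh y * cos α = cfv (c ^ 2 + s ^ 2) u v := by
  rw [RTR_h, TST_entries] at h
  have e00 := congrFun (congrFun h 0) 0
  have e01 := congrFun (congrFun h 0) 1
  have e10 := congrFun (congrFun h 1) 0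
  have e11 := congrFun (congrFun h 1) 1
  simp only [Matrix.of_apply, Matrix.cons_val', Matrix.cons_val_zero,
    Matrix.cons_val_one] at e00 e01 e10 e11
  have e10' := neg_injective e10
  have ha := Real.sin_sq_add_cos_sq (α / 2)
  have hb := Real.sin_sq_add_cos_sq (β / 2)
  have s00 := congrArg (fun t : ℝ => t ^ 2) e00
  have s01 := congrArg (fun t : ℝ => t ^ 2) e01
  have s10 := congrArg (fun t : ℝ => t ^ 2) e10'
  have s11 := congrArg (fun t : ℝ => t ^ 2) e11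
  unfold cf cfu cfv
  rw [cosh_half y, sinh_half y, cosh_half u, cosh_half v, sinh_half u, sinh_half v, cos_half α,
    cos_half β]
  clear e00 e01 e10 e11 e10' h
  generalize sin (α / 2) = sa at *
  generalize cos (α / 2) = ca at *
  generalize sin (β / 2) = sb at *
  generalize cos (β / 2) = cb at *
  generalize exp (y / 2) = e at *
  generalize exp (-(y / 2)) = e' at *
  generalize exp (u / 2) = p at *
  generalize exp (-(u / 2)) = p' at *
  generalize exp (v / 2) = q at *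
  generalize exp (-(v / 2)) = q' at *
  refine ⟨?_, ?_, ?_⟩
  · have k : (e ^ 2 + e' ^ 2) = (sa ^ 2 + ca ^ 2) * (sb ^ 2 + cb ^ 2) * (e ^ 2 + e' ^ 2) := by
      rw [ha, hb]; ring
    rw [k]
    linear_combination (s00 + s01 + s10 + s11) / 2
      + (p ^ 2 - p' ^ 2) * (q ^ 2 - q' ^ 2) / 4 * hcs
  · have k : (e ^ 2 - e' ^ 2) / 2 * (cb ^ 2 - sb ^ 2) =
        (sa ^ 2 + ca ^ 2) * (e ^ 2 - e' ^ 2) / 2 * (cb ^ 2 - sb ^ 2) := by
      rw [ha]; ring
    rw [k]
    linear_combination (- s00 - s01 + s10 + s11) / 2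
      + (p ^ 2 + p' ^ 2) * (q ^ 2 - q' ^ 2) / 4 * hcs
  · have k : (e ^ 2 - e' ^ 2) / 2 * (ca ^ 2 - sa ^ 2) =
        (sb ^ 2 + cb ^ 2) * (e ^ 2 - e' ^ 2) / 2 * (ca ^ 2 - sa ^ 2) := by
      rw [hb]; ring
    rw [k]
    linear_combination (s00 - s01 + s10 - s11) / 2
      + (p ^ 2 - p' ^ 2) * (q ^ 2 + q' ^ 2) / 4 * hcs

namespace HypMetric

variable {V : Type*} {P : HexPattern V} (m : HypMetric P)

noncomputable def C (q : V) : ℝ := m.cS (P.iota q) ^ 2 + m.sS (P.iota q) ^ 2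

theorem one_lt_C (q : V) : 1 < m.C q := by
  unfold C
  have := m.cS_sS (P.iota q)
  have := m.sS_pos (P.iota q)
  nlinarith

theorem law (q : V) :
    cosh (m.y q) = cf (m.C q) (m.X q) (m.X (P.rho (P.B q))) ∧
      sinh (m.y q) * cos (m.θ q) = cfu (m.C q) (m.X q) (m.X (P.rho (P.B q))) ∧
      sinh (m.y q) * cos (m.θ (P.B q)) = cfv (m.C q) (m.X q) (m.X (P.rho (P.B q))) := by
  have h := m.h_decomp (P.iota q)
  have e : P.tau (P.iota q) = P.B q := by unfold HexPattern.tau; rw [P.iota_iota]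
  rw [P.iota_iota, e] at h
  unfold HypMetric.h at h
  rw [P.iota_iota, e] at h
  exact law_of_h (m.cS_sS _) h

theorem sinh_y (q : V) :
    sinh (m.y q) = √(cf (m.C q) (m.X q) (m.X (P.rho (P.B q))) ^ 2 - 1) := by
  rw [← (m.law q).1, ← Real.sinh_sq, Real.sqrt_sq]
  exact (Real.sinh_pos_iff.mpr (m.y_pos q)).le

theorem cos_θ (q : V) :
    cos (m.θ q) = cfu (m.C q) (m.X q) (m.X (P.rho (P.B q))) /
      √(cf (m.C q) (m.X q) (m.X (P.rho (P.B q))) ^ 2 - 1) := by
  rw [← m.sinh_y, ← (m.law q).2.1]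
  have := Real.sinh_pos_iff.mpr (m.y_pos q)
  field_simp

theorem cos_θ_B (q : V) :
    cos (m.θ (P.B q)) = cfv (m.C q) (m.X q) (m.X (P.rho (P.B q))) /
      √(cf (m.C q) (m.X q) (m.X (P.rho (P.B q))) ^ 2 - 1) := by
  rw [← m.sinh_y, ← (m.law q).2.2]
  have := Real.sinh_pos_iff.mpr (m.y_pos q)
  field_simp

end HypMetric

/-- The left earthquake shifts the `X` coordinates and preserves the `C`'s. -/
theorem quake_X {V : Type*} {P : HexPattern V} {m m' : HypMetric P} {κ : V → ℝ}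
    (hq : ∀ p, T (κ p) * m.g p = m'.g p * T (-κ (P.rho (P.B p)))) (p : V) :
    m'.X p = m.X p + κ p ∧ m'.C p = m.C p := by
  have hh : ∀ (m : HypMetric P) (q : V), m.h (P.iota q) = R π * m.g q := by
    intro m q
    have e : P.tau (P.iota q) = P.B q := by unfold HexPattern.tau; rw [P.iota_iota]
    unfold HypMetric.h HypMetric.g
    rw [P.iota_iota, e, ← Matrix.mul_assoc, ← Matrix.mul_assoc, R_mul, sub_eq_add_neg]
  have e : P.tau (P.iota p) = P.B p := by unfold HexPattern.tau; rw [P.iota_iota]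
  have h1 : m'.h (P.iota p) = T (-(κ p)) * m.h (P.iota p) * T (κ (P.rho (P.B p))) := by
    rw [hh, hh]
    have e1 : m'.g p = T (κ p) * m.g p * T (κ (P.rho (P.B p))) := by
      rw [hq p, Matrix.mul_assoc, T_mul, neg_add_cancel, T_zero, Matrix.mul_one]
    rw [e1, ← Matrix.mul_assoc, ← Matrix.mul_assoc, R_pi_mul_T, ← Matrix.mul_assoc]
  rw [m'.h_decomp, m.h_decomp, P.iota_iota, e] at h1
  have h2 : T (-(m'.X p)) * Sm (m'.sS (P.iota p)) (m'.cS (P.iota p)) * T (m'.X (P.rho (P.B p))) =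
      T (-(m.X p + κ p)) * Sm (m.sS (P.iota p)) (m.cS (P.iota p)) *
        T (m.X (P.rho (P.B p)) + κ (P.rho (P.B p))) := by
    rw [h1, ← T_mul, neg_add, add_comm (-m.X p), ← T_mul]
    simp only [Matrix.mul_assoc]
  obtain ⟨a1, _, a3, a4⟩ := decomp_unique (m'.sS_pos _) (m'.cS_pos _) (m.sS_pos _) (m.cS_pos _) h2
  refine ⟨a1, ?_⟩
  unfold HypMetric.C
  rw [a3, a4]

end Run7.h568
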