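import Pool.Agent.Run7.h568.Defs

namespace Run7.h568

open Real Matrix

theorem T_mul (x y : ℝ) : T x * T y = T (x + y) := by
  unfold T
  ext i j
  fin_cases i <;> fin_cases j <;>
    simp [Matrix.mul_apply, Fin.sum_univ_two, ← Real.exp_add] <;> ring_nf

theorem T_zero : T 0 = 1 := by
  unfold T
  ext i j
  fin_cases i <;> fin_cases j <;> simp

theorem R_mul (x y : ℝ) : R x * R y = R (x + y) := by
  unfold R
  have h : (x + y) / 2 = x / 2 + y / 2 := by ring
  ext i j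
  fin_cases i <;> fin_cases j <;>
    simp [Matrix.mul_apply, Fin.sum_univ_two, h, Real.cos_add, Real.sin_add] <;> ring

theorem R_zero : R 0 = 1 := by
  unfold R
  ext i j
  fin_cases i <;> fin_cases j <;> simp

theorem R_pi : R π = !![0, 1; -1, 0] := by
  unfold R; simp

theorem R_pi_mul_T (x : ℝ) : R π * T x = T (-x) * R π := by
  rw [R_pi]; unfold T
  ext i j
  fin_cases i <;> fin_cases j <;> simp [Matrix.mul_apply, Fin.sum_univ_two] <;> ring_nf

theorem T_ext {A B : Matrix (Fin 2) (Fin 2) ℝ} (h00 : A 0 0 = B 0 0) (h01 : A 0 1 = B 0 1)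
    (h10 : A 1 0 = B 1 0) (h11 : A 1 1 = B 1 1) : A = B := by
  ext i j
  fin_cases i <;> fin_cases j <;> assumption

/-- entries of `R α * T x * R (π - β)` -/
theorem RTR_G (α β x : ℝ) :
    R α * T x * R (π - β) =
      !![cos (α / 2) * sin (β / 2) * exp (x / 2) - sin (α / 2) * cos (β / 2) * exp (-(x / 2)),
         cos (α / 2) * cos (β / 2) * exp (x / 2) + sin (α / 2) * sin (β / 2) * exp (-(x / 2));
         -(sin (α / 2) * sin (β / 2) * exp (x / 2) + cos (α / 2) * cos (β / 2) * exp (-(x / 2))),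
         cos (α / 2) * sin (β / 2) * exp (-(x / 2)) - sin (α / 2) * cos (β / 2) * exp (x / 2)] := by
  have h : (π - β) / 2 = π / 2 - β / 2 := by ring
  unfold R T
  ext i j
  fin_cases i <;> fin_cases j <;>
    simp [Matrix.mul_apply, Fin.sum_univ_two, h, Real.cos_pi_div_two_sub,
      Real.sin_pi_div_two_sub] <;> ring

/-- entries of `R (π - β) * T y * R α` -/
theorem RTR_h (α β y : ℝ) :
    R (π - β) * T y * R α =
      !![sin (β / 2) * cos (α / 2) * exp (y / 2) - cos (β / 2) * sin (α / 2) * exp (-(y / 2)),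
         sin (β / 2) * sin (α / 2) * exp (y / 2) + cos (β / 2) * cos (α / 2) * exp (-(y / 2));
         -(cos (β / 2) * cos (α / 2) * exp (y / 2) + sin (β / 2) * sin (α / 2) * exp (-(y / 2))),
         sin (β / 2) * cos (α / 2) * exp (-(y / 2)) - cos (β / 2) * sin (α / 2) * exp (y / 2)] := by
  have h : (π - β) / 2 = π / 2 - β / 2 := by ring
  unfold R T
  ext i j
  fin_cases i <;> fin_cases j <;>
    simp [Matrix.mul_apply, Fin.sum_univ_two, h, Real.cos_pi_div_two_sub,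
      Real.sin_pi_div_two_sub] <;> ring

/-- The matrix of a common perpendicular: `!![s, c; -c, -s]`. -/
def Sm (s c : ℝ) : Matrix (Fin 2) (Fin 2) ℝ := !![s, c; -c, -s]

theorem Sm_mul_self {s c : ℝ} (h : c ^ 2 - s ^ 2 = 1) : Sm s c * Sm s c = -1 := by
  unfold Sm
  apply T_ext <;> simp [Matrix.mul_apply, Fin.sum_univ_two]
  · linear_combination -h
  · ring
  · ring
  · linear_combination -h

/-- The law of cosines of a right-angled hexagon, as a consequence of the closing relation. -/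
theorem hexagon_law {s0 c0 s1 c1 s2 c2 y0 y1 y2 : ℝ} (h2 : c2 ^ 2 - s2 ^ 2 = 1)
    (hcl : T y2 * Sm s0 c0 * (T y0 * Sm s1 c1) * (T y1 * Sm s2 c2) = -1) :
    2 * cosh y0 * (s0 * c0 * s1 * c1) = s0 ^ 2 * s1 ^ 2 + c0 ^ 2 * c1 ^ 2 + s2 ^ 2 := by
  have h1 : Sm s0 c0 * T y0 * Sm s1 c1 = T (-y2) * Sm s2 c2 * T (-y1) := by
    have e1 : T (-y2) * (T y2 * Sm s0 c0 * (T y0 * Sm s1 c1) * (T y1 * Sm s2 c2)) *
        (Sm s2 c2 * T (-y1)) = - (Sm s0 c0 * T y0 * Sm s1 c1) := by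
      have e2 : T (-y2) * (T y2 * Sm s0 c0 * (T y0 * Sm s1 c1) * (T y1 * Sm s2 c2)) *
        (Sm s2 c2 * T (-y1)) = (T (-y2) * T y2) * (Sm s0 c0 * T y0 * Sm s1 c1) *
          (T y1 * (Sm s2 c2 * Sm s2 c2) * T (-y1)) := by
        simp only [Matrix.mul_assoc]
      rw [e2, T_mul, Sm_mul_self h2]
      simp [T_mul, T_zero]
    rw [hcl] at e1
    have e3 : T (-y2) * (-1) * (Sm s2 c2 * T (-y1)) = -(T (-y2) * Sm s2 c2 * T (-y1)) := by
      simp [Matrix.mul_assoc]
    rw [e3] at e1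
    exact (neg_injective e1).symm
  have e00 := congrFun (congrFun h1 0) 0
  have e11 := congrFun (congrFun h1 1) 1
  simp [Sm, T, Matrix.mul_apply, Fin.sum_univ_two] at e00 e11
  have hy : exp (y0 / 2) * exp (-(y0 / 2)) = 1 := by rw [← Real.exp_add]; simp
  have hy1 : exp (-y1 / 2) * exp (-(-y1 / 2)) = 1 := by rw [← Real.exp_add]; simp
  have hy2 : exp (-y2 / 2) * exp (-(-y2 / 2)) = 1 := by rw [← Real.exp_add]; simp
  have hc : 2 * cosh y0 = exp (y0 / 2) ^ 2 + exp (-(y0 / 2)) ^ 2 := by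
    rw [Real.cosh_eq, ← Real.exp_nat_mul, ← Real.exp_nat_mul]
    have a1 : ((2 : ℕ) : ℝ) * (y0 / 2) = y0 := by push_cast; ring
    have a2 : ((2 : ℕ) : ℝ) * -(y0 / 2) = -y0 := by push_cast; ring
    rw [a1, a2]; ring
  rw [hc]
  set e := exp (y0 / 2)
  set e' := exp (-(y0 / 2))
  set f := exp (-y1 / 2)
  set f' := exp (-(-y1 / 2))
  set k := exp (-y2 / 2)
  set k' := exp (-(-y2 / 2))
  have h := congrArg₂ (fun a b : ℝ => a * b) e00 e11
  linear_combination (-1) * h + (s0 ^ 2 * s1 ^ 2 + c0 ^ 2 * c1 ^ 2) * hy + s2 ^ 2 * k * k' * hy1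
    + s2 ^ 2 * hy2

end Run7.h568
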