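import Pool.Agent.Run7.h568.Alpha2

namespace Run7.h568

open Real Matrix

theorem star_num {P11 P12 P21 P22 u v M L cp cq cp' cq' : ℝ} (hu : 0 < u) (hv : 0 < v)
    (hM : M ≠ 0)
    (h0 : P11 + P12 + P21 + P22 = L)
    (h1 : P11 + P12 - P21 - P22 = M * cp) (h2 : P11 + P21 - P12 - P22 = -M * cq)
    (h0' : (u ^ 2 / v ^ 2) * P11 + (u ^ 2 * v ^ 2) * P12 + P21 / (u ^ 2 * v ^ 2)
      + (v ^ 2 / u ^ 2) * P22 = L)
    (h1' : (u ^ 2 / v ^ 2) * P11 + (u ^ 2 * v ^ 2) * P12 - P21 / (u ^ 2 * v ^ 2)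
      - (v ^ 2 / u ^ 2) * P22 = M * cp')
    (h2' : (u ^ 2 / v ^ 2) * P11 + P21 / (u ^ 2 * v ^ 2) - (u ^ 2 * v ^ 2) * P12
      - (v ^ 2 / u ^ 2) * P22 = -M * cq') :
    (u ^ 2 - 1 / u ^ 2) * (cp + cp') + (v ^ 2 - 1 / v ^ 2) * (cq + cq') = 0 := by
  have e1 : M * (cp + cp') = (P11 + P12 - P21 - P22) + ((u ^ 2 / v ^ 2) * P11
      + (u ^ 2 * v ^ 2) * P12 - P21 / (u ^ 2 * v ^ 2) - (v ^ 2 / u ^ 2) * P22) := by
    rw [h1, h1']; ring
  have e2 : M * (cq + cq') = -((P11 + P21 - P12 - P22) + ((u ^ 2 / v ^ 2) * P11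
      + P21 / (u ^ 2 * v ^ 2) - (u ^ 2 * v ^ 2) * P12 - (v ^ 2 / u ^ 2) * P22)) := by
    rw [h2, h2']; ring
  have e3 : (u ^ 2 - 1 / u ^ 2) * (M * (cp + cp')) + (v ^ 2 - 1 / v ^ 2) * (M * (cq + cq'))
      = (u ^ 2 + 1 / u ^ 2 + v ^ 2 + 1 / v ^ 2) * (((u ^ 2 / v ^ 2) * P11 + (u ^ 2 * v ^ 2) * P12
        + P21 / (u ^ 2 * v ^ 2) + (v ^ 2 / u ^ 2) * P22) - (P11 + P12 + P21 + P22)) := by
    rw [e1, e2]
    field_simp
    ring
  rw [h0, h0', sub_self, mul_zero] at e3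
  have e4 : M * ((u ^ 2 - 1 / u ^ 2) * (cp + cp') + (v ^ 2 - 1 / v ^ 2) * (cq + cq')) = 0 := by
    linarith
  exact (mul_eq_zero.mp e4).resolve_left hM

/-- entries of a right quake relation -/
theorem rq_entries {a b c d a' b' c' d' μ ν : ℝ}
    (h : T μ * !![a, b; c, d] = !![a', b'; c', d'] * T ν) :
    a' = exp ((μ - ν) / 2) * a ∧ b' = exp ((μ + ν) / 2) * b ∧
      c' = exp (-((μ + ν) / 2)) * c ∧ d' = exp (-((μ - ν) / 2)) * d := by
  have e00 := congrFun (congrFun h 0) 0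
  have e01 := congrFun (congrFun h 0) 1
  have e10 := congrFun (congrFun h 1) 0
  have e11 := congrFun (congrFun h 1) 1
  simp [T] at e00 e01 e10 e11
  have hn : exp (ν / 2) * exp (-(ν / 2)) = 1 := exp_half_mul ν
  refine ⟨?_, ?_, ?_, ?_⟩
  · have : exp ((μ - ν) / 2) = exp (μ / 2) * exp (-(ν / 2)) := by rw [← Real.exp_add]; ring_nf
    rw [this]
    linear_combination (-exp (-(ν / 2))) * e00 - a' * hn
  · have : exp ((μ + ν) / 2) = exp (μ / 2) * exp (ν / 2) := by rw [← Real.exp_add]; ring_nf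
    rw [this]
    linear_combination (-exp (ν / 2)) * e01 - b' * hn
  · have : exp (-((μ + ν) / 2)) = exp (-(μ / 2)) * exp (-(ν / 2)) := by
      rw [← Real.exp_add]; ring_nf
    rw [this]
    linear_combination (-exp (-(ν / 2))) * e10 - c' * hn
  · have : exp (-((μ - ν) / 2)) = exp (-(μ / 2)) * exp (ν / 2) := by
      rw [← Real.exp_add]; ring_nf
    rw [this]
    linear_combination (-exp (ν / 2)) * e11 - d' * hn

/-- the scalar relations of the right quake at `p` -/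
theorem rq_G {V : Type*} {P : HexPattern V} {m m' : HypMetric P} {μ : V → ℝ}
    (hq : ∀ p, T (μ p) * m.G p = m'.G p * T (μ (P.iota p))) (p : V) :
    m'.G p 0 0 = exp ((μ p - μ (P.iota p)) / 2) * m.G p 0 0 ∧
    m'.G p 0 1 = exp ((μ p + μ (P.iota p)) / 2) * m.G p 0 1 ∧
    m'.G p 1 0 = exp (-((μ p + μ (P.iota p)) / 2)) * m.G p 1 0 ∧
    m'.G p 1 1 = exp (-((μ p - μ (P.iota p)) / 2)) * m.G p 1 1 := by
  have h := hq p
  rw [Matrix.eta_fin_two (m.G p), Matrix.eta_fin_two (m'.G p)] at h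
  exact rq_entries h

namespace HypMetric

variable {V : Type*} {P : HexPattern V} (m : HypMetric P)

theorem G_eq (p : V) : m.G p =
      !![cos (m.θ p / 2) * sin (m.θ (P.iota p) / 2) * exp (m.x p / 2)
          - sin (m.θ p / 2) * cos (m.θ (P.iota p) / 2) * exp (-(m.x p / 2)),
         cos (m.θ p / 2) * cos (m.θ (P.iota p) / 2) * exp (m.x p / 2)
          + sin (m.θ p / 2) * sin (m.θ (P.iota p) / 2) * exp (-(m.x p / 2));
         -(sin (m.θ p / 2) * sin (m.θ (P.iota p) / 2) * exp (m.x p / 2)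
          + cos (m.θ p / 2) * cos (m.θ (P.iota p) / 2) * exp (-(m.x p / 2))),
         cos (m.θ p / 2) * sin (m.θ (P.iota p) / 2) * exp (-(m.x p / 2))
          - sin (m.θ p / 2) * cos (m.θ (P.iota p) / 2) * exp (m.x p / 2)] := by
  unfold G
  rw [RTR_G]

theorem θ_iota_rho (p : V) : m.θ (P.iota (P.rho p)) = m.θ (P.iota p) := by
  rw [← P.rho_iota, m.θ_rho]

/-- products of entries of `G p` and `G (ρ p)` -/
theorem G_prod (p : V) :
    let ℓ := m.x p + m.x (P.rho p)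
    m.G p 0 0 * m.G (P.rho p) 0 0 + m.G p 0 1 * m.G (P.rho p) 0 1
      + m.G p 1 0 * m.G (P.rho p) 1 0 + m.G p 1 1 * m.G (P.rho p) 1 1 = 2 * cosh (ℓ / 2) ∧
    m.G p 0 0 * m.G (P.rho p) 0 0 + m.G p 0 1 * m.G (P.rho p) 0 1
      - m.G p 1 0 * m.G (P.rho p) 1 0 - m.G p 1 1 * m.G (P.rho p) 1 1
        = 2 * sinh (ℓ / 2) * cos (m.θ p) ∧
    m.G p 0 0 * m.G (P.rho p) 0 0 + m.G p 1 0 * m.G (P.rho p) 1 0
      - m.G p 0 1 * m.G (P.rho p) 0 1 - m.G p 1 1 * m.G (P.rho p) 1 1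
        = -(2 * sinh (ℓ / 2)) * cos (m.θ (P.iota p)) := by
  intro ℓ
  have hc : 2 * cosh (ℓ / 2) = exp (m.x p / 2) * exp (m.x (P.rho p) / 2)
      + exp (-(m.x p / 2)) * exp (-(m.x (P.rho p) / 2)) := by
    rw [Real.cosh_eq, ← Real.exp_add, ← Real.exp_add]; simp only [ℓ]; ring_nf
  have hs : 2 * sinh (ℓ / 2) = exp (m.x p / 2) * exp (m.x (P.rho p) / 2)
      - exp (-(m.x p / 2)) * exp (-(m.x (P.rho p) / 2)) := by
    rw [Real.sinh_eq, ← Real.exp_add, ← Real.exp_add]; simp only [ℓ]; ring_nf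
  rw [hc, hs, m.G_eq p, m.G_eq (P.rho p), m.θ_rho, m.θ_iota_rho, cos_half (m.θ p),
    cos_half (m.θ (P.iota p))]
  simp only [Matrix.of_apply, Matrix.cons_val', Matrix.cons_val_zero, Matrix.cons_val_one]
  have ha := Real.sin_sq_add_cos_sq (m.θ p / 2)
  have hb := Real.sin_sq_add_cos_sq (m.θ (P.iota p) / 2)
  generalize sin (m.θ p / 2) = sp at *
  generalize cos (m.θ p / 2) = cp at *
  generalize sin (m.θ (P.iota p) / 2) = sq at *
  generalize cos (m.θ (P.iota p) / 2) = cq at *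
  generalize exp (m.x p / 2) = E at *
  generalize exp (-(m.x p / 2)) = E' at *
  generalize exp (m.x (P.rho p) / 2) = F at *
  generalize exp (-(m.x (P.rho p) / 2)) = F' at *
  refine ⟨?_, ?_, ?_⟩
  · linear_combination (sq ^ 2 + cq ^ 2) * (E * F + E' * F') * ha + (E * F + E' * F') * hb
  · linear_combination (cp ^ 2 - sp ^ 2) * (E * F - E' * F') * hb
  · linear_combination (sq ^ 2 - cq ^ 2) * (E * F - E' * F') * ha

end HypMetric

/-- The relation between the angles of the two metrics along a component of `α`. -/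
theorem star {V : Type*} {P : HexPattern V} {m m' : HypMetric P} {μ b : V → ℝ}
    (hq : ∀ p, T (μ p) * m.G p = m'.G p * T (μ (P.iota p)))
    (hb : ∀ p, μ p + μ (P.rho p) = b p) (p : V)
    (hℓ : m.x p + m.x (P.rho p) = m'.x p + m'.x (P.rho p)) :
    sinh (b p / 2) * (cos (m.θ p) + cos (m'.θ p)) +
      sinh (b (P.iota p) / 2) * (cos (m.θ (P.iota p)) + cos (m'.θ (P.iota p))) = 0 := by
  obtain ⟨a1, a2, a3, a4⟩ := rq_G hq p
  obtain ⟨b1, b2, b3, b4⟩ := rq_G hq (P.rho p)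
  obtain ⟨g1, g2, g3⟩ := m.G_prod p
  obtain ⟨k1, k2, k3⟩ := m'.G_prod p
  rw [← hℓ] at k1 k2 k3
  have hbp := hb p
  have hbq := hb (P.iota p)
  rw [P.rho_iota] at hbq
  set u := exp (b p / 4) with hu
  set v := exp (b (P.iota p) / 4) with hv
  have q11 : m'.G p 0 0 * m'.G (P.rho p) 0 0 = (u ^ 2 / v ^ 2) * (m.G p 0 0 * m.G (P.rho p) 0 0) := by
    rw [a1, b1]
    have : (u ^ 2 / v ^ 2) = exp ((μ p - μ (P.iota p)) / 2) *
        exp ((μ (P.rho p) - μ (P.iota (P.rho p))) / 2) := by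
      rw [hu, hv, ← Real.exp_nat_mul, ← Real.exp_nat_mul, ← Real.exp_sub, ← Real.exp_add, ← hbp,
        ← hbq]
      congr 1; push_cast; ring
    rw [this]; ring
  have q22 : m'.G p 1 1 * m'.G (P.rho p) 1 1 = (v ^ 2 / u ^ 2) * (m.G p 1 1 * m.G (P.rho p) 1 1) := by
    rw [a4, b4]
    have : (v ^ 2 / u ^ 2) = exp (-((μ p - μ (P.iota p)) / 2)) *
        exp (-((μ (P.rho p) - μ (P.iota (P.rho p))) / 2)) := by
      rw [hu, hv, ← Real.exp_nat_mul, ← Real.exp_nat_mul, ← Real.exp_sub, ← Real.exp_add, ← hbp,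
        ← hbq]
      congr 1; push_cast; ring
    rw [this]; ring
  have q12 : m'.G p 0 1 * m'.G (P.rho p) 0 1 = (u ^ 2 * v ^ 2) * (m.G p 0 1 * m.G (P.rho p) 0 1) := by
    rw [a2, b2]
    have : (u ^ 2 * v ^ 2) = exp ((μ p + μ (P.iota p)) / 2) *
        exp ((μ (P.rho p) + μ (P.iota (P.rho p))) / 2) := by
      rw [hu, hv, ← Real.exp_nat_mul, ← Real.exp_nat_mul, ← Real.exp_add, ← Real.exp_add, ← hbp,
        ← hbq]
      congr 1; push_cast; ring
    rw [this]; ring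
  have q21 : m'.G p 1 0 * m'.G (P.rho p) 1 0 = (m.G p 1 0 * m.G (P.rho p) 1 0) / (u ^ 2 * v ^ 2) := by
    rw [a3, b3]
    have h1 : (u ^ 2 * v ^ 2) = exp ((μ p + μ (P.iota p)) / 2) *
        exp ((μ (P.rho p) + μ (P.iota (P.rho p))) / 2) := by
      rw [hu, hv, ← Real.exp_nat_mul, ← Real.exp_nat_mul, ← Real.exp_add, ← Real.exp_add, ← hbp,
        ← hbq]
      congr 1; push_cast; ring
    rw [h1, Real.exp_neg, Real.exp_neg]
    field_simp
  rw [q11, q12, q21, q22] at k1 k2 k3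
  have hM : 2 * sinh ((m.x p + m.x (P.rho p)) / 2) ≠ 0 := by
    have : 0 < sinh ((m.x p + m.x (P.rho p)) / 2) := by
      rw [Real.sinh_pos_iff]
      have := m.x_pos p
      have := m.x_pos (P.rho p)
      linarith
    positivity
  have key := star_num (u := u) (v := v) (exp_pos _) (exp_pos _) hM g1 g2 g3
    k1 k2 k3
  have su : sinh (b p / 2) = (u ^ 2 - 1 / u ^ 2) / 2 := by
    rw [Real.sinh_eq, hu, ← Real.exp_nat_mul, one_div, ← Real.exp_neg]
    congr 3 <;> (push_cast; ring)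
  have sv : sinh (b (P.iota p) / 2) = (v ^ 2 - 1 / v ^ 2) / 2 := by
    rw [Real.sinh_eq, hv, ← Real.exp_nat_mul, one_div, ← Real.exp_neg]
    congr 3 <;> (push_cast; ring)
  rw [su, sv]
  linarith

end Run7.h568
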