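import Pool.Agent.Run7.h568.BlockNeg

namespace Run7.h568

open Real

/-- `κ₁ = artanh (N₁ / (e₁ √Δ))`. -/
noncomputable def kap (B1 B2 B3 d1 d2 d3 e1 : ℝ) : ℝ :=
  (Real.log (e1 * √(pDelta d1 d2 d3) + pN B1 B2 B3 d1 d2 d3)
    - Real.log (e1 * √(pDelta d1 d2 d3) - pN B1 B2 B3 d1 d2 d3)) / 2

theorem kap_arg {B1 B2 B3 d1 d2 d3 e1 : ℝ} (hB1 : 0 ≤ B1) (hB2 : 0 ≤ B2) (hB3 : 0 ≤ B3)
    (hB1' : B1 < 1) (hB2' : B2 < 1) (hB3' : B3 < 1)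
    (h1 : 1 < d1) (h2 : 1 < d2) (h3 : 1 < d3) (he1 : 0 < e1)
    (hE : e1 ^ 2 = pE B1 B2 B3 d1 d2 d3) :
    0 < e1 * √(pDelta d1 d2 d3) + pN B1 B2 B3 d1 d2 d3 ∧
      0 < e1 * √(pDelta d1 d2 d3) - pN B1 B2 B3 d1 d2 d3 := by
  have hD := pDelta_pos h1 h2 h3
  have hO := pOm_pos hB1 hB2 hB3 hB1' hB2' hB3' h1 h2 h3
  have hI := I1 B1 B2 B3 d1 d2 d3
  rw [← hE] at hI
  have hr := Real.sq_sqrt hD.le
  have hr0 := Real.sqrt_pos.mpr hD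
  set r := √(pDelta d1 d2 d3)
  have hlt : pN B1 B2 B3 d1 d2 d3 ^ 2 < (e1 * r) ^ 2 := by
    have : 0 < (d1 ^ 2 - 1) * pOm B1 B2 B3 d1 d2 d3 := mul_pos (by nlinarith) hO
    rw [mul_pow, hr]; linarith
  have := abs_lt_of_sq_lt_sq hlt (by positivity)
  rw [abs_lt] at this
  constructor <;> linarith [this.1, this.2]

theorem hasDerivAt_kap {B1 B2 B3 : ℝ} {d1 d2 d3 e1 : ℝ → ℝ} {t e2 e3 v1 v2 v3 : ℝ}
    (hB1 : 0 ≤ B1) (hB2 : 0 ≤ B2) (hB3 : 0 ≤ B3)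
    (hB1' : B1 < 1) (hB2' : B2 < 1) (hB3' : B3 < 1)
    (h1 : 1 < d1 t) (h2 : 1 < d2 t) (h3 : 1 < d3 t) (he1 : 0 < e1 t)
    (hE : e1 t ^ 2 = pE B1 B2 B3 (d1 t) (d2 t) (d3 t))
    (hd1 : HasDerivAt d1 (e1 t * v1) t) (hd2 : HasDerivAt d2 (e2 * v2) t)
    (hd3 : HasDerivAt d3 (e3 * v3) t) (hde1 : HasDerivAt e1 ((d1 t + B2 * B3) * v1) t) :
    HasDerivAt (fun t => kap B1 B2 B3 (d1 t) (d2 t) (d3 t) (e1 t))
      ((-(pI4 B1 B2 B3 (d1 t) (d2 t) (d3 t) /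
            (pOm B1 B2 B3 (d1 t) (d2 t) (d3 t) *
              ((d1 t ^ 2 - 1) * pOm B1 B2 B3 (d1 t) (d2 t) (d3 t)))) * v1
          + e1 t * e2 * pN B3 B1 B2 (d3 t) (d1 t) (d2 t) / pOm B1 B2 B3 (d1 t) (d2 t) (d3 t) * v2
          + e1 t * e3 * pN B2 B3 B1 (d2 t) (d3 t) (d1 t) / pOm B1 B2 B3 (d1 t) (d2 t) (d3 t) * v3)
        / √(pDelta (d1 t) (d2 t) (d3 t))) t := by
  have hD := pDelta_pos h1 h2 h3
  have hO := pOm_pos hB1 hB2 hB3 hB1' hB2' hB3' h1 h2 h3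
  obtain ⟨hp, hm⟩ := kap_arg hB1 hB2 hB3 hB1' hB2' hB3' h1 h2 h3 he1 hE
  have dN : HasDerivAt (fun t => pN B1 B2 B3 (d1 t) (d2 t) (d3 t))
      ((B2 * d2 t + B3 * d3 t - 2 * B1 * d1 t) * (e1 t * v1) + (B2 * d1 t + B3) * (e2 * v2)
        + (B3 * d1 t + B2) * (e3 * v3)) t := by
    have := (((hd3.add (hd1.mul hd2)).const_mul B2).add
      ((hd2.add (hd1.mul hd3)).const_mul B3)).sub (((hd1.pow 2).sub_const 1).const_mul B1)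
    exact this.congr_deriv (by ring)
  have dD : HasDerivAt (fun t => pDelta (d1 t) (d2 t) (d3 t))
      (2 * ((d1 t + d2 t * d3 t) * (e1 t * v1) + (d2 t + d1 t * d3 t) * (e2 * v2)
        + (d3 t + d1 t * d2 t) * (e3 * v3))) t := by
    have := (((((hd1.pow 2).add (hd2.pow 2)).add (hd3.pow 2)).add
      (((hd1.const_mul 2).mul hd2).mul hd3))).sub_const 1
    exact this.congr_deriv (by simp only [Pi.mul_apply]; ring)
  have dr := dD.sqrt hD.ne'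
  have dQ := hde1.mul dr
  have dp := (dQ.add dN).log hp.ne'
  have dm := (dQ.sub dN).log hm.ne'
  have dk := (dp.sub dm).div_const 2
  refine dk.congr_deriv ?_
  simp only [Pi.mul_apply, Pi.add_apply, Pi.sub_apply]
  have i1 := I1 B1 B2 B3 (d1 t) (d2 t) (d3 t)
  have i3 := I3 B1 B2 B3 (d1 t) (d2 t) (d3 t)
  have i3' := I3' B1 B2 B3 (d1 t) (d2 t) (d3 t)
  have i4 := I4 B1 B2 B3 (d1 t) (d2 t) (d3 t)
  change _ = -pI4 B1 B2 B3 (d1 t) (d2 t) (d3 t) at i4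
  have hr := Real.sq_sqrt hD.le
  have hr0 := Real.sqrt_pos.mpr hD
  have hd0 : 0 < d1 t ^ 2 - 1 := by nlinarith
  clear dN dD dr dQ dp dm dk hd1 hd2 hd3 hde1
  set r := √(pDelta (d1 t) (d2 t) (d3 t)) with hrdef
  clear_value r
  generalize pN B1 B2 B3 (d1 t) (d2 t) (d3 t) = N1 at *
  generalize pN B2 B3 B1 (d2 t) (d3 t) (d1 t) = N2 at *
  generalize pN B3 B1 B2 (d3 t) (d1 t) (d2 t) = N3 at *
  generalize pOm B1 B2 B3 (d1 t) (d2 t) (d3 t) = Om at *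
  generalize pI4 B1 B2 B3 (d1 t) (d2 t) (d3 t) = I at *
  generalize pE B1 B2 B3 (d1 t) (d2 t) (d3 t) = E at *
  generalize pDelta (d1 t) (d2 t) (d3 t) = D at *
  generalize d1 t = x1 at *
  generalize d2 t = x2 at *
  generalize d3 t = x3 at *
  generalize e1 t = e at *
  subst hE
  subst hr
  have hprod : (e * r + N1) * (e * r - N1) = (x1 ^ 2 - 1) * Om := by linear_combination i1
  have hI : I = -(Om * ((B2 * x2 + B3 * x3 - 2 * B1 * x1) * (e ^ 2 * r ^ 2)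
      - N1 * ((x1 + B2 * B3) * r ^ 2 + e ^ 2 * (x1 + x2 * x3)))) := by linarith
  have hR : (-(I / (Om * ((x1 ^ 2 - 1) * Om))) * v1 + e * e2 * N3 / Om * v2
      + e * e3 * N2 / Om * v3) / r =
      ((((B2 * x2 + B3 * x3 - 2 * B1 * x1) * (e ^ 2 * r ^ 2)
      - N1 * ((x1 + B2 * B3) * r ^ 2 + e ^ 2 * (x1 + x2 * x3)))) * v1
        + e * e2 * ((B2 * x1 + B3) * r ^ 2 - N1 * (x2 + x1 * x3)) * v2
        + e * e3 * ((B3 * x1 + B2) * r ^ 2 - N1 * (x3 + x1 * x2)) * v3)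
        / ((x1 ^ 2 - 1) * Om * r) := by
    rw [i3, i3', hI]
    generalize (B2 * x2 + B3 * x3 - 2 * B1 * x1) * (e ^ 2 * r ^ 2)
      - N1 * ((x1 + B2 * B3) * r ^ 2 + e ^ 2 * (x1 + x2 * x3)) = A
    generalize x1 ^ 2 - 1 = K at hd0
    field_simp
  rw [hR, div_sub_div _ _ hp.ne' hm.ne', hprod]
  have hK : (x1 ^ 2 - 1) ≠ 0 := hd0.ne'
  generalize x1 ^ 2 - 1 = K at hd0 hK
  field_simp
  ring

/-- The quadratic form of the Jacobian of a block is negative definite. -/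
theorem block_form_neg {B1 B2 B3 d1 d2 d3 e1 e2 e3 v1 v2 v3 : ℝ}
    (hB1 : 0 ≤ B1) (hB2 : 0 ≤ B2) (hB3 : 0 ≤ B3)
    (hB1' : B1 < 1) (hB2' : B2 < 1) (hB3' : B3 < 1)
    (h12 : 0 < B1 + B2) (h23 : 0 < B2 + B3) (h13 : 0 < B1 + B3)
    (h1 : 1 < d1) (h2 : 1 < d2) (h3 : 1 < d3) (he1 : 0 < e1) (he2 : 0 < e2) (he3 : 0 < e3)
    (hE1 : e1 ^ 2 = pE B1 B2 B3 d1 d2 d3) (hE2 : e2 ^ 2 = pE B2 B3 B1 d2 d3 d1)
    (hE3 : e3 ^ 2 = pE B3 B1 B2 d3 d1 d2) (hv : v1 ≠ 0 ∨ v2 ≠ 0 ∨ v3 ≠ 0) :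
    -(pI4 B1 B2 B3 d1 d2 d3 / ((d1 ^ 2 - 1) * pOm B1 B2 B3 d1 d2 d3) * v1 ^ 2
      + pI4 B2 B3 B1 d2 d3 d1 / ((d2 ^ 2 - 1) * pOm B1 B2 B3 d1 d2 d3) * v2 ^ 2
      + pI4 B3 B1 B2 d3 d1 d2 / ((d3 ^ 2 - 1) * pOm B1 B2 B3 d1 d2 d3) * v3 ^ 2)
      + 2 * (e1 * e2 * pN B3 B1 B2 d3 d1 d2 * (v1 * v2) + e2 * e3 * pN B1 B2 B3 d1 d2 d3 * (v2 * v3)
        + e1 * e3 * pN B2 B3 B1 d2 d3 d1 * (v1 * v3)) < 0 := by
  have hD := pDelta_pos h1 h2 h3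
  have hO := pOm_pos hB1 hB2 hB3 hB1' hB2' hB3' h1 h2 h3
  have h12' : 0 < B2 + B1 := by linarith
  have h23' : 0 < B3 + B2 := by linarith
  have h13' : 0 < B3 + B1 := by linarith
  have F1gt := pF_gt hB1 hB2 hB3 hB1' hB2' hB3' h1 h2 h3 hE2 hE3
  have F2gt := pF_gt hB2 hB3 hB1 hB2' hB3' hB1' h2 h3 h1 hE3 hE1
  have F3gt := pF_gt hB3 hB1 hB2 hB3' hB1' hB2' h3 h1 h2 hE1 hE2
  have f1 : 1 < pF B1 B2 B3 d1 d2 d3 / (e2 * e3) := by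
    rw [one_lt_div (by positivity)]; exact F1gt
  have f2 : 1 < pF B2 B3 B1 d2 d3 d1 / (e3 * e1) := by
    rw [one_lt_div (by positivity)]; exact F2gt
  have f3 : 1 < pF B3 B1 B2 d3 d1 d2 / (e1 * e2) := by
    rw [one_lt_div (by positivity)]; exact F3gt
  -- fn
  have a123 := fn_pos hB1 hB2 hB3 hB1' hB2' hB3' h1 h2 h3 h13 he2 he3 hE2
  have a132 := fn_pos' hB1 hB2 hB3 hB1' hB2' hB3' h1 h2 h3 h12 he2 he3 hE3
  have a231 := fn_pos hB2 hB3 hB1 hB2' hB3' hB1' h2 h3 h1 h12' he3 he1 hE3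
  have a213 := fn_pos' hB2 hB3 hB1 hB2' hB3' hB1' h2 h3 h1 h23 he3 he1 hE1
  have a312 := fn_pos hB3 hB1 hB2 hB3' hB1' hB2' h3 h1 h2 h23' he1 he2 hE1
  have a321 := fn_pos' hB3 hB1 hB2 hB3' hB1' hB2' h3 h1 h2 h13' he1 he2 hE2
  have p23 := add_pos_of_f f1 a123 a132
  have p31 := add_pos_of_f f2 a231 a213
  have p12 := add_pos_of_f f3 a312 a321
  have i1 := I1 B1 B2 B3 d1 d2 d3
  have i2 := I1 B2 B3 B1 d2 d3 d1
  have i3 := I1 B3 B1 B2 d3 d1 d2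
  have hc3 : pDelta d3 d1 d2 = pDelta d1 d2 d3 := by rw [pDelta_cyc, pDelta_cyc]
  have ho3 : pOm B3 B1 B2 d3 d1 d2 = pOm B1 B2 B3 d1 d2 d3 := by rw [pOm_cyc, pOm_cyc]
  rw [← hE2, pDelta_cyc d1 d2 d3, pOm_cyc] at i2
  rw [← hE3, hc3, ho3] at i3
  rw [← hE1] at i1
  have g1 := I4_gt he1 he2 he3 hD (by rwa [mul_comm e1 e3]) f3 a312 (by rw [add_comm]; exact p31)
  have g2 := I4_gt he2 he3 he1 hD (by rwa [mul_comm e2 e1]) f1 a123 (by rw [add_comm]; exact p12)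
  have g3 := I4_gt he3 he1 he2 hD (by rwa [mul_comm e3 e2]) f2 a231 (by rw [add_comm]; exact p23)
  have hd1 : 0 < d1 ^ 2 - 1 := by nlinarith
  have hd2 : 0 < d2 ^ 2 - 1 := by nlinarith
  have hd3 : 0 < d3 ^ 2 - 1 := by nlinarith
  have hP1 : 0 < (d1 ^ 2 - 1) * pOm B1 B2 B3 d1 d2 d3 := by positivity
  have hP2 : 0 < (d2 ^ 2 - 1) * pOm B1 B2 B3 d1 d2 d3 := by positivity
  have hP3 : 0 < (d3 ^ 2 - 1) * pOm B1 B2 B3 d1 d2 d3 := by positivity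
  have hs1 := Real.sq_sqrt hP1.le
  have hs2 := Real.sq_sqrt hP2.le
  have hs3 := Real.sq_sqrt hP3.le
  have key := quad_neg (N1 := pN B1 B2 B3 d1 d2 d3) (N2 := pN B2 B3 B1 d2 d3 d1)
    (N3 := pN B3 B1 B2 d3 d1 d2) (r := √(pDelta d1 d2 d3)) (D := pDelta d1 d2 d3)
    (A1 := pI4 B1 B2 B3 d1 d2 d3) (A2 := pI4 B2 B3 B1 d2 d3 d1) (A3 := pI4 B3 B1 B2 d3 d1 d2)
    (v1 := v1) (v2 := v2) (v3 := v3)
    he1 he2 he3 (Real.sqrt_pos.mpr hP1) (Real.sqrt_pos.mpr hP2) (Real.sqrt_pos.mpr hP3)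
    (Real.sqrt_pos.mpr hD) (Real.sq_sqrt hD.le)
    (by rw [hs1]; linarith) (by rw [hs2]; linarith) (by rw [hs3]; linarith)
    p12 p23 (by rw [add_comm]; exact p31)
    (by unfold pI4; rw [← hE1]; exact g1)
    (by
      unfold pI4; rw [← hE2, pDelta_cyc d1 d2 d3]
      refine lt_of_eq_of_lt ?_ g2
      ring)
    (by
      unfold pI4; rw [← hE3, hc3]
      refine lt_of_eq_of_lt ?_ g3
      ring)
    hv
  rw [hs1, hs2, hs3] at key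
  exact key

/-- Data of one arc along the straight path. -/
theorem path_deriv {g B T0 v : ℝ} (t : ℝ) :
    HasDerivAt (fun t => g * cosh (T0 + t * v) - B) (g * sinh (T0 + t * v) * v) t ∧
    HasDerivAt (fun t => g * sinh (T0 + t * v)) (g * cosh (T0 + t * v) * v) t := by
  have h : HasDerivAt (fun t => T0 + t * v) v t :=
    (((hasDerivAt_id t).mul_const v).const_add T0).congr_deriv (by simp)
  constructor
  · exact ((h.cosh.const_mul g).sub_const B).congr_deriv (by ring)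
  · exact (h.sinh.const_mul g).congr_deriv (by ring)

theorem path_pos {T0 T1 t : ℝ} (h0 : 0 < T0) (h1 : 0 < T1) (ht : t ∈ Set.Icc (0 : ℝ) 1) :
    0 < T0 + t * (T1 - T0) ∧ min (cosh T0) (cosh T1) ≤ cosh (T0 + t * (T1 - T0)) := by
  obtain ⟨ht0, ht1⟩ := ht
  have e : T0 + t * (T1 - T0) = (1 - t) * T0 + t * T1 := by ring
  rcases le_total T0 T1 with h | h
  · have h2 : T0 ≤ T0 + t * (T1 - T0) := by nlinarith
    refine ⟨by linarith, le_trans (min_le_left _ _) ?_⟩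
    rw [Real.cosh_le_cosh, abs_of_pos h0, abs_of_pos (by linarith)]
    exact h2
  · have h2 : T1 ≤ T0 + t * (T1 - T0) := by nlinarith
    refine ⟨by linarith, le_trans (min_le_right _ _) ?_⟩
    rw [Real.cosh_le_cosh, abs_of_pos h1, abs_of_pos (by linarith)]
    exact h2

theorem block_mono {B1 B2 B3 g1 g2 g3 T1 T2 T3 T1' T2' T3' : ℝ}
    (hB1 : 0 ≤ B1) (hB2 : 0 ≤ B2) (hB3 : 0 ≤ B3)
    (hB1' : B1 < 1) (hB2' : B2 < 1) (hB3' : B3 < 1)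
    (h12 : 0 < B1 + B2) (h23 : 0 < B2 + B3) (h13 : 0 < B1 + B3)
    (hg1 : 0 < g1) (hg2 : 0 < g2) (hg3 : 0 < g3)
    (hg1' : g1 ^ 2 = (1 - B2 ^ 2) * (1 - B3 ^ 2)) (hg2' : g2 ^ 2 = (1 - B3 ^ 2) * (1 - B1 ^ 2))
    (hg3' : g3 ^ 2 = (1 - B1 ^ 2) * (1 - B2 ^ 2))
    (hT1 : 0 < T1) (hT2 : 0 < T2) (hT3 : 0 < T3) (hT1' : 0 < T1') (hT2' : 0 < T2') (hT3' : 0 < T3')
    (hd1 : 1 < g1 * cosh T1 - B2 * B3) (hd2 : 1 < g2 * cosh T2 - B3 * B1)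
    (hd3 : 1 < g3 * cosh T3 - B1 * B2)
    (hd1' : 1 < g1 * cosh T1' - B2 * B3) (hd2' : 1 < g2 * cosh T2' - B3 * B1)
    (hd3' : 1 < g3 * cosh T3' - B1 * B2)
    (hne : T1' ≠ T1 ∨ T2' ≠ T2 ∨ T3' ≠ T3) :
    (T1' - T1) * (kap B1 B2 B3 (g1 * cosh T1' - B2 * B3) (g2 * cosh T2' - B3 * B1)
          (g3 * cosh T3' - B1 * B2) (g1 * sinh T1') -
        kap B1 B2 B3 (g1 * cosh T1 - B2 * B3) (g2 * cosh T2 - B3 * B1)
          (g3 * cosh T3 - B1 * B2) (g1 * sinh T1)) +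
      (T2' - T2) * (kap B2 B3 B1 (g2 * cosh T2' - B3 * B1) (g3 * cosh T3' - B1 * B2)
          (g1 * cosh T1' - B2 * B3) (g2 * sinh T2') -
        kap B2 B3 B1 (g2 * cosh T2 - B3 * B1) (g3 * cosh T3 - B1 * B2)
          (g1 * cosh T1 - B2 * B3) (g2 * sinh T2)) +
      (T3' - T3) * (kap B3 B1 B2 (g3 * cosh T3' - B1 * B2) (g1 * cosh T1' - B2 * B3)
          (g2 * cosh T2' - B3 * B1) (g3 * sinh T3') -
        kap B3 B1 B2 (g3 * cosh T3 - B1 * B2) (g1 * cosh T1 - B2 * B3)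
          (g2 * cosh T2 - B3 * B1) (g3 * sinh T3)) < 0 := by
  set v1 := T1' - T1 with hv1
  set v2 := T2' - T2 with hv2
  set v3 := T3' - T3 with hv3
  let d1 : ℝ → ℝ := fun t => g1 * cosh (T1 + t * v1) - B2 * B3
  let d2 : ℝ → ℝ := fun t => g2 * cosh (T2 + t * v2) - B3 * B1
  let d3 : ℝ → ℝ := fun t => g3 * cosh (T3 + t * v3) - B1 * B2
  let e1 : ℝ → ℝ := fun t => g1 * sinh (T1 + t * v1)
  let e2 : ℝ → ℝ := fun t => g2 * sinh (T2 + t * v2)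
  let e3 : ℝ → ℝ := fun t => g3 * sinh (T3 + t * v3)
  let f : ℝ → ℝ := fun t => v1 * kap B1 B2 B3 (d1 t) (d2 t) (d3 t) (e1 t)
    + v2 * kap B2 B3 B1 (d2 t) (d3 t) (d1 t) (e2 t)
    + v3 * kap B3 B1 B2 (d3 t) (d1 t) (d2 t) (e3 t)
  have hgen : ∀ {g C c S T0 T1 : ℝ}, 0 < g → 0 < T0 → 0 < T1 → 1 < g * cosh T0 - c →
      1 < g * cosh T1 - c → ∀ t ∈ Set.Icc (0 : ℝ) 1,
      1 < g * cosh (T0 + t * (T1 - T0)) - c ∧ 0 < g * sinh (T0 + t * (T1 - T0)) := by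
    intro g C c S T0 T1 hg h0 h1 hc0 hc1 t ht
    obtain ⟨hp, hm⟩ := path_pos h0 h1 ht
    constructor
    · rcases min_le_iff.mp hm with h | h <;> nlinarith
    · exact mul_pos hg (Real.sinh_pos_iff.mpr hp)
  have hE : ∀ {g Bj Bk Bi di dj T : ℝ}, g ^ 2 = (1 - Bj ^ 2) * (1 - Bk ^ 2) →
      (g * sinh T) ^ 2 = pE Bi Bj Bk (g * cosh T - Bj * Bk) di dj := by
    intro g Bj Bk Bi di dj T hg
    unfold pE
    have := Real.cosh_sq T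
    linear_combination (-g ^ 2) * this + (-1) * hg
  have hf : ∀ t ∈ Set.Icc (0 : ℝ) 1, ∃ f' < 0, HasDerivAt f f' t := by
    intro t ht
    obtain ⟨hd1t, he1t⟩ := hgen (C := 0) (S := 0) hg1 hT1 hT1' hd1 hd1' t ht
    obtain ⟨hd2t, he2t⟩ := hgen (C := 0) (S := 0) hg2 hT2 hT2' hd2 hd2' t ht
    obtain ⟨hd3t, he3t⟩ := hgen (C := 0) (S := 0) hg3 hT3 hT3' hd3 hd3' t ht
    rw [← hv1] at hd1t he1t
    rw [← hv2] at hd2t he2t
    rw [← hv3] at hd3t he3t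
    have E1 : e1 t ^ 2 = pE B1 B2 B3 (d1 t) (d2 t) (d3 t) := hE hg1'
    have E2 : e2 t ^ 2 = pE B2 B3 B1 (d2 t) (d3 t) (d1 t) := hE hg2'
    have E3 : e3 t ^ 2 = pE B3 B1 B2 (d3 t) (d1 t) (d2 t) := hE hg3'
    have D1 : HasDerivAt d1 (e1 t * v1) t := (path_deriv t).1
    have D2 : HasDerivAt d2 (e2 t * v2) t := (path_deriv t).1
    have D3 : HasDerivAt d3 (e3 t * v3) t := (path_deriv t).1
    have De1 : HasDerivAt e1 ((d1 t + B2 * B3) * v1) t :=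
      (path_deriv (B := 0) t).2.congr_deriv (by simp only [d1]; ring)
    have De2 : HasDerivAt e2 ((d2 t + B3 * B1) * v2) t :=
      (path_deriv (B := 0) t).2.congr_deriv (by simp only [d2]; ring)
    have De3 : HasDerivAt e3 ((d3 t + B1 * B2) * v3) t :=
      (path_deriv (B := 0) t).2.congr_deriv (by simp only [d3]; ring)
    have k1 := hasDerivAt_kap (d1 := d1) (d2 := d2) (d3 := d3) (e1 := e1) (t := t) hB1 hB2 hB3 hB1' hB2' hB3' hd1t hd2t hd3t he1t E1 D1 D2 D3 De1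
    have k2 := hasDerivAt_kap (d1 := d2) (d2 := d3) (d3 := d1) (e1 := e2) (t := t) hB2 hB3 hB1 hB2' hB3' hB1' hd2t hd3t hd1t he2t E2 D2 D3 D1 De2
    have k3 := hasDerivAt_kap (d1 := d3) (d2 := d1) (d3 := d2) (e1 := e3) (t := t) hB3 hB1 hB2 hB3' hB1' hB2' hd3t hd1t hd2t he3t E3 D3 D1 D2 De3
    refine ⟨_, ?_, ((k1.const_mul v1).add (k2.const_mul v2)).add (k3.const_mul v3)⟩
    have hv : v1 ≠ 0 ∨ v2 ≠ 0 ∨ v3 ≠ 0 := by
      rcases hne with h | h | h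
      · left; rw [hv1]; exact sub_ne_zero.mpr h
      · right; left; rw [hv2]; exact sub_ne_zero.mpr h
      · right; right; rw [hv3]; exact sub_ne_zero.mpr h
    have neg := block_form_neg (d1 := d1 t) (d2 := d2 t) (d3 := d3 t) (e1 := e1 t) (e2 := e2 t)
      (e3 := e3 t) hB1 hB2 hB3 hB1' hB2' hB3' h12 h23 h13 hd1t hd2t hd3t he1t he2t he3t
      E1 E2 E3 hv
    have hD : 0 < pDelta (d1 t) (d2 t) (d3 t) := pDelta_pos hd1t hd2t hd3t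
    have hO : 0 < pOm B1 B2 B3 (d1 t) (d2 t) (d3 t) :=
      pOm_pos hB1 hB2 hB3 hB1' hB2' hB3' hd1t hd2t hd3t
    have hc2 : pDelta (d2 t) (d3 t) (d1 t) = pDelta (d1 t) (d2 t) (d3 t) := by rw [pDelta_cyc]
    have hc3 : pDelta (d3 t) (d1 t) (d2 t) = pDelta (d1 t) (d2 t) (d3 t) := by
      rw [pDelta_cyc, pDelta_cyc]
    have ho2 : pOm B2 B3 B1 (d2 t) (d3 t) (d1 t) = pOm B1 B2 B3 (d1 t) (d2 t) (d3 t) := by
      rw [pOm_cyc]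
    have ho3 : pOm B3 B1 B2 (d3 t) (d1 t) (d2 t) = pOm B1 B2 B3 (d1 t) (d2 t) (d3 t) := by
      rw [pOm_cyc, pOm_cyc]
    rw [hc2, hc3, ho2, ho3]
    have hr := Real.sqrt_pos.mpr hD
    set r := √(pDelta (d1 t) (d2 t) (d3 t)) with hrdef
    set Om := pOm B1 B2 B3 (d1 t) (d2 t) (d3 t) with hOm
    have hrO : 0 < r * Om := mul_pos hr hO
    refine lt_of_eq_of_lt ?_ (div_neg_of_neg_of_pos neg hrO)
    change _ = (-(pI4 B1 B2 B3 (d1 t) (d2 t) (d3 t) / ((d1 t ^ 2 - 1) * Om) * v1 ^ 2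
      + pI4 B2 B3 B1 (d2 t) (d3 t) (d1 t) / ((d2 t ^ 2 - 1) * Om) * v2 ^ 2
      + pI4 B3 B1 B2 (d3 t) (d1 t) (d2 t) / ((d3 t ^ 2 - 1) * Om) * v3 ^ 2)
      + 2 * (e1 t * e2 t * pN B3 B1 B2 (d3 t) (d1 t) (d2 t) * (v1 * v2)
        + e2 t * e3 t * pN B1 B2 B3 (d1 t) (d2 t) (d3 t) * (v2 * v3)
        + e1 t * e3 t * pN B2 B3 B1 (d2 t) (d3 t) (d1 t) * (v1 * v3))) / (r * Om)
    have q1 : (d1 t ^ 2 - 1) ≠ 0 := by
      have : 1 < d1 t := hd1t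
      nlinarith
    have q2 : (d2 t ^ 2 - 1) ≠ 0 := by
      have : 1 < d2 t := hd2t
      nlinarith
    have q3 : (d3 t ^ 2 - 1) ≠ 0 := by
      have : 1 < d3 t := hd3t
      nlinarith
    generalize d1 t ^ 2 - 1 = K1 at q1 ⊢
    generalize d2 t ^ 2 - 1 = K2 at q2 ⊢
    generalize d3 t ^ 2 - 1 = K3 at q3 ⊢
    generalize pI4 B1 B2 B3 (d1 t) (d2 t) (d3 t) = I1
    generalize pI4 B2 B3 B1 (d2 t) (d3 t) (d1 t) = I2
    generalize pI4 B3 B1 B2 (d3 t) (d1 t) (d2 t) = I3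
    generalize pN B1 B2 B3 (d1 t) (d2 t) (d3 t) = N1
    generalize pN B2 B3 B1 (d2 t) (d3 t) (d1 t) = N2
    generalize pN B3 B1 B2 (d3 t) (d1 t) (d2 t) = N3
    have hr' : r ≠ 0 := hr.ne'
    have hO' : Om ≠ 0 := hO.ne'
    generalize e1 t = x1
    generalize e2 t = x2
    generalize e3 t = x3
    clear_value r Om
    field_simp
    ring
  have hanti : StrictAntiOn f (Set.Icc 0 1) := by
    apply strictAntiOn_of_deriv_neg (convex_Icc 0 1)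
    · intro t ht
      obtain ⟨f', _, h⟩ := hf t ht
      exact h.continuousAt.continuousWithinAt
    · intro t ht
      rw [interior_Icc] at ht
      obtain ⟨f', hn, h⟩ := hf t ⟨ht.1.le, ht.2.le⟩
      rw [h.deriv]; exact hn
  have h01 := hanti (show (0 : ℝ) ∈ Set.Icc (0 : ℝ) 1 by simp)
    (show (1 : ℝ) ∈ Set.Icc (0 : ℝ) 1 by simp) (by norm_num)
  have s1 : T1 + v1 = T1' := by rw [hv1]; ring
  have s2 : T2 + v2 = T2' := by rw [hv2]; ring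
  have s3 : T3 + v3 = T3' := by rw [hv3]; ring
  simp only [f, d1, d2, d3, e1, e2, e3, zero_mul, one_mul, add_zero, s1, s2, s3] at h01
  linarith

end Run7.h568
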