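import Pool.Agent.Run7.h568.Quad

namespace Run7.h568

open Real

/-- The (negated, scaled) diagonal entry of the Jacobian of a block. -/
def pI4 (B1 B2 B3 d1 d2 d3 : ℝ) : ℝ :=
  pF B2 B3 B1 d2 d3 d1 * pF B3 B1 B2 d3 d1 d2 * pN B1 B2 B3 d1 d2 d3 * pDelta d1 d2 d3
    + pE B1 B2 B3 d1 d2 d3 * (pF B2 B3 B1 d2 d3 d1 * pN B2 B3 B1 d2 d3 d1
      + pF B3 B1 B2 d3 d1 d2 * pN B3 B1 B2 d3 d1 d2) * pDelta d1 d2 d3
    + pE B1 B2 B3 d1 d2 d3 * (pN B1 B2 B3 d1 d2 d3 * pN B2 B3 B1 d2 d3 d1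
      * pN B3 B1 B2 d3 d1 d2)

theorem pDelta_cyc (d1 d2 d3 : ℝ) : pDelta d2 d3 d1 = pDelta d1 d2 d3 := by
  unfold pDelta; ring

theorem pOm_cyc (B1 B2 B3 d1 d2 d3 : ℝ) :
    pOm B2 B3 B1 d2 d3 d1 = pOm B1 B2 B3 d1 d2 d3 := by
  unfold pOm pDelta; ring

theorem pDelta_pos {d1 d2 d3 : ℝ} (h1 : 1 < d1) (h2 : 1 < d2) (h3 : 1 < d3) :
    0 < pDelta d1 d2 d3 := by
  unfold pDelta
  have : 0 < d1 * d2 * d3 := by positivity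
  nlinarith

theorem pOm_pos {B1 B2 B3 d1 d2 d3 : ℝ} (hB1 : 0 ≤ B1) (hB2 : 0 ≤ B2) (hB3 : 0 ≤ B3)
    (hB1' : B1 < 1) (hB2' : B2 < 1) (hB3' : B3 < 1)
    (h1 : 1 < d1) (h2 : 1 < d2) (h3 : 1 < d3) : 0 < pOm B1 B2 B3 d1 d2 d3 := by
  unfold pOm pDelta
  have e1 : 0 ≤ (1 - B1 ^ 2) * (d1 ^ 2 - 1) := by
    apply mul_nonneg <;> nlinarith
  have e2 : 0 ≤ (1 - B2 ^ 2) * (d2 ^ 2 - 1) := by
    apply mul_nonneg <;> nlinarith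
  have e3 : 0 ≤ (1 - B3 ^ 2) * (d3 ^ 2 - 1) := by
    apply mul_nonneg <;> nlinarith
  have e4 : 0 < d1 * d2 * d3 := by positivity
  have e5 : 0 ≤ B1 * B2 * (d3 + d1 * d2) := by positivity
  have e6 : 0 ≤ B2 * B3 * (d1 + d2 * d3) := by positivity
  have e7 : 0 ≤ B3 * B1 * (d2 + d3 * d1) := by positivity
  nlinarith

theorem pF_pos {B1 B2 B3 d1 d2 d3 : ℝ} (hB1 : 0 ≤ B1) (hB2 : 0 ≤ B2) (hB3 : 0 ≤ B3)
    (hB1' : B1 < 1) (h1 : 1 < d1) (h2 : 1 < d2) (h3 : 1 < d3) : 0 < pF B1 B2 B3 d1 d2 d3 := by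
  unfold pF
  have e1 : 0 < (1 - B1 ^ 2) * d1 := by
    apply mul_pos <;> nlinarith
  have e4 : 0 < d2 * d3 := by positivity
  have e5 : 0 ≤ B1 * B2 * d2 := by positivity
  have e6 : 0 ≤ B1 * B3 * d3 := by positivity
  have e7 : 0 ≤ B2 * B3 := by positivity
  nlinarith

/-- `F₁ > e₂ e₃`. -/
theorem pF_gt {B1 B2 B3 d1 d2 d3 e2 e3 : ℝ} (hB1 : 0 ≤ B1) (hB2 : 0 ≤ B2) (hB3 : 0 ≤ B3)
    (hB1' : B1 < 1) (hB2' : B2 < 1) (hB3' : B3 < 1)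
    (h1 : 1 < d1) (h2 : 1 < d2) (h3 : 1 < d3)
    (he2 : e2 ^ 2 = pE B2 B3 B1 d2 d3 d1) (he3 : e3 ^ 2 = pE B3 B1 B2 d3 d1 d2) :
    e2 * e3 < pF B1 B2 B3 d1 d2 d3 := by
  have hF := pF_pos hB1 hB2 hB3 hB1' h1 h2 h3
  have hO := pOm_pos hB1 hB2 hB3 hB1' hB2' hB3' h1 h2 h3
  have h5 := I5 B1 B2 B3 d1 d2 d3
  rw [← he2, ← he3] at h5
  have : 0 < (1 - B1 ^ 2) * pOm B1 B2 B3 d1 d2 d3 := by
    apply mul_pos _ hO; nlinarith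
  apply lt_of_pow_lt_pow_left₀ 2 hF.le
  nlinarith

/-- `f₁ n₂ + n₃ > 0` -/
theorem fn_pos {B1 B2 B3 d1 d2 d3 e2 e3 : ℝ} (hB1 : 0 ≤ B1) (hB2 : 0 ≤ B2) (hB3 : 0 ≤ B3)
    (hB1' : B1 < 1) (hB2' : B2 < 1) (hB3' : B3 < 1)
    (h1 : 1 < d1) (h2 : 1 < d2) (h3 : 1 < d3) (h13 : 0 < B1 + B3)
    (he2p : 0 < e2) (he3p : 0 < e3)
    (he2 : e2 ^ 2 = pE B2 B3 B1 d2 d3 d1) :
    0 < pF B1 B2 B3 d1 d2 d3 / (e2 * e3) * (pN B2 B3 B1 d2 d3 d1 / e2)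
        + pN B3 B1 B2 d3 d1 d2 / e3 := by
  have hO := pOm_pos hB1 hB2 hB3 hB1' hB2' hB3' h1 h2 h3
  have h := I2 B1 B2 B3 d1 d2 d3
  rw [← he2] at h
  have hp : 0 < B1 * d2 + B3 := by nlinarith
  have : pF B1 B2 B3 d1 d2 d3 / (e2 * e3) * (pN B2 B3 B1 d2 d3 d1 / e2)
        + pN B3 B1 B2 d3 d1 d2 / e3 =
      (pF B1 B2 B3 d1 d2 d3 * pN B2 B3 B1 d2 d3 d1 + e2 ^ 2 * pN B3 B1 B2 d3 d1 d2)
        / (e2 ^ 2 * e3) := by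
    field_simp
  rw [this, h]
  positivity

/-- `f₁ n₃ + n₂ > 0` -/
theorem fn_pos' {B1 B2 B3 d1 d2 d3 e2 e3 : ℝ} (hB1 : 0 ≤ B1) (hB2 : 0 ≤ B2) (hB3 : 0 ≤ B3)
    (hB1' : B1 < 1) (hB2' : B2 < 1) (hB3' : B3 < 1)
    (h1 : 1 < d1) (h2 : 1 < d2) (h3 : 1 < d3) (h12 : 0 < B1 + B2)
    (he2p : 0 < e2) (he3p : 0 < e3)
    (he3 : e3 ^ 2 = pE B3 B1 B2 d3 d1 d2) :
    0 < pF B1 B2 B3 d1 d2 d3 / (e2 * e3) * (pN B3 B1 B2 d3 d1 d2 / e3)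
        + pN B2 B3 B1 d2 d3 d1 / e2 := by
  have hO := pOm_pos hB1 hB2 hB3 hB1' hB2' hB3' h1 h2 h3
  have h := I2' B1 B2 B3 d1 d2 d3
  rw [← he3] at h
  have hp : 0 < B1 * d3 + B2 := by nlinarith
  have : pF B1 B2 B3 d1 d2 d3 / (e2 * e3) * (pN B3 B1 B2 d3 d1 d2 / e3)
        + pN B2 B3 B1 d2 d3 d1 / e2 =
      (pF B1 B2 B3 d1 d2 d3 * pN B3 B1 B2 d3 d1 d2 + e3 ^ 2 * pN B2 B3 B1 d2 d3 d1)
        / (e3 ^ 2 * e2) := by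
    field_simp
  rw [this, h]
  positivity

theorem add_pos_of_f {f n m : ℝ} (hf : 1 < f) (h1 : 0 < f * n + m) (h2 : 0 < f * m + n) :
    0 < n + m := by
  rcases lt_or_ge n 0 with hn | hn
  · nlinarith
  rcases lt_or_ge m 0 with hm | hm
  · nlinarith
  rcases eq_or_lt_of_le hn with h | h
  · rw [← h] at h1 ⊢; linarith
  · linarith

/-- The comparison `M₁ > S`. -/
theorem I4_gt {F2 F3 N1 N2 N3 D e1 e2 e3 : ℝ} (he1 : 0 < e1) (he2 : 0 < e2) (he3 : 0 < e3)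
    (hD : 0 < D)
    (hf2 : 1 < F2 / (e1 * e3)) (hf3 : 1 < F3 / (e1 * e2))
    (h31 : 0 < F3 / (e1 * e2) * (N1 / e1) + N2 / e2) (h13 : 0 < N1 / e1 + N3 / e3) :
    (N1 * e2 * e3 + e1 * N2 * e3 + e1 * e2 * N3 + N1 * N2 * N3 / D) <
      (F2 * F3 * N1 * D + e1 ^ 2 * (F2 * N2 + F3 * N3) * D + e1 ^ 2 * (N1 * N2 * N3))
        / (e1 ^ 2 * D) := by
  have key : (F2 * F3 * N1 * D + e1 ^ 2 * (F2 * N2 + F3 * N3) * D + e1 ^ 2 * (N1 * N2 * N3))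
        / (e1 ^ 2 * D) - (N1 * e2 * e3 + e1 * N2 * e3 + e1 * e2 * N3 + N1 * N2 * N3 / D)
      = (e1 * e2 * e3) * ((F2 / (e1 * e3) - 1) * (F3 / (e1 * e2) * (N1 / e1) + N2 / e2)
        + (F3 / (e1 * e2) - 1) * (N1 / e1 + N3 / e3)) := by
    field_simp
    ring
  have : 0 < (e1 * e2 * e3) * ((F2 / (e1 * e3) - 1) * (F3 / (e1 * e2) * (N1 / e1) + N2 / e2)
        + (F3 / (e1 * e2) - 1) * (N1 / e1 + N3 / e3)) := by
    have a1 : 0 < F2 / (e1 * e3) - 1 := by linarith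
    have a2 : 0 < F3 / (e1 * e2) - 1 := by linarith
    positivity
  linarith

theorem s_add_pos {D ni nj ρi ρj : ℝ} (hD : 0 < D) (hi : 0 < ρi) (hj : 0 < ρj)
    (h1 : ρi ^ 2 = D - ni ^ 2) (h2 : ρj ^ 2 = D - nj ^ 2) (h : 0 < ni + nj) :
    0 < ni / ρi + nj / ρj := by
  have : 0 < ni * ρj + nj * ρi := by
    rcases lt_or_ge ni 0 with h3 | h3
    · have h5 : (ni * ρj) ^ 2 < (nj * ρi) ^ 2 := by
        have : (nj * ρi) ^ 2 - (ni * ρj) ^ 2 = D * ((nj - ni) * (ni + nj)) := by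
          rw [mul_pow, mul_pow, h1, h2]; ring
        have h6 : 0 < D * ((nj - ni) * (ni + nj)) :=
          mul_pos hD (mul_pos (by linarith) h)
        linarith
      have h7 := abs_lt_of_sq_lt_sq h5 (by apply mul_nonneg _ hi.le; linarith)
      have h8 := neg_abs_le (ni * ρj)
      linarith
    rcases lt_or_ge nj 0 with h4 | h4
    · have h5 : (nj * ρi) ^ 2 < (ni * ρj) ^ 2 := by
        have : (ni * ρj) ^ 2 - (nj * ρi) ^ 2 = D * ((ni - nj) * (ni + nj)) := by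
          rw [mul_pow, mul_pow, h1, h2]; ring
        have h6 : 0 < D * ((ni - nj) * (ni + nj)) :=
          mul_pos hD (mul_pos (by linarith) h)
        linarith
      have h7 := abs_lt_of_sq_lt_sq h5 (by apply mul_nonneg _ hj.le; linarith)
      have h8 := neg_abs_le (nj * ρi)
      linarith
    rcases eq_or_lt_of_le h3 with h5 | h5
    · have : 0 < nj := by rw [← h5] at h; linarith
      rw [← h5]; positivity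
    · positivity
  have e : ni / ρi + nj / ρj = (ni * ρj + nj * ρi) / (ρi * ρj) := by field_simp
  rw [e]; positivity

theorem quad_neg {N1 N2 N3 e1 e2 e3 R1 R2 R3 r D A1 A2 A3 v1 v2 v3 : ℝ}
    (he1 : 0 < e1) (he2 : 0 < e2) (he3 : 0 < e3) (hR1 : 0 < R1) (hR2 : 0 < R2) (hR3 : 0 < R3)
    (hr : 0 < r) (hD : r ^ 2 = D)
    (h1 : R1 ^ 2 = e1 ^ 2 * D - N1 ^ 2) (h2 : R2 ^ 2 = e2 ^ 2 * D - N2 ^ 2)
    (h3 : R3 ^ 2 = e3 ^ 2 * D - N3 ^ 2)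
    (p12 : 0 < N1 / e1 + N2 / e2) (p23 : 0 < N2 / e2 + N3 / e3) (p13 : 0 < N1 / e1 + N3 / e3)
    (hA1 : (N1 * e2 * e3 + e1 * N2 * e3 + e1 * e2 * N3 + N1 * N2 * N3 / D) < A1 / (e1 ^ 2 * D))
    (hA2 : (N1 * e2 * e3 + e1 * N2 * e3 + e1 * e2 * N3 + N1 * N2 * N3 / D) < A2 / (e2 ^ 2 * D))
    (hA3 : (N1 * e2 * e3 + e1 * N2 * e3 + e1 * e2 * N3 + N1 * N2 * N3 / D) < A3 / (e3 ^ 2 * D))
    (hv : v1 ≠ 0 ∨ v2 ≠ 0 ∨ v3 ≠ 0) :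
    -(A1 / R1 ^ 2 * v1 ^ 2 + A2 / R2 ^ 2 * v2 ^ 2 + A3 / R3 ^ 2 * v3 ^ 2)
      + 2 * (e1 * e2 * N3 * (v1 * v2) + e2 * e3 * N1 * (v2 * v3) + e1 * e3 * N2 * (v1 * v3))
      < 0 := by
  have hD0 : 0 < D := by rw [← hD]; positivity
  have hs : ∀ {Ni Nj ei ej Ri Rj : ℝ}, 0 < ei → 0 < ej → 0 < Ri → 0 < Rj →
      Ri ^ 2 = ei ^ 2 * D - Ni ^ 2 → Rj ^ 2 = ej ^ 2 * D - Nj ^ 2 → 0 < Ni / ei + Nj / ej →
      0 < Ni / Ri + Nj / Rj := by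
    intro Ni Nj ei ej Ri Rj hei hej hRi hRj hi hj hp
    have := s_add_pos (ρi := Ri / ei) (ρj := Rj / ej) hD0 (by positivity) (by positivity)
      (by rw [div_pow, hi]; field_simp) (by rw [div_pow, hj]; field_simp) hp
    have e1' : Ni / ei / (Ri / ei) = Ni / Ri := by field_simp
    have e2' : Nj / ej / (Rj / ej) = Nj / Rj := by field_simp
    rwa [e1', e2'] at this
  have q := quad_B (s1 := N1 / R1) (s2 := N2 / R2) (s3 := N3 / R3)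
    (c1 := e1 * r / R1) (c2 := e2 * r / R2) (c3 := e3 * r / R3)
    (e1 * r * v1 / R1) (e2 * r * v2 / R2) (e3 * r * v3 / R3)
    (by positivity) (by positivity) (by positivity)
    (by rw [div_pow, div_pow, mul_pow, hD, h1]; rw [← h1]; field_simp; rw [h1]; ring)
    (by rw [div_pow, div_pow, mul_pow, hD, h2]; rw [← h2]; field_simp; rw [h2]; ring)
    (by rw [div_pow, div_pow, mul_pow, hD, h3]; rw [← h3]; field_simp; rw [h3]; ring)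
    (hs he1 he2 hR1 hR2 h1 h2 p12) (hs he2 he3 hR2 hR3 h2 h3 p23) (hs he1 he3 hR1 hR3 h1 h3 p13)
  set K := R1 * R2 * R3 / D with hK
  have hKp : 0 < K := by positivity
  set w1 := e1 * r * v1 / R1 with hw1
  set w2 := e2 * r * v2 / R2 with hw2
  set w3 := e3 * r * v3 / R3 with hw3
  have q' := mul_le_mul_of_nonneg_left q hKp.le
  have eL : K * (2 * (N1 / R1 * (w2 * w3) + N2 / R2 * (w1 * w3) + N3 / R3 * (w1 * w2))) =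
      2 * (e1 * e2 * N3 * (v1 * v2) + e2 * e3 * N1 * (v2 * v3) + e1 * e3 * N2 * (v1 * v3)) := by
    rw [hK, hw1, hw2, hw3, ← hD]; field_simp; ring
  have eR : K * ((N1 / R1 * (e2 * r / R2) * (e3 * r / R3) + e1 * r / R1 * (N2 / R2) * (e3 * r / R3)
      + e1 * r / R1 * (e2 * r / R2) * (N3 / R3) + N1 / R1 * (N2 / R2) * (N3 / R3)) *
        (w1 ^ 2 + w2 ^ 2 + w3 ^ 2)) =
      (N1 * e2 * e3 + e1 * N2 * e3 + e1 * e2 * N3 + N1 * N2 * N3 / D) *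
        (w1 ^ 2 + w2 ^ 2 + w3 ^ 2) := by
    rw [hK, ← hD]; field_simp
  rw [eL, eR] at q'
  set S := N1 * e2 * e3 + e1 * N2 * e3 + e1 * e2 * N3 + N1 * N2 * N3 / D with hS
  have a1 : A1 / R1 ^ 2 * v1 ^ 2 = A1 / (e1 ^ 2 * D) * w1 ^ 2 := by
    rw [hw1, ← hD]; field_simp
  have a2 : A2 / R2 ^ 2 * v2 ^ 2 = A2 / (e2 ^ 2 * D) * w2 ^ 2 := by
    rw [hw2, ← hD]; field_simp
  have a3 : A3 / R3 ^ 2 * v3 ^ 2 = A3 / (e3 ^ 2 * D) * w3 ^ 2 := by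
    rw [hw3, ← hD]; field_simp
  rw [a1, a2, a3]
  have b1 : 0 ≤ (A1 / (e1 ^ 2 * D) - S) * w1 ^ 2 := mul_nonneg (by linarith) (sq_nonneg _)
  have b2 : 0 ≤ (A2 / (e2 ^ 2 * D) - S) * w2 ^ 2 := mul_nonneg (by linarith) (sq_nonneg _)
  have b3 : 0 ≤ (A3 / (e3 ^ 2 * D) - S) * w3 ^ 2 := mul_nonneg (by linarith) (sq_nonneg _)
  have b : 0 < (A1 / (e1 ^ 2 * D) - S) * w1 ^ 2 + (A2 / (e2 ^ 2 * D) - S) * w2 ^ 2
      + (A3 / (e3 ^ 2 * D) - S) * w3 ^ 2 := by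
    rcases hv with h | h | h
    · have hw : w1 ≠ 0 := by rw [hw1]; positivity
      have : 0 < (A1 / (e1 ^ 2 * D) - S) * w1 ^ 2 := mul_pos (by linarith) (by positivity)
      linarith
    · have hw : w2 ≠ 0 := by rw [hw2]; positivity
      have : 0 < (A2 / (e2 ^ 2 * D) - S) * w2 ^ 2 := mul_pos (by linarith) (by positivity)
      linarith
    · have hw : w3 ≠ 0 := by rw [hw3]; positivity
      have : 0 < (A3 / (e3 ^ 2 * D) - S) * w3 ^ 2 := mul_pos (by linarith) (by positivity)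
      linarith
  nlinarith

end Run7.h568
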