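import Pool.Agent.Run7.h568.Alpha

namespace Run7.h568

open Real Matrix

theorem TST_entries (u v s c : ℝ) :
    T (-u) * Sm s c * T v =
      !![exp (-(u / 2)) * s * exp (v / 2), exp (-(u / 2)) * c * exp (-(v / 2));
         -(exp (u / 2) * c * exp (v / 2)), -(exp (u / 2) * s * exp (-(v / 2)))] := by
  have e1 : -u / 2 = -(u / 2) := by ring
  unfold T Sm
  rw [e1, neg_neg]
  apply T_ext <;> simp

theorem decomp {a b c d : ℝ} (ha : 0 < a) (hb : 0 < b) (hc : c < 0) (hd : d < 0) :
    !![a, b; c, d] = T (-((log (-c) + log (-d) - log a - log b) / 2)) *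
      Sm (exp ((log a + log (-d)) / 2)) (exp ((log b + log (-c)) / 2)) *
      T ((log (-c) + log a - log (-d) - log b) / 2) := by
  rw [TST_entries]
  have hc' : 0 < -c := by linarith
  have hd' : 0 < -d := by linarith
  apply T_ext <;> simp only [← Real.exp_add, Matrix.of_apply, Matrix.cons_val',
    Matrix.cons_val_zero, Matrix.cons_val_one]
  · conv_lhs => rw [← Real.exp_log ha]
    congr 1; ring
  · conv_lhs => rw [← Real.exp_log hb]
    congr 1; ring
  · rw [← neg_neg c]
    conv_lhs => rw [← Real.exp_log hc']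
    rw [neg_neg c]
    congr 2; ring
  · rw [← neg_neg d]
    conv_lhs => rw [← Real.exp_log hd']
    rw [neg_neg d]
    congr 2; ring

theorem decomp_det {a b c d : ℝ} (ha : 0 < a) (hb : 0 < b) (hc : c < 0) (hd : d < 0)
    (hdet : a * d - b * c = 1) :
    exp ((log b + log (-c)) / 2) ^ 2 - exp ((log a + log (-d)) / 2) ^ 2 = 1 := by
  have hc' : 0 < -c := by linarith
  have hd' : 0 < -d := by linarith
  have e1 : exp ((log b + log (-c)) / 2) ^ 2 = b * (-c) := by
    rw [← Real.exp_nat_mul]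
    have : ((2 : ℕ) : ℝ) * ((log b + log (-c)) / 2) = log b + log (-c) := by push_cast; ring
    rw [this, Real.exp_add, Real.exp_log hb, Real.exp_log hc']
  have e2 : exp ((log a + log (-d)) / 2) ^ 2 = a * (-d) := by
    rw [← Real.exp_nat_mul]
    have : ((2 : ℕ) : ℝ) * ((log a + log (-d)) / 2) = log a + log (-d) := by push_cast; ring
    rw [this, Real.exp_add, Real.exp_log ha, Real.exp_log hd']
  rw [e1, e2]; linarith

/-- uniqueness of the decomposition -/
theorem decomp_unique {u v s c u' v' s' c' : ℝ} (hs : 0 < s) (hc : 0 < c) (hs' : 0 < s')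
    (hc' : 0 < c') (h : T (-u) * Sm s c * T v = T (-u') * Sm s' c' * T v') :
    u = u' ∧ v = v' ∧ s = s' ∧ c = c' := by
  rw [TST_entries, TST_entries] at h
  have e00 := congrFun (congrFun h 0) 0
  have e01 := congrFun (congrFun h 0) 1
  have e10 := congrFun (congrFun h 1) 0
  have e11 := congrFun (congrFun h 1) 1
  simp only [Matrix.of_apply, Matrix.cons_val', Matrix.cons_val_zero,
    Matrix.cons_val_one] at e00 e01 e10 e11
  have l00 := congrArg log e00
  have l01 := congrArg log e01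
  have l10 := congrArg log (neg_injective e10)
  have l11 := congrArg log (neg_injective e11)
  have hl : ∀ {x y z : ℝ}, 0 < z → log (exp x * z * exp y) = x + log z + y := by
    intro x y z hz
    rw [Real.log_mul (by positivity) (by positivity), Real.log_mul (by positivity) (by positivity),
      Real.log_exp, Real.log_exp]
  rw [hl hs, hl hs'] at l00 l11
  rw [hl hc, hl hc'] at l01 l10
  refine ⟨by linarith, by linarith, ?_, ?_⟩
  · exact Real.log_injOn_pos hs hs' (by linarith)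
  · exact Real.log_injOn_pos hc hc' (by linarith)

namespace HypMetric

variable {V : Type*} {P : HexPattern V} (m : HypMetric P)

noncomputable def X (q : V) : ℝ :=
  (log (-(m.h (P.iota q) 1 0)) + log (-(m.h (P.iota q) 1 1)) - log (m.h (P.iota q) 0 0)
    - log (m.h (P.iota q) 0 1)) / 2

noncomputable def sS (p : V) : ℝ := exp ((log (m.h p 0 0) + log (-(m.h p 1 1))) / 2)
noncomputable def cS (p : V) : ℝ := exp ((log (m.h p 0 1) + log (-(m.h p 1 0))) / 2)

theorem sS_pos (p : V) : 0 < m.sS p := exp_pos _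
theorem cS_pos (p : V) : 0 < m.cS p := exp_pos _

theorem cS_sS (p : V) : m.cS p ^ 2 - m.sS p ^ 2 = 1 :=
  decomp_det (m.h_signs p).1 (m.h01_pos p) (m.h10_neg p) (m.h_signs p).2 (m.h_det p)

theorem sS_sg_tau (p : V) : m.sS (P.sg (P.tau p)) = m.sS p := by
  unfold sS
  rw [(m.h_sg p).1, (m.h_sg p).2.2.2, neg_neg, add_comm]

theorem cS_sg_tau (p : V) : m.cS (P.sg (P.tau p)) = m.cS p := by
  unfold cS
  rw [(m.h_sg p).2.1, (m.h_sg p).2.2.1]

theorem h_decomp (p : V) :
    m.h p = T (-(m.X (P.iota p))) * Sm (m.sS p) (m.cS p) * T (m.X (P.rho (P.tau p))) := by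
  have e : P.iota (P.rho (P.tau p)) = P.sg (P.tau p) := by
    rw [← P.rho_iota]; rfl
  unfold X sS cS
  rw [P.iota_iota, e, (m.h_sg p).1, (m.h_sg p).2.1, (m.h_sg p).2.2.1, (m.h_sg p).2.2.2, neg_neg]
  conv_lhs => rw [Matrix.eta_fin_two (m.h p)]
  exact decomp (m.h_signs p).1 (m.h01_pos p) (m.h10_neg p) (m.h_signs p).2

/-- half-hexagon length -/
noncomputable def z (p : V) : ℝ := m.x p + m.X (P.rho p) - m.X (P.iota p)

theorem hex_closes (p : V) :
    T (m.z p) * Sm (m.sS p) (m.cS p) * (T (m.z (P.tau p)) * Sm (m.sS (P.tau p)) (m.cS (P.tau p))) *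
      (T (m.z (P.tau (P.tau p))) * Sm (m.sS (P.tau (P.tau p))) (m.cS (P.tau (P.tau p)))) = -1 := by
  have h := m.closes' p
  rw [m.h_decomp p, m.h_decomp (P.tau p), m.h_decomp (P.tau (P.tau p)), P.tau3] at h
  set S0 := Sm (m.sS p) (m.cS p)
  set S1 := Sm (m.sS (P.tau p)) (m.cS (P.tau p))
  set S2 := Sm (m.sS (P.tau (P.tau p))) (m.cS (P.tau (P.tau p)))
  have e : T (m.z p) * S0 * (T (m.z (P.tau p)) * S1) * (T (m.z (P.tau (P.tau p))) * S2) =
    T (m.X (P.rho p)) * (T (m.x p) * (T (-m.X (P.iota p)) * S0 * T (m.X (P.rho (P.tau p)))) *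
      (T (m.x (P.tau p)) * (T (-m.X (P.iota (P.tau p))) * S1 * T (m.X (P.rho (P.tau (P.tau p)))))) *
      (T (m.x (P.tau (P.tau p))) * (T (-m.X (P.iota (P.tau (P.tau p)))) * S2 * T (m.X (P.rho p))))) *
      T (-m.X (P.rho p)) := by
    have z0 : T (m.z p) = T (m.X (P.rho p)) * T (m.x p) * T (-m.X (P.iota p)) := by
      rw [T_mul, T_mul]; unfold z; congr 1; ring
    have z1 : T (m.z (P.tau p)) = T (m.X (P.rho (P.tau p))) * T (m.x (P.tau p)) *
        T (-m.X (P.iota (P.tau p))) := by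
      rw [T_mul, T_mul]; unfold z; congr 1; ring
    have z2 : T (m.z (P.tau (P.tau p))) = T (m.X (P.rho (P.tau (P.tau p)))) *
        T (m.x (P.tau (P.tau p))) * T (-m.X (P.iota (P.tau (P.tau p)))) := by
      rw [T_mul, T_mul]; unfold z; congr 1; ring
    have z3 : T (m.X (P.rho p)) * T (-m.X (P.rho p)) = 1 := by
      rw [T_mul, add_neg_cancel, T_zero]
    rw [z0, z1, z2]
    simp only [Matrix.mul_assoc, z3, Matrix.mul_one]
  rw [e, h]
  simp [T_mul, T_zero]

theorem cosh_z (p : V) :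
    2 * cosh (m.z p) * (m.sS (P.tau (P.tau p)) * m.cS (P.tau (P.tau p)) * m.sS p * m.cS p) =
      m.sS (P.tau (P.tau p)) ^ 2 * m.sS p ^ 2 + m.cS (P.tau (P.tau p)) ^ 2 * m.cS p ^ 2
        + m.sS (P.tau p) ^ 2 := by
  have h := m.hex_closes (P.tau (P.tau p))
  rw [P.tau3] at h
  exact hexagon_law (m.cS_sS _) h

theorem z_eq (p : V) : m.z p = m.z (P.sg p) := by
  have h1 := m.cosh_z p
  have h2 := m.cosh_z (P.sg p)
  have e1 : P.tau (P.tau (P.sg p)) = P.sg (P.tau p) := (P.sg_tau p).symm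
  have e2 : P.tau (P.sg p) = P.sg (P.tau (P.tau p)) := P.tau_sg p
  have e3 : P.sg p = P.sg (P.tau (P.tau (P.tau p))) := by rw [P.tau3]
  rw [e1, e2, m.sS_sg_tau, m.cS_sg_tau, m.sS_sg_tau] at h2
  have e4 : m.sS (P.sg p) = m.sS (P.tau (P.tau p)) := by rw [e3, m.sS_sg_tau]
  have e5 : m.cS (P.sg p) = m.cS (P.tau (P.tau p)) := by rw [e3, m.cS_sg_tau]
  rw [e4, e5] at h2
  have p1 := m.sS_pos p
  have p2 := m.cS_pos p
  have p3 := m.sS_pos (P.tau (P.tau p))
  have p4 := m.cS_pos (P.tau (P.tau p))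
  have hc : cosh (m.z p) = cosh (m.z (P.sg p)) := by
    have hpos : 0 < m.sS (P.tau (P.tau p)) * m.cS (P.tau (P.tau p)) * m.sS p * m.cS p := by
      positivity
    have : (cosh (m.z p) - cosh (m.z (P.sg p))) *
      (m.sS (P.tau (P.tau p)) * m.cS (P.tau (P.tau p)) * m.sS p * m.cS p) = 0 := by
      linear_combination (h1 - h2) / 2
    rcases mul_eq_zero.mp this with h | h
    · linarith
    · exact absurd h hpos.ne'
  have hab : |m.z p| = |m.z (P.sg p)| := by
    apply le_antisymm <;> rw [← Real.cosh_le_cosh, hc]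
  have hsum : 0 < m.z p + m.z (P.sg p) := by
    unfold z
    rw [P.rho_sg, P.iota_sg, m.x_sg]
    have := m.x_pos p
    have := m.x_pos (P.rho p)
    linarith
  rcases abs_eq_abs.mp hab with h | h
  · exact h
  · linarith

theorem X_rel (p : V) : m.X (P.rho p) - m.X (P.iota p) = (m.x (P.rho p) - m.x p) / 2 := by
  have h := m.z_eq p
  unfold z at h
  rw [P.rho_sg, P.iota_sg, m.x_sg] at h
  linarith

end HypMetric

end Run7.h568
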