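import Mathlib

/-!
# Combinatorial model for pairs of multicurves adapted to an orientation-reversing involution

`V` is the set of *directed crossings*: a crossing of `α ∪ β` together with a direction of `β`
there.  For `p : V`, left means the left-hand side of `β` when travelling in the direction of `p`
(on the oriented surface `S`).
-/

namespace Run7.h568

open Real Matrix

/-- The combinatorics of a closed oriented surface tiled by hexagons whose sides lie alternately on
a multicurve `α` and on a multicurve `β`, every component of `α` crossing `β` exactly twice.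
* `iota p` : the directed crossing at the other end of the `α`-edge on the left of `p`, directed so
  that this edge is again on its left;
* `rho p` : the same crossing with the opposite direction of `β`;
* `B p` : the next crossing along `β`, same direction.
`rho_iota` says that each component of `α` has exactly two crossings, `hex` and `hex_ne` say that
every complementary face is a hexagon. -/
structure HexPattern (V : Type*) where
  iota : V → V
  rho : V → V
  B : V → V
  iota_iota : ∀ p, iota (iota p) = p
  rho_rho : ∀ p, rho (rho p) = p
  rho_iota : ∀ p, rho (iota p) = iota (rho p)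
  B_rho_B : ∀ p, B (rho (B p)) = rho p
  hex : ∀ p, B (iota (B (iota (B (iota p))))) = p
  iota_ne : ∀ p, iota p ≠ p
  rho_ne : ∀ p, rho p ≠ p
  B_ne : ∀ p, B p ≠ rho p
  hex_ne : ∀ p, B (iota p) ≠ p

/-- `τ = B ∘ ι`, which permutes cyclically the three `α`-sides of each hexagon. -/
def HexPattern.tau {V : Type*} (P : HexPattern V) (p : V) : V := P.B (P.iota p)

/-- Frame transport: forward translation by `x`. -/
noncomputable def T (x : ℝ) : Matrix (Fin 2) (Fin 2) ℝ :=
  !![Real.exp (x / 2), 0; 0, Real.exp (-(x / 2))]

/-- Frame transport: left turn by the angle `φ`. -/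
noncomputable def R (φ : ℝ) : Matrix (Fin 2) (Fin 2) ℝ :=
  !![Real.cos (φ / 2), Real.sin (φ / 2); -Real.sin (φ / 2), Real.cos (φ / 2)]

/-- A hyperbolic metric on the surface, given by the lengths and angles of the geodesic
realisations of `α` and `β`: `x p` is the length of the `α`-edge on the left of `p`, `y p` the
length of the `β`-edge from `p` to `B p`, and `θ p ∈ (0, π)` the angle at `p` from the forward
direction of `β` to the `α`-edge on the left.  `closes` says that every face is a closed convex
hyperbolic hexagon. -/
structure HypMetric {V : Type*} (P : HexPattern V) where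
  x : V → ℝ
  y : V → ℝ
  θ : V → ℝ
  x_pos : ∀ p, 0 < x p
  y_pos : ∀ p, 0 < y p
  θ_pos : ∀ p, 0 < θ p
  θ_lt : ∀ p, θ p < π
  x_iota : ∀ p, x (P.iota p) = x p
  y_rho : ∀ p, y (P.rho (P.B p)) = y p
  θ_rho : ∀ p, θ (P.rho p) = θ p
  closes : ∀ p,
    T (x p) * (R (π - θ (P.iota p)) * T (y (P.iota p)) * R (θ (P.tau p))) *
      (T (x (P.tau p)) *
        (R (π - θ (P.iota (P.tau p))) * T (y (P.iota (P.tau p))) * R (θ (P.tau (P.tau p))))) *
      (T (x (P.tau (P.tau p))) *
        (R (π - θ (P.iota (P.tau (P.tau p)))) * T (y (P.iota (P.tau (P.tau p)))) * R (θ p)))
      = -1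

namespace HypMetric

variable {V : Type*} {P : HexPattern V}

/-- Transport from the frame at `p` pointing left along `α` to the one at `B p`, along `β`. -/
noncomputable def g (m : HypMetric P) (p : V) : Matrix (Fin 2) (Fin 2) ℝ :=
  R (-m.θ p) * T (m.y p) * R (m.θ (P.B p))

/-- Transport from the frame at `p` pointing forward along `β` to the one at `ι p`, along `α`. -/
noncomputable def G (m : HypMetric P) (p : V) : Matrix (Fin 2) (Fin 2) ℝ :=
  R (m.θ p) * T (m.x p) * R (π - m.θ (P.iota p))

end HypMetric

/-- `m'` is obtained from `m` by the left earthquake along the geodesic realisation of `α` with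
weights `a`.  `-κ p` is the displacement to the left, on the stratum ahead of `p`, of the crossing
`p` when the geodesic realisation of `β` for `m` is replaced by the one for `m'`. -/
def LeftQuake {V : Type*} (P : HexPattern V) (a : V → ℝ) (m m' : HypMetric P) : Prop :=
  ∃ κ : V → ℝ,
    (∀ p, T (κ p) * m.g p = m'.g p * T (-κ (P.rho (P.B p)))) ∧
    (∀ p, κ (P.iota p) - κ (P.rho p) = m'.x p - m.x p) ∧
    (∀ p, κ p + κ (P.rho p) = a p)

/-- `m'` is obtained from `m` by the right earthquake along the geodesic realisation of `β` with
weights `b`.  `-μ p` is the displacement forward, on the left side of `β` at `p`, of the crossing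
`p` when the geodesic realisation of `α` for `m` is replaced by the one for `m'`. -/
def RightQuake {V : Type*} (P : HexPattern V) (b : V → ℝ) (m m' : HypMetric P) : Prop :=
  ∃ μ : V → ℝ,
    (∀ p, T (μ p) * m.G p = m'.G p * T (μ (P.iota p))) ∧
    (∀ p, μ p - μ (P.B p) = m'.y p - m.y p) ∧
    (∀ p, μ p + μ (P.rho p) = b p)

/-- Mess's description of a GHMC AdS structure whose convex core has upper and lower bending
laminations `½ Σ a α` and `½ Σ b β`: its left and right metrics, related by the left earthquake
along `Σ a α` and by the right earthquake along `Σ b β`. -/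
structure Core {V : Type*} (P : HexPattern V) (a b : V → ℝ) where
  left : HypMetric P
  right : HypMetric P
  leftQuake : LeftQuake P a right left
  rightQuake : RightQuake P b right left

end Run7.h568
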