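import Pool.Agent.Run7.h568.Alpha2
import Pool.Agent.Run7.h568.Beta

/-!
# Non-vacuity: every pattern carries cores with constant positive weights; a pattern of genus two.
-/

namespace Run7.h568

open Real Matrix

theorem cube_eq_neg_one {p q r s : ℝ} (htr : p + s = 1) (hdet : p * s - q * r = 1) :
    !![p, q; r, s] * !![p, q; r, s] * !![p, q; r, s] = -1 := by
  have h2 : !![p, q; r, s] * !![p, q; r, s] = !![p - 1, q; r, s - 1] := by
    apply T_ext <;> simp [Matrix.mul_apply, Fin.sum_univ_two]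
    · linear_combination p * htr - hdet
    · linear_combination q * htr
    · linear_combination r * htr
    · linear_combination s * htr - hdet
  rw [h2]
  apply T_ext <;> simp [Matrix.mul_apply, Fin.sum_univ_two]
  · linear_combination p * htr - hdet
  · linear_combination q * htr
  · linear_combination r * htr
  · linear_combination s * htr - hdet

theorem closes_const {x y θ : ℝ} (h : 2 * sin θ * sinh (y / 2) * sinh (x / 2) = 1) :
    T x * (R (π - θ) * T y * R θ) * (T x * (R (π - θ) * T y * R θ)) *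
      (T x * (R (π - θ) * T y * R θ)) = -1 := by
  set e := exp (x / 2) with he
  set e' := exp (-(x / 2)) with he'
  set k := exp (y / 2) with hk
  set k' := exp (-(y / 2)) with hk'
  set s := sin (θ / 2) with hs
  set c := cos (θ / 2) with hc
  have M : T x * (R (π - θ) * T y * R θ) =
      !![e * (s * c * k - c * s * k'), e * (s * s * k + c * c * k');
         -(e' * (c * c * k + s * s * k')), e' * (s * c * k' - c * s * k)] := by
    rw [RTR_h]
    unfold T
    apply T_ext <;> simp [← he, ← he', ← hk, ← hk', ← hs, ← hc]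
    ring
  rw [M]
  have ee : e * e' = 1 := exp_half_mul x
  have kk : k * k' = 1 := exp_half_mul y
  have sc := Real.sin_sq_add_cos_sq (θ / 2)
  rw [← hs, ← hc] at sc
  apply cube_eq_neg_one
  · rw [sin_half, Real.sinh_eq, Real.sinh_eq, ← hs, ← hc, ← hk, ← hk', ← he, ← he'] at h
    linear_combination h
  · linear_combination (s ^ 2 + c ^ 2) ^ 2 * k * k' * ee + (s ^ 2 + c ^ 2) ^ 2 * kk +
      (s ^ 2 + c ^ 2 + 1) * sc

/-- the metric with constant lengths and angles -/
noncomputable def constMetric {V : Type*} (P : HexPattern V) (x y θ : ℝ) (hx : 0 < x)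
    (hy : 0 < y) (hθ : 0 < θ) (hθ' : θ < π) (h : 2 * sin θ * sinh (y / 2) * sinh (x / 2) = 1) :
    HypMetric P where
  x := fun _ => x
  y := fun _ => y
  θ := fun _ => θ
  x_pos := fun _ => hx
  y_pos := fun _ => hy
  θ_pos := fun _ => hθ
  θ_lt := fun _ => hθ'
  x_iota := fun _ => rfl
  y_rho := fun _ => rfl
  θ_rho := fun _ => rfl
  closes := fun _ => closes_const h

theorem one_lt_ratio {s c E E' : ℝ} (hs : 0 < s) (hsc : s < c) (hE : 1 < E) (hE'0 : 0 < E')
    (hE' : E' < 1) : 1 < (c ^ 2 * E + s ^ 2 * E') / (s ^ 2 * E + c ^ 2 * E') := by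
  rw [one_lt_div (by positivity)]
  have : 0 < (c ^ 2 - s ^ 2) * (E - E') := by
    apply mul_pos <;> nlinarith
  nlinarith

/-- Every pattern carries a core with constant positive weights `a` and `b`. -/
theorem exists_core {V : Type*} (P : HexPattern V) {x y θ : ℝ} (hx : 0 < x)
    (hy : 0 < y) (hθ : 0 < θ) (hθ' : θ < π / 2)
    (h : 2 * sin θ * sinh (y / 2) * sinh (x / 2) = 1) :
    ∃ a b : ℝ, 0 < a ∧ 0 < b ∧ Nonempty (Core P (fun _ => a) (fun _ => b)) := by
  have hπ := Real.pi_pos
  have hr : 2 * sin (π - θ) * sinh (y / 2) * sinh (x / 2) = 1 := by rw [Real.sin_pi_sub]; exact h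
  have hs : 0 < sin (θ / 2) := Real.sin_pos_of_pos_of_lt_pi (by linarith) (by linarith)
  have hsc : sin (θ / 2) < cos (θ / 2) := by
    rw [← Real.cos_pi_div_two_sub]
    apply Real.cos_lt_cos_of_nonneg_of_le_pi_div_two <;> linarith
  have e1 : cos ((π - θ) / 2) = sin (θ / 2) := by rw [sub_div, Real.cos_pi_div_two_sub]
  have e2 : sin ((π - θ) / 2) = cos (θ / 2) := by rw [sub_div, Real.sin_pi_div_two_sub]
  have lt1 : ∀ {t : ℝ}, 0 < t → exp (-(t / 2)) < 1 := fun {t} ht => by
    rw [Real.exp_lt_one_iff]; linarith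
  have rx := one_lt_ratio hs hsc (one_lt_exp_half hx) (exp_pos _) (lt1 hx)
  have ry := one_lt_ratio hs hsc (one_lt_exp_half hy) (exp_pos _) (lt1 hy)
  set κ := log ((cos (θ / 2) ^ 2 * exp (y / 2) + sin (θ / 2) ^ 2 * exp (-(y / 2))) /
    (sin (θ / 2) ^ 2 * exp (y / 2) + cos (θ / 2) ^ 2 * exp (-(y / 2)))) with hκ
  set μ := log ((cos (θ / 2) ^ 2 * exp (x / 2) + sin (θ / 2) ^ 2 * exp (-(x / 2))) /
    (sin (θ / 2) ^ 2 * exp (x / 2) + cos (θ / 2) ^ 2 * exp (-(x / 2)))) with hμ
  have κpos : 0 < κ := Real.log_pos ry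
  have μpos : 0 < μ := Real.log_pos rx
  have eκ : exp κ * (sin (θ / 2) ^ 2 * exp (y / 2) + cos (θ / 2) ^ 2 * exp (-(y / 2))) =
      cos (θ / 2) ^ 2 * exp (y / 2) + sin (θ / 2) ^ 2 * exp (-(y / 2)) := by
    rw [hκ, Real.exp_log (by linarith)]
    field_simp
  have eμ : exp μ * (sin (θ / 2) ^ 2 * exp (x / 2) + cos (θ / 2) ^ 2 * exp (-(x / 2))) =
      cos (θ / 2) ^ 2 * exp (x / 2) + sin (θ / 2) ^ 2 * exp (-(x / 2)) := by
    rw [hμ, Real.exp_log (by linarith)]
    field_simp
  have dκ : exp κ = exp (κ / 2) * exp (κ / 2) := by rw [← Real.exp_add]; ring_nf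
  have dμ : exp μ = exp (μ / 2) * exp (μ / 2) := by rw [← Real.exp_add]; ring_nf
  have iκ := exp_half_mul κ
  have iμ := exp_half_mul μ
  rw [dκ] at eκ
  rw [dμ] at eμ
  refine ⟨2 * κ, 2 * μ, by linarith, by linarith, ⟨?_⟩⟩
  refine ⟨constMetric P x y θ hx hy hθ (by linarith) h,
    constMetric P x y (π - θ) hx hy (by linarith) (by linarith) hr, ?_, ?_⟩
  · refine ⟨fun _ => κ, fun p => ?_, fun p => ?_, fun p => by ring⟩
    · unfold HypMetric.g constMetric
      simp only
      unfold T R
      have n1 : -(π - θ) / 2 = -((π - θ) / 2) := by ring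
      have n2 : -θ / 2 = -(θ / 2) := by ring
      have n3 : -κ / 2 = -(κ / 2) := by ring
      rw [n1, n2, n3, Real.cos_neg, Real.sin_neg, Real.cos_neg, Real.sin_neg, e1, e2]
      apply T_ext <;> simp [Matrix.mul_apply, Fin.sum_univ_two]
      · linear_combination exp (-(κ / 2)) * eκ - exp (κ / 2) * (sin (θ / 2) ^ 2 * exp (y / 2)
          + cos (θ / 2) ^ 2 * exp (-(y / 2))) * iκ
      · ring
      · ring
      · linear_combination -exp (-(κ / 2)) * eκ + exp (κ / 2) * (sin (θ / 2) ^ 2 * exp (y / 2)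
          + cos (θ / 2) ^ 2 * exp (-(y / 2))) * iκ
    · simp [constMetric]
  · refine ⟨fun _ => μ, fun p => ?_, fun p => ?_, fun p => by ring⟩
    · rw [HypMetric.G_eq, HypMetric.G_eq]
      unfold constMetric T
      simp only [e1, e2]
      apply T_ext <;> simp [Matrix.mul_apply, Fin.sum_univ_two]
      · ring
      · linear_combination exp (-(μ / 2)) * eμ - exp (μ / 2) * (sin (θ / 2) ^ 2 * exp (x / 2)
          + cos (θ / 2) ^ 2 * exp (-(x / 2))) * iμ
      · linear_combination exp (-(μ / 2)) * eμ - exp (μ / 2) * (sin (θ / 2) ^ 2 * exp (x / 2)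
          + cos (θ / 2) ^ 2 * exp (-(x / 2))) * iμ
      · ring
    · simp [constMetric]

/-- A pattern on the closed surface of genus two: `α` is a pants decomposition and `β` consists of
the seams of the two pairs of pants (6 crossings, 4 hexagons). -/
def genusTwo : HexPattern (Bool × Fin 3 × Bool) where
  iota := fun p => (!p.1, p.2.1, p.2.2)
  rho := fun p => (!p.1, p.2.1, !p.2.2)
  B := fun p => (!p.1, if p.2.2 then p.2.1 + 1 else p.2.1 - 1, p.2.2)
  iota_iota := by decide
  rho_rho := by decide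
  rho_iota := by decide
  B_rho_B := by decide
  hex := by decide
  iota_ne := by decide
  rho_ne := by decide
  B_ne := by decide
  hex_ne := by decide

end Run7.h568
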