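import Pool.Agent.Run7.h568.Main
import Pool.Agent.Run7.h568.Examples

namespace Run7.h568

open Real Matrix

theorem quakeL_symm {V : Type*} {P : HexPattern V} {a : V → ℝ} {m m' : HypMetric P}
    (h : LeftQuake P a m m') : LeftQuake P (fun p => -a p) m' m := by
  obtain ⟨κ, h1, h2, h3⟩ := h
  refine ⟨fun p => -κ p, fun p => ?_, fun p => ?_, fun p => ?_⟩
  · have e : m'.g p = T (κ p) * m.g p * T (κ (P.rho (P.B p))) := by
      rw [h1, Matrix.mul_assoc, T_mul, neg_add_cancel, T_zero, Matrix.mul_one]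
    rw [e, neg_neg, ← Matrix.mul_assoc, ← Matrix.mul_assoc, T_mul, neg_add_cancel, T_zero,
      Matrix.one_mul]
  · have := h2 p
    linarith
  · have := h3 p
    linarith

theorem quakeR_symm {V : Type*} {P : HexPattern V} {b : V → ℝ} {m m' : HypMetric P}
    (h : RightQuake P b m m') : RightQuake P (fun p => -b p) m' m := by
  obtain ⟨κ, h1, h2, h3⟩ := h
  refine ⟨fun p => -κ p, fun p => ?_, fun p => ?_, fun p => ?_⟩
  · have e : m'.G p = T (κ p) * m.G p * T (-κ (P.iota p)) := by
      rw [h1, Matrix.mul_assoc, T_mul, add_neg_cancel, T_zero, Matrix.mul_one]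
    rw [e, ← Matrix.mul_assoc, ← Matrix.mul_assoc, T_mul, neg_add_cancel, T_zero, Matrix.one_mul]
  · have := h2 p
    linarith
  · have := h3 p
    linarith

theorem qdata_of_core {V : Type*} {P : HexPattern V} {a b : V → ℝ} (C : Core P a b) :
    ∃ D : QData P a b, D.ml = C.left ∧ D.mr = C.right := by
  obtain ⟨κ, k1, k2, k3⟩ := C.leftQuake
  obtain ⟨μ, m1, m2, m3⟩ := C.rightQuake
  exact ⟨⟨C.left, C.right, κ, μ, k1, k2, k3, m1, m2, m3⟩, rfl, rfl⟩

/-- exchanging the two metrics exchanges the future and the past -/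
def Core.swap {V : Type*} {P : HexPattern V} {a b : V → ℝ} (C : Core P a b) :
    Core P (fun p => -a p) (fun p => -b p) where
  left := C.right
  right := C.left
  leftQuake := quakeL_symm C.leftQuake
  rightQuake := quakeR_symm C.rightQuake

theorem core_unique_nonneg {V : Type*} [Fintype V] {P : HexPattern V} {a b : V → ℝ}
    (hb : ∀ p, 0 ≤ b p) (hfill : ∀ p, b p ≠ 0 ∨ b (P.iota p) ≠ 0) (C C' : Core P a b) :
    C.left = C'.left ∧ C.right = C'.right := by
  obtain ⟨D, h1, h2⟩ := qdata_of_core C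
  obtain ⟨D', h1', h2'⟩ := qdata_of_core C'
  have := QData.unique D D' hb (fun p => by
    rcases hfill p with h | h
    · exact Or.inl (lt_of_le_of_ne (hb _) (Ne.symm h))
    · exact Or.inr (lt_of_le_of_ne (hb _) (Ne.symm h)))
  rw [h1, h2, h1', h2'] at this
  exact this

theorem core_unique {V : Type*} [Fintype V] {P : HexPattern V} {a b : V → ℝ}
    (hb : (∀ p, 0 ≤ b p) ∨ (∀ p, b p ≤ 0)) (hfill : ∀ p, b p ≠ 0 ∨ b (P.iota p) ≠ 0)
    (C C' : Core P a b) : C.left = C'.left ∧ C.right = C'.right := by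
  rcases hb with hb | hb
  · exact core_unique_nonneg hb hfill C C'
  · have := core_unique_nonneg (fun p => neg_nonneg.mpr (hb p)) (fun p => by
      simpa using hfill p) C.swap C'.swap
    exact ⟨this.2, this.1⟩

end Run7.h568
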