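import Mathlib

namespace Run7.h568

/-- `Δ` of a right-angled hexagon with `d i = cosh D i`. -/
def pDelta (d1 d2 d3 : ℝ) : ℝ := d1 ^ 2 + d2 ^ 2 + d3 ^ 2 + 2 * d1 * d2 * d3 - 1

/-- `N₁` as a polynomial in the three `tanh β` and the three `cosh D`. -/
def pN (B1 B2 B3 d1 d2 d3 : ℝ) : ℝ :=
  B2 * (d3 + d1 * d2) + B3 * (d2 + d1 * d3) - B1 * (d1 ^ 2 - 1)

def pE (_B1 B2 B3 d1 _d2 _d3 : ℝ) : ℝ := d1 ^ 2 + 2 * B2 * B3 * d1 + B2 ^ 2 + B3 ^ 2 - 1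

def pF (B1 B2 B3 d1 d2 d3 : ℝ) : ℝ :=
  d1 + d2 * d3 + B2 * B3 + B1 * B2 * d2 + B1 * B3 * d3 - B1 ^ 2 * d1

def pOm (B1 B2 B3 d1 d2 d3 : ℝ) : ℝ :=
  pDelta d1 d2 d3 - (B1 ^ 2 * (d1 ^ 2 - 1) + B2 ^ 2 * (d2 ^ 2 - 1) + B3 ^ 2 * (d3 ^ 2 - 1))
    + 2 * (B1 * B2 * (d3 + d1 * d2) + B2 * B3 * (d1 + d2 * d3) + B3 * B1 * (d2 + d3 * d1))

theorem I1 (B1 B2 B3 d1 d2 d3 : ℝ) :
    pE B1 B2 B3 d1 d2 d3 * pDelta d1 d2 d3 - pN B1 B2 B3 d1 d2 d3 ^ 2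
      = (d1 ^ 2 - 1) * pOm B1 B2 B3 d1 d2 d3 := by
  unfold pE pDelta pN pOm pDelta; ring

theorem I2 (B1 B2 B3 d1 d2 d3 : ℝ) :
    pF B1 B2 B3 d1 d2 d3 * pN B2 B3 B1 d2 d3 d1 + pE B2 B3 B1 d2 d3 d1 * pN B3 B1 B2 d3 d1 d2
      = pOm B1 B2 B3 d1 d2 d3 * (B1 * d2 + B3) := by
  unfold pE pF pN pOm pDelta; ring

theorem I2' (B1 B2 B3 d1 d2 d3 : ℝ) :
    pF B1 B2 B3 d1 d2 d3 * pN B3 B1 B2 d3 d1 d2 + pE B3 B1 B2 d3 d1 d2 * pN B2 B3 B1 d2 d3 d1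
      = pOm B1 B2 B3 d1 d2 d3 * (B1 * d3 + B2) := by
  unfold pE pF pN pOm pDelta; ring

theorem I3 (B1 B2 B3 d1 d2 d3 : ℝ) :
    (B2 * d1 + B3) * pDelta d1 d2 d3 - pN B1 B2 B3 d1 d2 d3 * (d2 + d1 * d3)
      = (d1 ^ 2 - 1) * pN B3 B1 B2 d3 d1 d2 := by
  unfold pDelta pN; ring

theorem I3' (B1 B2 B3 d1 d2 d3 : ℝ) :
    (B3 * d1 + B2) * pDelta d1 d2 d3 - pN B1 B2 B3 d1 d2 d3 * (d3 + d1 * d2)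
      = (d1 ^ 2 - 1) * pN B2 B3 B1 d2 d3 d1 := by
  unfold pDelta pN; ring

theorem I5 (B1 B2 B3 d1 d2 d3 : ℝ) :
    pF B1 B2 B3 d1 d2 d3 ^ 2 - pE B2 B3 B1 d2 d3 d1 * pE B3 B1 B2 d3 d1 d2
      = (1 - B1 ^ 2) * pOm B1 B2 B3 d1 d2 d3 := by
  unfold pE pF pOm pDelta; ring

theorem I4 (B1 B2 B3 d1 d2 d3 : ℝ) :
    pOm B1 B2 B3 d1 d2 d3 * ((B2 * d2 + B3 * d3 - 2 * B1 * d1) *
        (pE B1 B2 B3 d1 d2 d3 * pDelta d1 d2 d3) -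
        pN B1 B2 B3 d1 d2 d3 * ((d1 + B2 * B3) * pDelta d1 d2 d3
          + pE B1 B2 B3 d1 d2 d3 * (d1 + d2 * d3)))
      = -(pF B2 B3 B1 d2 d3 d1 * pF B3 B1 B2 d3 d1 d2 * pN B1 B2 B3 d1 d2 d3 * pDelta d1 d2 d3
          + pE B1 B2 B3 d1 d2 d3 * (pF B2 B3 B1 d2 d3 d1 * pN B2 B3 B1 d2 d3 d1
            + pF B3 B1 B2 d3 d1 d2 * pN B3 B1 B2 d3 d1 d2) * pDelta d1 d2 d3
          + pE B1 B2 B3 d1 d2 d3 * (pN B1 B2 B3 d1 d2 d3 * pN B2 B3 B1 d2 d3 d1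
            * pN B3 B1 B2 d3 d1 d2)) := by
  unfold pE pF pN pOm pDelta; ring

end Run7.h568
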