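import Pool.Agent.Run7.h568.Sym3

namespace Run7.h568

open Real Matrix Finset

theorem HypMetric.ext' {V : Type*} {P : HexPattern V} {m m' : HypMetric P}
    (hx : m.x = m'.x) (hy : m.y = m'.y) (hθ : m.θ = m'.θ) : m = m' := by
  cases m; cases m'
  simp only at hx hy hθ
  subst hx; subst hy; subst hθ
  rfl

namespace QData

theorem one_sub_tanh_sq (x : ℝ) : 1 - tanh x ^ 2 = 1 / cosh x ^ 2 := by
  rw [Real.tanh_eq_sinh_div_cosh]
  have h := Real.cosh_sq x
  have h0 := Real.cosh_pos x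
  field_simp
  linarith

theorem tanh_nn {x : ℝ} (h : 0 ≤ x) : 0 ≤ tanh x := by
  rw [Real.tanh_eq_sinh_div_cosh]
  exact div_nonneg (Real.sinh_nonneg_iff.mpr h) (Real.cosh_pos x).le

theorem tanh_ps {x : ℝ} (h : 0 < x) : 0 < tanh x := by
  rw [Real.tanh_eq_sinh_div_cosh]
  exact div_pos (Real.sinh_pos_iff.mpr h) (Real.cosh_pos x)

variable {V : Type*} [Fintype V] {P : HexPattern V} {a b : V → ℝ}

theorem X_sum (D : QData P a b) (hb : ∀ p, 0 ≤ b p) (hfill : ∀ p, 0 < b p ∨ 0 < b (P.iota p))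
    (p : V) : D.ml.X p + D.ml.X (P.rho p) = a p / 2 := by
  have h1 := D.X_eq p
  have h2 := D.X_eq (P.rho p)
  rw [D.Xr hb hfill] at h1 h2
  have h3 := D.κ3 p
  linarith

/-- the product of the differences of twist coordinate and length -/
noncomputable def ff (D D' : QData P a b) (s : V) : ℝ :=
  (D'.ml.x s - D.ml.x s) * (D'.ml.X (P.rho s) - D.ml.X (P.rho s))

theorem sum_ff (D D' : QData P a b) (hb : ∀ p, 0 ≤ b p)
    (hfill : ∀ p, 0 < b p ∨ 0 < b (P.iota p)) : ∑ s, ff D D' s = 0 := by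
  have h1 : ∑ s, ff D D' s = ∑ s, ff D D' (P.rho s) := (P.rho_bij.sum_comp (ff D D')).symm
  have h2 : ∑ s, ff D D' s + ∑ s, ff D D' (P.rho s) = 0 := by
    rw [← Finset.sum_add_distrib]
    apply Finset.sum_eq_zero
    intro s _
    unfold ff
    rw [P.rho_rho, D.x_rho hb hfill, D'.x_rho hb hfill]
    have e1 := D.X_sum hb hfill s
    have e2 := D'.X_sum hb hfill s
    have : (D'.ml.x s - D.ml.x s) * (D'.ml.X (P.rho s) - D.ml.X (P.rho s)) +
      (D'.ml.x s - D.ml.x s) * (D'.ml.X s - D.ml.X s) = (D'.ml.x s - D.ml.x s) *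
        ((D'.ml.X s + D'.ml.X (P.rho s)) - (D.ml.X s + D.ml.X (P.rho s))) := by ring
    rw [this, e1, e2]
    ring
  linarith

theorem dD_block (D : QData P a b) (hb : ∀ p, 0 ≤ b p)
    (hfill : ∀ p, 0 < b p ∨ 0 < b (P.iota p)) (p : V) :
    D.dD p = 1 / (cosh (b p / 4) * cosh (b (P.tau p) / 4)) * cosh (D.ml.x p)
      - tanh (b p / 4) * tanh (b (P.tau p) / 4) := by
  rw [D.dD_eq hb hfill, D.b_tau]

theorem ff_block (D D' : QData P a b) (hb : ∀ p, 0 ≤ b p)
    (hfill : ∀ p, 0 < b p ∨ 0 < b (P.iota p)) (p : V)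
    (hne : D'.ml.x (P.tau p) ≠ D.ml.x (P.tau p) ∨
      D'.ml.x (P.tau (P.tau p)) ≠ D.ml.x (P.tau (P.tau p)) ∨ D'.ml.x p ≠ D.ml.x p) :
    ff D D' (P.tau p) + ff D D' (P.tau (P.tau p)) + ff D D' p < 0 := by
  have c0 := Real.cosh_pos (b p / 4)
  have c1 := Real.cosh_pos (b (P.tau p) / 4)
  have c2 := Real.cosh_pos (b (P.tau (P.tau p)) / 4)
  have t0 : 0 ≤ tanh (b p / 4) := tanh_nn (by linarith [hb p])
  have t1 : 0 ≤ tanh (b (P.tau p) / 4) := tanh_nn (by linarith [hb (P.tau p)])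
  have t2 : 0 ≤ tanh (b (P.tau (P.tau p)) / 4) :=
    tanh_nn (by linarith [hb (P.tau (P.tau p))])
  have hpos : ∀ q, 0 < b q → 0 < tanh (b q / 4) := fun q hq =>
    tanh_ps (by linarith)
  have hb1 := D.b_tau p
  have hb2 := D.b_tau (P.tau p)
  have hb3 := D.b_tau (P.tau (P.tau p))
  rw [P.tau3] at hb3
  have s01 : 0 < tanh (b p / 4) + tanh (b (P.tau p) / 4) := by
    rcases hfill p with h | h
    · linarith [hpos _ h]
    · rw [← hb1] at h; linarith [hpos _ h]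
  have s12 : 0 < tanh (b (P.tau p) / 4) + tanh (b (P.tau (P.tau p)) / 4) := by
    rcases hfill (P.tau p) with h | h
    · linarith [hpos _ h]
    · rw [← hb2] at h; linarith [hpos _ h]
  have s02 : 0 < tanh (b p / 4) + tanh (b (P.tau (P.tau p)) / 4) := by
    rcases hfill (P.tau (P.tau p)) with h | h
    · linarith [hpos _ h]
    · rw [← hb3] at h; linarith [hpos _ h]
  have d0 := D.dD_block hb hfill p
  have d1 := D.dD_block hb hfill (P.tau p)
  have d2 := D.dD_block hb hfill (P.tau (P.tau p))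
  rw [P.tau3] at d2
  have d0' := D'.dD_block hb hfill p
  have d1' := D'.dD_block hb hfill (P.tau p)
  have d2' := D'.dD_block hb hfill (P.tau (P.tau p))
  rw [P.tau3] at d2'
  have k1 := D.X_kap hb hfill p
  have k2 := D.X_kap hb hfill (P.tau p)
  have k3 := D.X_kap hb hfill (P.tau (P.tau p))
  rw [P.tau3] at k2 k3
  have k1' := D'.X_kap hb hfill p
  have k2' := D'.X_kap hb hfill (P.tau p)
  have k3' := D'.X_kap hb hfill (P.tau (P.tau p))
  rw [P.tau3] at k2' k3'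
  have o0 := D.one_lt_dD hb hfill p
  have o1 := D.one_lt_dD hb hfill (P.tau p)
  have o2 := D.one_lt_dD hb hfill (P.tau (P.tau p))
  have o0' := D'.one_lt_dD hb hfill p
  have o1' := D'.one_lt_dD hb hfill (P.tau p)
  have o2' := D'.one_lt_dD hb hfill (P.tau (P.tau p))
  rw [d0] at o0 k1 k2 k3
  rw [d1] at o1 k1 k2 k3
  rw [d2] at o2 k1 k2 k3
  rw [d0'] at o0' k1' k2' k3'
  rw [d1'] at o1' k1' k2' k3'
  rw [d2'] at o2' k1' k2' k3'
  have hdiv : ∀ x y : ℝ, x / y = 1 / y * x := fun x y => by ring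
  rw [hdiv (sinh _)] at k1 k2 k3 k1' k2' k3'
  unfold ff
  rw [k1, k2, k1', k2', k3, k3']
  exact block_mono t0 t1 t2 (Real.tanh_lt_one _) (Real.tanh_lt_one _) (Real.tanh_lt_one _)
    s01 s12 s02 (by positivity) (by positivity) (by positivity)
    (by rw [one_sub_tanh_sq, one_sub_tanh_sq]; ring)
    (by rw [one_sub_tanh_sq, one_sub_tanh_sq]; ring)
    (by rw [one_sub_tanh_sq, one_sub_tanh_sq]; ring)
    (D.ml.x_pos _) (D.ml.x_pos _) (D.ml.x_pos _) (D'.ml.x_pos _) (D'.ml.x_pos _) (D'.ml.x_pos _)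
    o1 o2 o0 o1' o2' o0' hne

theorem ff_block_le (D D' : QData P a b) (hb : ∀ p, 0 ≤ b p)
    (hfill : ∀ p, 0 < b p ∨ 0 < b (P.iota p)) (p : V) :
    ff D D' (P.tau p) + ff D D' (P.tau (P.tau p)) + ff D D' p ≤ 0 := by
  by_cases hne : D'.ml.x (P.tau p) ≠ D.ml.x (P.tau p) ∨
      D'.ml.x (P.tau (P.tau p)) ≠ D.ml.x (P.tau (P.tau p)) ∨ D'.ml.x p ≠ D.ml.x p
  · exact (ff_block D D' hb hfill p hne).le
  · rw [not_or, not_or, not_not, not_not, not_not] at hne
    unfold ff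
    rw [hne.1, hne.2.1, hne.2.2]
    simp

theorem x_unique (D D' : QData P a b) (hb : ∀ p, 0 ≤ b p)
    (hfill : ∀ p, 0 < b p ∨ 0 < b (P.iota p)) (p : V) : D'.ml.x p = D.ml.x p := by
  by_contra hne
  have h1 : ∑ p, (ff D D' (P.tau p) + ff D D' (P.tau (P.tau p)) + ff D D' p) = 0 := by
    rw [Finset.sum_add_distrib, Finset.sum_add_distrib,
      P.tau_bij.sum_comp (fun q => ff D D' (P.tau q)), P.tau_bij.sum_comp (ff D D'),
      sum_ff D D' hb hfill]
    simp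
  have h2 : ∑ p, (ff D D' (P.tau p) + ff D D' (P.tau (P.tau p)) + ff D D' p) < 0 :=
    Finset.sum_neg' (fun q _ => ff_block_le D D' hb hfill q)
      ⟨p, Finset.mem_univ p, ff_block D D' hb hfill p (Or.inr (Or.inr hne))⟩
  linarith

theorem unique (D D' : QData P a b) (hb : ∀ p, 0 ≤ b p)
    (hfill : ∀ p, 0 < b p ∨ 0 < b (P.iota p)) : D.ml = D'.ml ∧ D.mr = D'.mr := by
  have hx : D.ml.x = D'.ml.x := funext fun p => (x_unique D D' hb hfill p).symm
  have hd : ∀ p, D.dD p = D'.dD p := fun p => by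
    rw [D.dD_eq hb hfill, D'.dD_eq hb hfill, hx]
  have hθ : D.ml.θ = D'.ml.θ := by
    funext p
    apply Real.injOn_cos
    · exact ⟨(D.ml.θ_pos p).le, (D.ml.θ_lt p).le⟩
    · exact ⟨(D'.ml.θ_pos p).le, (D'.ml.θ_lt p).le⟩
    · have h1 := (D.lawG hb hfill p).2.1
      have h2 := (D'.lawG hb hfill p).2.1
      rw [← hd, ← h1, ← hx] at h2
      have := Real.sinh_pos_iff.mpr (D.ml.x_pos p)
      exact (mul_left_cancel₀ this.ne' h2).symm
  have hy : D.ml.y = D'.ml.y := by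
    funext q
    have h1 := D.sinh_y hb hfill (P.iota q)
    have h2 := D'.sinh_y hb hfill (P.iota q)
    rw [P.iota_iota] at h1 h2
    rw [← hd, ← hd, ← hd, ← h1] at h2
    have g1 := D.one_lt_dD hb hfill (P.iota q)
    have g2 := D.one_lt_dD hb hfill (P.tau (P.iota q))
    have p1 : 0 < √(D.dD (P.iota q) ^ 2 - 1) := Real.sqrt_pos.mpr (by nlinarith)
    have p2 : 0 < √(D.dD (P.tau (P.iota q)) ^ 2 - 1) := Real.sqrt_pos.mpr (by nlinarith)
    exact Real.sinh_injective (mul_right_cancel₀ (mul_pos p1 p2).ne' h2).symm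
  have hml : D.ml = D'.ml := HypMetric.ext' hx hy hθ
  refine ⟨hml, HypMetric.ext' ?_ ?_ ?_⟩
  · funext p; rw [D.x_eq hb hfill, D'.x_eq hb hfill, hx]
  · funext p; rw [D.y_eq hb hfill, D'.y_eq hb hfill, hy]
  · funext p; rw [D.θ_eq hb hfill, D'.θ_eq hb hfill, hθ]

end QData

end Run7.h568
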