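import Pool.Agent.Run7.h568.Ids

namespace Run7.h568

open Real

theorem sinh_sum_ge {a b c : ℝ} (hab : 0 ≤ a + b) (hbc : 0 ≤ b + c) (hac : 0 ≤ a + c) :
    sinh a + sinh b + sinh c ≤ sinh (a + b + c) := by
  set p := (a + b) / 2 with hp
  set q := (b + c) / 2 with hq
  set r := (a + c) / 2 with hr
  have ha : a = p + r - q := by rw [hp, hq, hr]; ring
  have hb : b = p + q - r := by rw [hp, hq, hr]; ring
  have hc : c = q + r - p := by rw [hp, hq, hr]; ring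
  have hs : a + b + c = p + q + r := by rw [hp, hq, hr]; ring
  have key : sinh (p + q + r) - sinh (p + r - q) - sinh (p + q - r) - sinh (q + r - p)
      = 4 * (sinh p * sinh q * sinh r) := by
    rw [Real.sinh_sub, Real.sinh_sub, Real.sinh_sub, Real.sinh_add, Real.sinh_add, Real.cosh_add,
      Real.sinh_add, Real.cosh_add, Real.sinh_add, Real.cosh_add]
    ring
  have h0 : 0 ≤ sinh p * sinh q * sinh r := by
    apply mul_nonneg (mul_nonneg _ _)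
    all_goals rw [Real.sinh_nonneg_iff]
    all_goals linarith
  rw [hs]
  conv_lhs => rw [ha, hb, hc]
  linarith

theorem quad_B {s1 s2 s3 c1 c2 c3 : ℝ} (w1 w2 w3 : ℝ)
    (hc1 : 0 < c1) (hc2 : 0 < c2) (hc3 : 0 < c3)
    (h1 : c1 ^ 2 = 1 + s1 ^ 2) (h2 : c2 ^ 2 = 1 + s2 ^ 2) (h3 : c3 ^ 2 = 1 + s3 ^ 2)
    (h12 : 0 < s1 + s2) (h23 : 0 < s2 + s3) (h13 : 0 < s1 + s3) :
    2 * (s1 * (w2 * w3) + s2 * (w1 * w3) + s3 * (w1 * w2)) ≤
      (s1 * c2 * c3 + c1 * s2 * c3 + c1 * c2 * s3 + s1 * s2 * s3) * (w1 ^ 2 + w2 ^ 2 + w3 ^ 2) := by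
  have hk : ∀ {s c : ℝ}, 0 < c → c ^ 2 = 1 + s ^ 2 → cosh (arsinh s) = c := by
    intro s c hc h
    rw [Real.cosh_arsinh, ← h, Real.sqrt_sq hc.le]
  have hpair : ∀ {s t : ℝ}, 0 < s + t → 0 ≤ arsinh s + arsinh t := by
    intro s t h
    have : arsinh (-t) ≤ arsinh s := Real.arsinh_le_arsinh.mpr (by linarith)
    rw [Real.arsinh_neg] at this
    linarith
  have hS := sinh_sum_ge (hpair h12) (hpair h23) (hpair h13)
  rw [Real.sinh_add, Real.sinh_add, Real.cosh_add, Real.sinh_arsinh, Real.sinh_arsinh,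
    Real.sinh_arsinh, hk hc1 h1, hk hc2 h2, hk hc3 h3] at hS
  have hSw : (s1 + s2 + s3) * (w1 ^ 2 + w2 ^ 2 + w3 ^ 2) ≤
      (s1 * c2 * c3 + c1 * s2 * c3 + c1 * c2 * s3 + s1 * s2 * s3) * (w1 ^ 2 + w2 ^ 2 + w3 ^ 2) := by
    apply mul_le_mul_of_nonneg_right _ (by positivity)
    nlinarith [hS]
  refine le_trans ?_ hSw
  rcases lt_or_ge s1 0 with n1 | n1
  · nlinarith [mul_nonneg (neg_nonneg.mpr n1.le) (sq_nonneg (w1 - w2 - w3)),
      mul_nonneg (show 0 ≤ s2 + s1 by linarith) (add_nonneg (sq_nonneg (w1 - w3)) (sq_nonneg w2)),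
      mul_nonneg (show 0 ≤ s3 + s1 by linarith) (add_nonneg (sq_nonneg (w1 - w2)) (sq_nonneg w3))]
  rcases lt_or_ge s2 0 with n2 | n2
  · nlinarith [mul_nonneg (neg_nonneg.mpr n2.le) (sq_nonneg (w2 - w1 - w3)),
      mul_nonneg (show 0 ≤ s1 + s2 by linarith) (add_nonneg (sq_nonneg (w2 - w3)) (sq_nonneg w1)),
      mul_nonneg (show 0 ≤ s3 + s2 by linarith) (add_nonneg (sq_nonneg (w2 - w1)) (sq_nonneg w3))]
  rcases lt_or_ge s3 0 with n3 | n3
  · nlinarith [mul_nonneg (neg_nonneg.mpr n3.le) (sq_nonneg (w3 - w1 - w2)),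
      mul_nonneg (show 0 ≤ s1 + s3 by linarith) (add_nonneg (sq_nonneg (w3 - w2)) (sq_nonneg w1)),
      mul_nonneg (show 0 ≤ s2 + s3 by linarith) (add_nonneg (sq_nonneg (w3 - w1)) (sq_nonneg w2))]
  nlinarith [mul_nonneg n1 (add_nonneg (sq_nonneg (w2 - w3)) (sq_nonneg w1)),
      mul_nonneg n2 (add_nonneg (sq_nonneg (w1 - w3)) (sq_nonneg w2)),
      mul_nonneg n3 (add_nonneg (sq_nonneg (w1 - w2)) (sq_nonneg w3))]

end Run7.h568
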