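import Pool.Agent.Run7.h568.Virial

namespace Run7.h568

open Real Matrix

namespace QData

variable {V : Type*} [Fintype V] {P : HexPattern V} {a b : V → ℝ} (D : QData P a b)
  (hb : ∀ p, 0 ≤ b p) (hfill : ∀ p, 0 < b p ∨ 0 < b (P.iota p))

include hb hfill

theorem Xr (q : V) : D.mr.X q = -(D.ml.X q) := by
  have := D.Xs_zero hb hfill q
  unfold Xs at this
  linarith

theorem y_eq (q : V) : D.mr.y q = D.ml.y q := by
  apply Real.sinh_injective
  rw [D.mr.sinh_y, D.ml.sinh_y, D.Xr hb hfill, D.Xr hb hfill, cf_neg, D.C_eq]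

theorem θ_eq (q : V) : D.mr.θ q = π - D.ml.θ q := by
  apply Real.injOn_cos
  · exact ⟨(D.mr.θ_pos q).le, (D.mr.θ_lt q).le⟩
  · constructor <;> linarith [D.ml.θ_pos q, D.ml.θ_lt q]
  · rw [Real.cos_pi_sub, D.mr.cos_θ, D.ml.cos_θ, D.Xr hb hfill, D.Xr hb hfill, cf_neg, cfu_neg,
      D.C_eq]
    ring

theorem x_eq (p : V) : D.mr.x p = D.ml.x (P.rho p) := by
  have h1 := D.mr.X_rel p
  have h2 := D.ml.X_rel p
  rw [D.Xr hb hfill, D.Xr hb hfill] at h1
  have h3 := D.len p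
  linarith

theorem mrG (p : V) :
    D.mr.G p 0 0 = -(D.ml.G (P.rho p) 1 1) ∧ D.mr.G p 0 1 = -(D.ml.G (P.rho p) 1 0) ∧
    D.mr.G p 1 0 = -(D.ml.G (P.rho p) 0 1) ∧ D.mr.G p 1 1 = -(D.ml.G (P.rho p) 0 0) := by
  rw [D.mr.G_eq p, D.ml.G_eq (P.rho p), D.ml.θ_rho, D.ml.θ_iota_rho, D.θ_eq hb hfill,
    D.θ_eq hb hfill, D.x_eq hb hfill]
  have e1 : ∀ t : ℝ, cos ((π - t) / 2) = sin (t / 2) := fun t => by
    rw [sub_div, Real.cos_pi_div_two_sub]
  have e2 : ∀ t : ℝ, sin ((π - t) / 2) = cos (t / 2) := fun t => by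
    rw [sub_div, Real.sin_pi_div_two_sub]
  rw [e1, e1, e2, e2]
  simp only [Matrix.of_apply, Matrix.cons_val', Matrix.cons_val_zero, Matrix.cons_val_one]
  refine ⟨by ring, by ring, trivial, by ring⟩

omit [Fintype V] hb hfill in
theorem G10_neg (m : HypMetric P) (p : V) : m.G p 1 0 < 0 := by
  rw [m.G_eq]
  have := m.cos_pos (P.iota p)
  have := m.sin_pos (P.iota p)
  have := m.cos_pos p
  have := m.sin_pos p
  simp only [Matrix.of_apply, Matrix.cons_val', Matrix.cons_val_zero, Matrix.cons_val_one]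
  rw [neg_lt_zero]
  positivity

omit [Fintype V] hb hfill in
theorem G01_pos (m : HypMetric P) (p : V) : 0 < m.G p 0 1 := by
  rw [m.G_eq]
  have := m.cos_pos (P.iota p)
  have := m.sin_pos (P.iota p)
  have := m.cos_pos p
  have := m.sin_pos p
  simp only [Matrix.of_apply, Matrix.cons_val', Matrix.cons_val_zero, Matrix.cons_val_one]
  positivity

theorem μ_sum (p : V) : D.μ p + D.μ (P.iota p) = (b p + b (P.iota p)) / 2 := by
  obtain ⟨_, _, a3, _⟩ := rq_G D.μ1 p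
  obtain ⟨_, b2, _, _⟩ := rq_G D.μ1 (P.rho p)
  rw [(D.mrG hb hfill p).2.2.1] at a3
  rw [(D.mrG hb hfill (P.rho p)).2.1, P.rho_rho] at b2
  rw [b2] at a3
  have hne := (G10_neg D.ml p).ne
  have h1 : exp (-((D.μ p + D.μ (P.iota p)) / 2)) *
      exp ((D.μ (P.rho p) + D.μ (P.iota (P.rho p))) / 2) = 1 := by
    have : (exp (-((D.μ p + D.μ (P.iota p)) / 2)) *
      exp ((D.μ (P.rho p) + D.μ (P.iota (P.rho p))) / 2) - 1) * D.ml.G p 1 0 = 0 := by
      linear_combination -a3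
    have := (mul_eq_zero.mp this).resolve_right hne
    linarith
  rw [← Real.exp_add, Real.exp_eq_one_iff] at h1
  have h2 := D.μ3 p
  have h3 := D.μ3 (P.iota p)
  rw [P.rho_iota] at h3
  linarith

theorem μ_B (p : V) : D.μ (P.B p) = D.μ p := by
  have := D.μ2 p
  rw [D.y_eq hb hfill] at this
  linarith

theorem μ_eq (p : V) : D.μ p = b p / 2 := by
  have h : ∀ p, D.μ (P.tau p) - b (P.tau p) / 2 = -(D.μ p - b p / 2) := by
    intro p
    have h1 := D.μ_sum hb hfill p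
    have h2 := D.μ_B hb hfill (P.iota p)
    have h3 := D.b_B (P.iota p)
    change D.μ (P.B (P.iota p)) - b (P.B (P.iota p)) / 2 = _
    rw [h2, h3]
    linarith
  have h1 := h p
  have h2 := h (P.tau p)
  have h3 := h (P.tau (P.tau p))
  rw [P.tau3] at h3
  linarith

/-- relations between `G p` and `G (ρ p)` for the left metric -/
theorem Grel (p : V) :
    D.ml.G p 0 0 = -(exp ((b p - b (P.iota p)) / 4) * D.ml.G (P.rho p) 1 1) ∧
    D.ml.G p 0 1 = -(exp ((b p + b (P.iota p)) / 4) * D.ml.G (P.rho p) 1 0) := by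
  obtain ⟨a1, a2, _, _⟩ := rq_G D.μ1 p
  rw [(D.mrG hb hfill p).1, D.μ_eq hb hfill, D.μ_eq hb hfill] at a1
  rw [(D.mrG hb hfill p).2.1, D.μ_eq hb hfill, D.μ_eq hb hfill] at a2
  constructor
  · rw [a1]
    have : (b p / 2 - b (P.iota p) / 2) / 2 = (b p - b (P.iota p)) / 4 := by ring
    rw [this]; ring
  · rw [a2]
    have : (b p / 2 + b (P.iota p) / 2) / 2 = (b p + b (P.iota p)) / 4 := by ring
    rw [this]; ring

omit [Fintype V] hb hfill in
theorem exp_lt_aux {cp sp cq sq m E E' F F' : ℝ} (hcp : 0 < cp) (hsp : 0 < sp) (hcq : 0 < cq)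
    (hsq : 0 < sq) (hm : 0 < m)
    (h1 : cp * sq * E - sp * cq * E' = -(m * (cp * sq * F' - sp * cq * F)))
    (h2 : cp * sq * F - sp * cq * F' = -(m * (cp * sq * E' - sp * cq * E)))
    (hEF : F < E) (hEF' : E' < F') : False := by
  have h3 : (cp * sq) * (E - F) + sp * cq * (F' - E') =
      -(m * (cp * sq * (F' - E') + sp * cq * (E - F))) := by
    linear_combination h1 - h2
  have h4 : 0 < (cp * sq) * (E - F) + sp * cq * (F' - E') := by
    have := sub_pos.mpr hEF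
    have := sub_pos.mpr hEF'
    positivity
  have h5 : 0 < m * (cp * sq * (F' - E') + sp * cq * (E - F)) := by
    have := sub_pos.mpr hEF
    have := sub_pos.mpr hEF'
    positivity
  linarith

theorem x_rho (p : V) : D.ml.x (P.rho p) = D.ml.x p := by
  have h1 := (D.Grel hb hfill p).1
  have h2 := (D.Grel hb hfill (P.rho p)).1
  rw [P.rho_rho, ← P.rho_iota, D.b_rho, D.b_rho] at h2
  rw [D.ml.G_eq p, D.ml.G_eq (P.rho p), D.ml.θ_rho, D.ml.θ_iota_rho] at h1 h2
  simp only [Matrix.of_apply, Matrix.cons_val', Matrix.cons_val_zero,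
    Matrix.cons_val_one] at h1 h2
  have q1 := D.ml.cos_pos (P.iota p)
  have q2 := D.ml.sin_pos (P.iota p)
  have q3 := D.ml.cos_pos p
  have q4 := D.ml.sin_pos p
  rcases lt_trichotomy (D.ml.x (P.rho p)) (D.ml.x p) with h | h | h
  · exact (exp_lt_aux q3 q4 q1 q2 (exp_pos _) h1 h2 (by rw [Real.exp_lt_exp]; linarith)
      (by rw [Real.exp_lt_exp]; linarith)).elim
  · exact h
  · exact (exp_lt_aux q3 q4 q1 q2 (exp_pos _) h2 h1 (by rw [Real.exp_lt_exp]; linarith)
      (by rw [Real.exp_lt_exp]; linarith)).elim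

end QData

end Run7.h568
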