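import Pool.Agent.Run7.h568.Sym

namespace Run7.h568

open Real Matrix

theorem law_of_G {α β x u v s c : ℝ} (hcs : c ^ 2 - s ^ 2 = 1)
    (h : R α * T x * R (π - β) = T (-(-u)) * Sm s c * T (-v)) :
    cosh x = cf (c ^ 2 + s ^ 2) u v ∧ sinh x * cos α = cfu (c ^ 2 + s ^ 2) u v ∧
      sinh x * cos β = cfv (c ^ 2 + s ^ 2) u v := by
  have h' : R (π - (π - α)) * T x * R (π - β) = T (-(-u)) * Sm s c * T (-v) := by
    rw [← h]; congr 3; ring
  obtain ⟨h1, h2, h3⟩ := law_of_h hcs h'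
  rw [QData.cf_neg] at h1
  rw [QData.cfu_neg, Real.cos_pi_sub] at h2
  rw [QData.cfv_neg, Real.cos_pi_sub] at h3
  exact ⟨h1, by linarith, by linarith⟩

theorem cfu_sq (C u v : ℝ) :
    cf C u v ^ 2 - 1 - cfu C u v ^ 2 = (C ^ 2 - 1) * cosh v ^ 2 := by
  unfold cf cfu
  have e1 := Real.cosh_sq u
  have e2 := Real.cosh_sq v
  generalize cosh u = cu at *
  generalize cosh v = cv at *
  generalize sinh u = su at *
  generalize sinh v = sv at *
  linear_combination (C ^ 2 * cv ^ 2 - sv ^ 2) * e1 + e2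

namespace QData

theorem G00_aux {cp sp cq sq m E E' : ℝ} (hcp : 0 < cp) (hsp : 0 < sp) (hcq : 0 < cq)
    (hsq : 0 < sq) (hm : 0 < m) (hE : 1 < E) (_hE'0 : 0 < E') (hE' : E' < 1)
    (h1 : cp * sq * E - sp * cq * E' = -(m * (cp * sq * E' - sp * cq * E))) :
    0 < cp * sq * E - sp * cq * E' := by
  by_contra hcon
  rw [not_lt] at hcon
  have h2 : 0 ≤ cp * sq * E' - sp * cq * E := by
    by_contra h3
    rw [not_le] at h3
    have := mul_neg_of_pos_of_neg hm h3
    linarith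
  have a1 : 0 < cp * sq := by positivity
  have a2 : 0 < sp * cq := by positivity
  nlinarith [mul_pos a1 a2, mul_lt_mul_of_pos_left (lt_trans hE' hE) a1,
    mul_lt_mul_of_pos_left (lt_trans hE' hE) a2]

variable {V : Type*} [Fintype V] {P : HexPattern V} {a b : V → ℝ} (D : QData P a b)
  (hb : ∀ p, 0 ≤ b p) (hfill : ∀ p, 0 < b p ∨ 0 < b (P.iota p))

include hb hfill

theorem G_rho (p : V) : D.ml.G (P.rho p) = D.ml.G p := by
  rw [D.ml.G_eq p, D.ml.G_eq (P.rho p), D.ml.θ_rho, D.ml.θ_iota_rho, D.x_rho hb hfill]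

theorem G00_pos (p : V) : 0 < D.ml.G p 0 0 := by
  have h1 := (D.Grel hb hfill p).1
  rw [D.G_rho hb hfill] at h1
  rw [D.ml.G_eq p] at h1 ⊢
  simp only [Matrix.of_apply, Matrix.cons_val', Matrix.cons_val_zero,
    Matrix.cons_val_one] at h1 ⊢
  refine G00_aux (D.ml.cos_pos p) (D.ml.sin_pos p) (D.ml.cos_pos _) (D.ml.sin_pos _) (exp_pos _)
    (one_lt_exp_half (D.ml.x_pos p)) (exp_pos _) ?_ h1
  rw [Real.exp_lt_one_iff]
  linarith [D.ml.x_pos p]

omit [Fintype V] hb hfill in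
theorem G_det (m : HypMetric P) (p : V) : m.G p 0 0 * m.G p 1 1 - m.G p 0 1 * m.G p 1 0 = 1 := by
  rw [m.G_eq]
  simp only [Matrix.of_apply, Matrix.cons_val', Matrix.cons_val_zero, Matrix.cons_val_one]
  have e := exp_half_mul (m.x p)
  have a := Real.sin_sq_add_cos_sq (m.θ (P.iota p) / 2)
  have b := Real.sin_sq_add_cos_sq (m.θ p / 2)
  generalize exp (m.x p / 2) = E at *
  generalize exp (-(m.x p / 2)) = E' at *
  generalize sin (m.θ (P.iota p) / 2) = s at *
  generalize cos (m.θ (P.iota p) / 2) = c at *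
  generalize sin (m.θ p / 2) = s' at *
  generalize cos (m.θ p / 2) = c' at *
  linear_combination (s' ^ 2 + c' ^ 2) * (E * E') * a + E * E' * b + e

omit hb hfill in
noncomputable def sD (D : QData P a b) (p : V) : ℝ :=
  exp (-((b p - b (P.iota p)) / 8)) * D.ml.G p 0 0
omit hb hfill in
noncomputable def cD (D : QData P a b) (p : V) : ℝ :=
  exp (-((b p + b (P.iota p)) / 8)) * D.ml.G p 0 1

theorem sD_pos (p : V) : 0 < D.sD p := mul_pos (exp_pos _) (D.G00_pos hb hfill p)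

omit [Fintype V] hb hfill in
theorem cD_pos (D : QData P a b) (p : V) : 0 < D.cD p := mul_pos (exp_pos _) (G01_pos D.ml p)

theorem Gdec (p : V) :
    D.ml.G p = T (-(-(b p / 4))) * Sm (D.sD p) (D.cD p) * T (-(b (P.iota p) / 4)) := by
  rw [TST_entries]
  obtain ⟨h1, h2⟩ := D.Grel hb hfill p
  rw [D.G_rho hb hfill] at h1 h2
  unfold sD cD
  apply T_ext <;> simp only [Matrix.of_apply, Matrix.cons_val', Matrix.cons_val_zero,
    Matrix.cons_val_one]
  · have : exp (-(-(b p / 4) / 2)) * (exp (-((b p - b (P.iota p)) / 8)) * D.ml.G p 0 0) *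
        exp (-(b (P.iota p) / 4) / 2) = (exp (-(-(b p / 4) / 2)) *
          exp (-((b p - b (P.iota p)) / 8)) * exp (-(b (P.iota p) / 4) / 2)) * D.ml.G p 0 0 := by
      ring
    rw [this, ← Real.exp_add, ← Real.exp_add]
    have e : -(-(b p / 4) / 2) + -((b p - b (P.iota p)) / 8) + -(b (P.iota p) / 4) / 2 = 0 := by
      ring
    rw [e, Real.exp_zero, one_mul]
  · have : exp (-(-(b p / 4) / 2)) * (exp (-((b p + b (P.iota p)) / 8)) * D.ml.G p 0 1) *
        exp (-(-(b (P.iota p) / 4) / 2)) = (exp (-(-(b p / 4) / 2)) *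
          exp (-((b p + b (P.iota p)) / 8)) * exp (-(-(b (P.iota p) / 4) / 2))) *
            D.ml.G p 0 1 := by
      ring
    rw [this, ← Real.exp_add, ← Real.exp_add]
    have e : -(-(b p / 4) / 2) + -((b p + b (P.iota p)) / 8) + -(-(b (P.iota p) / 4) / 2) = 0 := by
      ring
    rw [e, Real.exp_zero, one_mul]
  · rw [h2]
    have : -(exp (-(b p / 4) / 2) * (exp (-((b p + b (P.iota p)) / 8)) *
        -(exp ((b p + b (P.iota p)) / 4) * D.ml.G p 1 0)) * exp (-(b (P.iota p) / 4) / 2)) =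
        (exp (-(b p / 4) / 2) * exp (-((b p + b (P.iota p)) / 8)) *
        exp ((b p + b (P.iota p)) / 4) * exp (-(b (P.iota p) / 4) / 2)) * D.ml.G p 1 0 := by ring
    rw [this, ← Real.exp_add, ← Real.exp_add, ← Real.exp_add]
    have e : -(b p / 4) / 2 + -((b p + b (P.iota p)) / 8) + (b p + b (P.iota p)) / 4 +
        -(b (P.iota p) / 4) / 2 = 0 := by ring
    rw [e, Real.exp_zero, one_mul]
  · rw [h1]
    have : -(exp (-(b p / 4) / 2) * (exp (-((b p - b (P.iota p)) / 8)) *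
        -(exp ((b p - b (P.iota p)) / 4) * D.ml.G p 1 1)) * exp (-(-(b (P.iota p) / 4) / 2))) =
        (exp (-(b p / 4) / 2) * exp (-((b p - b (P.iota p)) / 8)) *
        exp ((b p - b (P.iota p)) / 4) * exp (-(-(b (P.iota p) / 4) / 2))) * D.ml.G p 1 1 := by
      ring
    rw [this, ← Real.exp_add, ← Real.exp_add, ← Real.exp_add]
    have e : -(b p / 4) / 2 + -((b p - b (P.iota p)) / 8) + (b p - b (P.iota p)) / 4 +
        -(-(b (P.iota p) / 4) / 2) = 0 := by ring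
    rw [e, Real.exp_zero, one_mul]

theorem cs (p : V) : D.cD p ^ 2 - D.sD p ^ 2 = 1 := by
  have h := D.Gdec hb hfill p
  have hd := G_det D.ml p
  rw [h, TST_entries] at hd
  simp only [Matrix.of_apply, Matrix.cons_val', Matrix.cons_val_zero,
    Matrix.cons_val_one] at hd
  have e1 : exp (-(b p / 4) / 2) * exp (-(-(b p / 4) / 2)) = 1 := exp_half_mul _
  have e2 : exp (-(b (P.iota p) / 4) / 2) * exp (-(-(b (P.iota p) / 4) / 2)) = 1 := exp_half_mul _
  generalize exp (-(b p / 4) / 2) = x1 at *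
  generalize exp (-(-(b p / 4) / 2)) = x1' at *
  generalize exp (-(b (P.iota p) / 4) / 2) = x2 at *
  generalize exp (-(-(b (P.iota p) / 4) / 2)) = x2' at *
  linear_combination hd - (D.cD p ^ 2 - D.sD p ^ 2) * (x2 * x2') * e1
    - (D.cD p ^ 2 - D.sD p ^ 2) * e2

omit [Fintype V] hb hfill in
noncomputable def dD (D : QData P a b) (p : V) : ℝ := D.cD p ^ 2 + D.sD p ^ 2

theorem one_lt_dD (p : V) : 1 < D.dD p := by
  have h1 := D.cs hb hfill p
  have h2 := D.sD_pos hb hfill p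
  unfold dD
  nlinarith

theorem lawG (p : V) :
    cosh (D.ml.x p) = cf (D.dD p) (b p / 4) (b (P.iota p) / 4) ∧
    sinh (D.ml.x p) * cos (D.ml.θ p) = cfu (D.dD p) (b p / 4) (b (P.iota p) / 4) ∧
    sinh (D.ml.x p) * cos (D.ml.θ (P.iota p)) = cfv (D.dD p) (b p / 4) (b (P.iota p) / 4) :=
  law_of_G (D.cs hb hfill p) (D.Gdec hb hfill p)

theorem dD_eq (p : V) :
    D.dD p = 1 / (cosh (b p / 4) * cosh (b (P.iota p) / 4)) * cosh (D.ml.x p)
      - tanh (b p / 4) * tanh (b (P.iota p) / 4) := by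
  rw [(D.lawG hb hfill p).1, Real.tanh_eq_sinh_div_cosh, Real.tanh_eq_sinh_div_cosh]
  have h1 := Real.cosh_pos (b p / 4)
  have h2 := Real.cosh_pos (b (P.iota p) / 4)
  unfold cf
  field_simp
  ring

theorem dD_iota (p : V) : D.dD (P.iota p) = D.dD p := by
  rw [D.dD_eq hb hfill, D.dD_eq hb hfill, P.iota_iota, D.ml.x_iota]
  ring

/-- `2 s c = sinh D` -/
theorem sc_sq (p : V) : (2 * (D.sD p * D.cD p)) ^ 2 = D.dD p ^ 2 - 1 := by
  have h1 := D.cs hb hfill p
  unfold dD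
  linear_combination (D.cD p ^ 2 - D.sD p ^ 2 + 1) * (-1) * h1

theorem sinθ (p : V) :
    sinh (D.ml.x p) * sin (D.ml.θ p) = 2 * (D.sD p * D.cD p) * cosh (b (P.iota p) / 4) := by
  have h := D.lawG hb hfill p
  have hx := Real.sinh_pos_iff.mpr (D.ml.x_pos p)
  have hs := Real.sin_pos_of_pos_of_lt_pi (D.ml.θ_pos p) (D.ml.θ_lt p)
  have hsD := D.sD_pos hb hfill p
  have hcD := D.cD_pos p
  have hch := Real.cosh_pos (b (P.iota p) / 4)
  have hsq : (sinh (D.ml.x p) * sin (D.ml.θ p)) ^ 2 =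
      (2 * (D.sD p * D.cD p) * cosh (b (P.iota p) / 4)) ^ 2 := by
    rw [mul_pow (2 * (D.sD p * D.cD p)), D.sc_sq hb hfill, ← cfu_sq _ (b p / 4), ← h.1, ← h.2.1]
    have e1 := Real.cosh_sq (D.ml.x p)
    have e2 := Real.sin_sq_add_cos_sq (D.ml.θ p)
    linear_combination sinh (D.ml.x p) ^ 2 * e2 - e1
  exact (pow_left_inj₀ (by positivity) (by positivity) two_ne_zero).mp hsq

end QData

end Run7.h568
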