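import Pool.Agent.Run7.h568.Sym2
import Pool.Agent.Run7.h568.BlockMono

namespace Run7.h568

open Real Matrix

theorem pos_of_mul_pos_right' {x y : ℝ} (h : 0 < x * y) (hx : 0 < x) : 0 < y := by
  by_contra hcon
  rw [not_lt] at hcon
  have := mul_nonneg hx.le (neg_nonneg.mpr hcon)
  linarith

namespace QData

theorem KW_aux {Xp Xs cq sq cs ss cy sy chp shp chs shs chi shi dp ds dn σp σs rD : ℝ}
    (hXp : 0 < Xp) (hXs : 0 < Xs) (hchp : 0 < chp) (hchs : 0 < chs) (hchi : 0 < chi)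
    (hσs : 0 < σs) (hσs2 : σs ^ 2 = ds ^ 2 - 1)
    (h1 : Xp * cq = dp * (chp * shs) + shp * chs) (h2 : Xp * sq = σp * chp)
    (h3 : Xs * cs = ds * (shs * chi) + chs * shi) (h4 : Xs * ss = σs * chi)
    (h5 : cy * (σp * σs) = dn + dp * ds) (h6 : sy * (σp * σs) = rD) :
    sq * sy = chp * chs * chi / (Xp * Xs * σs) * (Xs / (chs * chi) * rD) ∧
    sq * cs * cy - ss * cq = chp * chs * chi / (Xp * Xs * σs) *
      pN (shp / chp) (shs / chs) (shi / chi) ds dn dp := by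
  have e2 : sq = σp * chp / Xp := by field_simp; linarith
  have e1 : cq = (dp * (chp * shs) + shp * chs) / Xp := by field_simp; linarith
  have e3 : cs = (ds * (shs * chi) + chs * shi) / Xs := by field_simp; linarith
  have e4 : ss = σs * chi / Xs := by field_simp; linarith
  constructor
  · rw [e2, ← h6]; field_simp
  · have e : sq * cs * cy - ss * cq = (chp * (ds * (shs * chi) + chs * shi) * (dn + dp * ds)
        - (ds ^ 2 - 1) * chi * (dp * (chp * shs) + shp * chs)) / (Xp * Xs * σs) := by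
      rw [e1, e2, e3, e4, ← h5, ← hσs2]
      field_simp
    rw [e]
    unfold pN
    field_simp
    ring

variable {V : Type*} [Fintype V] {P : HexPattern V} {a b : V → ℝ} (D : QData P a b)
  (hb : ∀ p, 0 ≤ b p) (hfill : ∀ p, 0 < b p ∨ 0 < b (P.iota p))

include hb hfill

theorem sc_eq (p : V) : 2 * (D.sD p * D.cD p) = √(D.dD p ^ 2 - 1) := by
  rw [← D.sc_sq hb hfill, Real.sqrt_sq]
  have := D.sD_pos hb hfill p
  have := D.cD_pos p
  positivity

theorem sinθ' (p : V) :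
    sinh (D.ml.x p) * sin (D.ml.θ p) = √(D.dD p ^ 2 - 1) * cosh (b (P.iota p) / 4) := by
  rw [D.sinθ hb hfill, D.sc_eq hb hfill]

omit [Fintype V] hb hfill in
theorem b_tau (D : QData P a b) (p : V) : b (P.tau p) = b (P.iota p) := D.b_B (P.iota p)

/-- the closing relation of the symmetric hexagon -/
theorem hexD (p : V) :
    T (D.ml.y (P.iota (P.tau (P.tau p)))) * Sm (D.sD p) (D.cD p) *
      (T (D.ml.y (P.iota p)) * Sm (D.sD (P.tau p)) (D.cD (P.tau p))) *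
      (T (D.ml.y (P.iota (P.tau p))) * Sm (D.sD (P.tau (P.tau p))) (D.cD (P.tau (P.tau p)))) =
      -1 := by
  have hcl := D.ml.closes p
  have e1 : D.ml.G p * T (D.ml.y (P.iota p)) * (D.ml.G (P.tau p) * T (D.ml.y (P.iota (P.tau p)))) *
      (D.ml.G (P.tau (P.tau p)) * T (D.ml.y (P.iota (P.tau (P.tau p))))) = -1 := by
    have e2 : D.ml.G p * T (D.ml.y (P.iota p)) *
      (D.ml.G (P.tau p) * T (D.ml.y (P.iota (P.tau p)))) *
      (D.ml.G (P.tau (P.tau p)) * T (D.ml.y (P.iota (P.tau (P.tau p))))) =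
      R (D.ml.θ p) * (T (D.ml.x p) * (R (π - D.ml.θ (P.iota p)) * T (D.ml.y (P.iota p)) *
        R (D.ml.θ (P.tau p))) *
      (T (D.ml.x (P.tau p)) *
        (R (π - D.ml.θ (P.iota (P.tau p))) * T (D.ml.y (P.iota (P.tau p))) *
          R (D.ml.θ (P.tau (P.tau p))))) *
      (T (D.ml.x (P.tau (P.tau p))) *
        (R (π - D.ml.θ (P.iota (P.tau (P.tau p)))) * T (D.ml.y (P.iota (P.tau (P.tau p)))) *
          R (D.ml.θ p)))) * R (-D.ml.θ p) := by
      have r : R (D.ml.θ p) * R (-D.ml.θ p) = 1 := by rw [R_mul, add_neg_cancel, R_zero]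
      unfold HypMetric.G
      simp only [Matrix.mul_assoc, r, Matrix.mul_one]
    rw [e2, hcl]
    simp [R_mul, R_zero]
  rw [D.Gdec hb hfill p, D.Gdec hb hfill (P.tau p), D.Gdec hb hfill (P.tau (P.tau p))] at e1
  have b1 := D.b_tau p
  have b2 := D.b_tau (P.tau p)
  have b3 := D.b_tau (P.tau (P.tau p))
  rw [P.tau3] at b3
  rw [← b1, ← b2, ← b3] at e1
  set S0 := Sm (D.sD p) (D.cD p)
  set S1 := Sm (D.sD (P.tau p)) (D.cD (P.tau p))
  set S2 := Sm (D.sD (P.tau (P.tau p))) (D.cD (P.tau (P.tau p)))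
  set y0 := D.ml.y (P.iota p)
  set y1 := D.ml.y (P.iota (P.tau p))
  set y2 := D.ml.y (P.iota (P.tau (P.tau p)))
  have z0 : T y0 = T (-(b (P.tau p) / 4)) * T y0 * T (-(-(b (P.tau p) / 4))) := by
    rw [T_mul, T_mul]; congr 1; ring
  have z1 : T y1 = T (-(b (P.tau (P.tau p)) / 4)) * T y1 * T (-(-(b (P.tau (P.tau p)) / 4))) := by
    rw [T_mul, T_mul]; congr 1; ring
  have z3 : T y2 * T (b p / 4 - y2) = T (-(-(b p / 4))) := by
    rw [T_mul]; congr 1; ring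
  have z4 : T (-(b p / 4)) * T (-(-(b p / 4))) = 1 := by
    rw [T_mul, add_neg_cancel, T_zero]
  have z5 : T (-(b p / 4) + y2) * T (-(-(b p / 4))) = T y2 := by
    rw [T_mul]; congr 1; ring
  have e3 : T y2 * S0 * (T y0 * S1) * (T y1 * S2) =
      T (-(b p / 4) + y2) * (T (-(-(b p / 4))) * S0 * T (-(b (P.tau p) / 4)) * T y0 *
        (T (-(-(b (P.tau p) / 4))) * S1 * T (-(b (P.tau (P.tau p)) / 4)) * T y1) *
        (T (-(-(b (P.tau (P.tau p)) / 4))) * S2 * T (-(b p / 4)) * T y2)) * T (b p / 4 - y2) := by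
    conv_lhs => rw [z0, z1, ← z5]
    simp only [Matrix.mul_assoc, z3, z4, Matrix.mul_one]
  rw [e3, e1]
  have : T (-(b p / 4) + y2) * -1 * T (b p / 4 - y2) =
      -(T (-(b p / 4) + y2) * T (b p / 4 - y2)) := by simp
  rw [this, T_mul]
  have : -(b p / 4) + y2 + (b p / 4 - y2) = 0 := by ring
  rw [this, T_zero]

theorem cosh_y (p : V) :
    cosh (D.ml.y (P.iota p)) * (√(D.dD p ^ 2 - 1) * √(D.dD (P.tau p) ^ 2 - 1)) =
      D.dD (P.tau (P.tau p)) + D.dD p * D.dD (P.tau p) := by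
  have h := hexagon_law (D.cs hb hfill _) (D.hexD hb hfill p)
  rw [← D.sc_eq hb hfill, ← D.sc_eq hb hfill]
  have c0 := D.cs hb hfill p
  have c1 := D.cs hb hfill (P.tau p)
  have c2 := D.cs hb hfill (P.tau (P.tau p))
  unfold dD
  linear_combination 2 * h - c2 + (D.cD (P.tau p) ^ 2 - D.sD (P.tau p) ^ 2) * c0 + c1

theorem sinh_y (p : V) :
    sinh (D.ml.y (P.iota p)) * (√(D.dD p ^ 2 - 1) * √(D.dD (P.tau p) ^ 2 - 1)) =
      √(pDelta (D.dD (P.tau p)) (D.dD (P.tau (P.tau p))) (D.dD p)) := by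
  have h0 := D.one_lt_dD hb hfill p
  have h1 := D.one_lt_dD hb hfill (P.tau p)
  have h2 := D.one_lt_dD hb hfill (P.tau (P.tau p))
  have q0 := Real.sq_sqrt (show 0 ≤ D.dD p ^ 2 - 1 by nlinarith)
  have q1 := Real.sq_sqrt (show 0 ≤ D.dD (P.tau p) ^ 2 - 1 by nlinarith)
  have hy := Real.sinh_pos_iff.mpr (D.ml.y_pos (P.iota p))
  have hc := D.cosh_y hb hfill p
  have e := Real.cosh_sq (D.ml.y (P.iota p))
  have hsq : (sinh (D.ml.y (P.iota p)) * (√(D.dD p ^ 2 - 1) * √(D.dD (P.tau p) ^ 2 - 1))) ^ 2 =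
      pDelta (D.dD (P.tau p)) (D.dD (P.tau (P.tau p))) (D.dD p) := by
    have hc2 : (cosh (D.ml.y (P.iota p)) * (√(D.dD p ^ 2 - 1) * √(D.dD (P.tau p) ^ 2 - 1))) ^ 2 =
      (D.dD (P.tau (P.tau p)) + D.dD p * D.dD (P.tau p)) ^ 2 := by rw [hc]
    rw [mul_pow, mul_pow, q0, q1, e] at hc2
    rw [mul_pow, mul_pow, q0, q1]
    unfold pDelta
    linear_combination hc2
  rw [← hsq, Real.sqrt_sq]
  positivity

/-- the twist coordinate as a function of the lengths -/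
theorem X_kap (p : V) :
    D.ml.X (P.rho (P.tau p)) =
      kap (tanh (b p / 4)) (tanh (b (P.tau p) / 4)) (tanh (b (P.tau (P.tau p)) / 4))
        (D.dD (P.tau p)) (D.dD (P.tau (P.tau p))) (D.dD p)
        (sinh (D.ml.x (P.tau p)) / (cosh (b (P.tau p) / 4) * cosh (b (P.tau (P.tau p)) / 4))) := by
  have hsg : P.iota (P.rho (P.tau p)) = P.sg (P.tau p) := by rw [← P.rho_iota]; rfl
  have hX : D.ml.X (P.rho (P.tau p)) = (log (-(D.ml.h p 1 0)) + log (D.ml.h p 0 0)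
      - log (-(D.ml.h p 1 1)) - log (D.ml.h p 0 1)) / 2 := by
    unfold HypMetric.X
    rw [hsg, (D.ml.h_sg p).1, (D.ml.h_sg p).2.1, (D.ml.h_sg p).2.2.1, (D.ml.h_sg p).2.2.2, neg_neg]
  have s00 := (D.ml.h_signs p).1
  have s11 := (D.ml.h_signs p).2
  have s01 := D.ml.h01_pos p
  have s10 := D.ml.h10_neg p
  have hX2 : D.ml.X (P.rho (P.tau p)) = (log (2 * (D.ml.h p 0 0 * -(D.ml.h p 1 0)))
      - log (2 * (D.ml.h p 0 1 * -(D.ml.h p 1 1)))) / 2 := by
    rw [hX, Real.log_mul (by norm_num) (mul_pos s00 (by linarith)).ne',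
      Real.log_mul (by norm_num) (mul_pos s01 (by linarith)).ne',
      Real.log_mul s00.ne' (by linarith), Real.log_mul s01.ne' (by linarith)]
    ring
  -- the two products
  have hK : 2 * (D.ml.h p 0 0 * -(D.ml.h p 1 0)) =
      sin (D.ml.θ (P.iota p)) * sinh (D.ml.y (P.iota p)) +
      (sin (D.ml.θ (P.iota p)) * cos (D.ml.θ (P.tau p)) * cosh (D.ml.y (P.iota p))
        - sin (D.ml.θ (P.tau p)) * cos (D.ml.θ (P.iota p))) ∧
      2 * (D.ml.h p 0 1 * -(D.ml.h p 1 1)) =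
      sin (D.ml.θ (P.iota p)) * sinh (D.ml.y (P.iota p)) -
      (sin (D.ml.θ (P.iota p)) * cos (D.ml.θ (P.tau p)) * cosh (D.ml.y (P.iota p))
        - sin (D.ml.θ (P.tau p)) * cos (D.ml.θ (P.iota p))) := by
    rw [D.ml.h_eq p, sin_half (D.ml.θ (P.iota p)), sin_half (D.ml.θ (P.tau p)),
      cos_half (D.ml.θ (P.iota p)), cos_half (D.ml.θ (P.tau p)), cosh_half (D.ml.y _),
      sinh_half (D.ml.y _)]
    simp only [Matrix.of_apply, Matrix.cons_val', Matrix.cons_val_zero, Matrix.cons_val_one]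
    have e := exp_half_mul (D.ml.y (P.iota p))
    have ha := Real.sin_sq_add_cos_sq (D.ml.θ (P.iota p) / 2)
    have hb := Real.sin_sq_add_cos_sq (D.ml.θ (P.tau p) / 2)
    generalize exp (D.ml.y (P.iota p) / 2) = E at *
    generalize exp (-(D.ml.y (P.iota p) / 2)) = E' at *
    generalize sin (D.ml.θ (P.iota p) / 2) = s at *
    generalize cos (D.ml.θ (P.iota p) / 2) = c at *
    generalize sin (D.ml.θ (P.tau p) / 2) = s' at *
    generalize cos (D.ml.θ (P.tau p) / 2) = c' at *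
    constructor
    · linear_combination s * c * (E ^ 2 - E' ^ 2) * hb + 2 * (s ^ 2 - c ^ 2) * s' * c' * e
    · linear_combination s * c * (E ^ 2 - E' ^ 2) * hb + 2 * (c ^ 2 - s ^ 2) * s' * c' * e
  have hι : b (P.iota p) = b (P.tau p) := (D.b_tau p).symm
  have hι2 : b (P.iota (P.tau p)) = b (P.tau (P.tau p)) := (D.b_tau _).symm
  have h1 := (D.lawG hb hfill p).2.2
  have h2 := D.sinθ' hb hfill (P.iota p)
  have h3 := (D.lawG hb hfill (P.tau p)).2.1
  have h4 := D.sinθ' hb hfill (P.tau p)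
  have h5 := D.cosh_y hb hfill p
  have h6 := D.sinh_y hb hfill p
  rw [P.iota_iota, D.ml.x_iota, D.dD_iota hb hfill] at h2
  rw [hι] at h1
  rw [hι2] at h3 h4
  have g1 := D.one_lt_dD hb hfill (P.tau p)
  have hσs : 0 < D.dD (P.tau p) ^ 2 - 1 := by nlinarith
  obtain ⟨k1, k2⟩ := KW_aux (Real.sinh_pos_iff.mpr (D.ml.x_pos p))
    (Real.sinh_pos_iff.mpr (D.ml.x_pos (P.tau p))) (Real.cosh_pos (b p / 4))
    (Real.cosh_pos (b (P.tau p) / 4)) (Real.cosh_pos (b (P.tau (P.tau p)) / 4))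
    (Real.sqrt_pos.mpr hσs) (Real.sq_sqrt hσs.le) h1 h2 h3 h4 h5 h6
  have hr : 0 < cosh (b p / 4) * cosh (b (P.tau p) / 4) * cosh (b (P.tau (P.tau p)) / 4) /
      (sinh (D.ml.x p) * sinh (D.ml.x (P.tau p)) * √(D.dD (P.tau p) ^ 2 - 1)) := by
    have := Real.sinh_pos_iff.mpr (D.ml.x_pos p)
    have := Real.sinh_pos_iff.mpr (D.ml.x_pos (P.tau p))
    have := Real.cosh_pos (b p / 4)
    have := Real.cosh_pos (b (P.tau p) / 4)
    have := Real.cosh_pos (b (P.tau (P.tau p)) / 4)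
    have := Real.sqrt_pos.mpr hσs
    positivity
  rw [k1, k2, ← mul_add, ← mul_sub] at hK
  rw [← Real.tanh_eq_sinh_div_cosh, ← Real.tanh_eq_sinh_div_cosh,
    ← Real.tanh_eq_sinh_div_cosh] at hK
  have hp1 : 0 < 2 * (D.ml.h p 0 0 * -(D.ml.h p 1 0)) :=
    mul_pos two_pos (mul_pos s00 (by linarith))
  have hp2 : 0 < 2 * (D.ml.h p 0 1 * -(D.ml.h p 1 1)) :=
    mul_pos two_pos (mul_pos s01 (by linarith))
  rw [hK.1] at hp1
  rw [hK.2] at hp2
  rw [hX2, hK.1, hK.2, Real.log_mul hr.ne' (pos_of_mul_pos_right' hp1 hr).ne',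
    Real.log_mul hr.ne' (pos_of_mul_pos_right' hp2 hr).ne']
  unfold kap
  ring

end QData

end Run7.h568
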