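import Pool.Agent.Run7.h568.Beta

namespace Run7.h568

open Real Matrix Finset

/-- The data of a core, with the displacement functions exposed. -/
structure QData {V : Type*} (P : HexPattern V) (a b : V → ℝ) where
  ml : HypMetric P
  mr : HypMetric P
  κ : V → ℝ
  μ : V → ℝ
  κ1 : ∀ p, T (κ p) * mr.g p = ml.g p * T (-κ (P.rho (P.B p)))
  κ2 : ∀ p, κ (P.iota p) - κ (P.rho p) = ml.x p - mr.x p
  κ3 : ∀ p, κ p + κ (P.rho p) = a p
  μ1 : ∀ p, T (μ p) * mr.G p = ml.G p * T (μ (P.iota p))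
  μ2 : ∀ p, μ p - μ (P.B p) = ml.y p - mr.y p
  μ3 : ∀ p, μ p + μ (P.rho p) = b p

namespace QData

variable {V : Type*} {P : HexPattern V} {a b : V → ℝ} (D : QData P a b)

theorem b_rho (D : QData P a b) (p : V) : b (P.rho p) = b p := by
  rw [← D.μ3, ← D.μ3, P.rho_rho, add_comm]

theorem b_B (D : QData P a b) (p : V) : b (P.B p) = b p := by
  have h1 := D.μ2 p
  have h2 := D.μ2 (P.rho (P.B p))
  rw [P.B_rho_B, D.ml.y_rho, D.mr.y_rho] at h2
  rw [← D.μ3, ← D.μ3]
  linarith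

theorem a_iota (D : QData P a b) (p : V) : a (P.iota p) = a p := by
  have h1 := D.κ2 p
  have h2 := D.κ2 (P.iota p)
  rw [P.iota_iota, D.ml.x_iota, D.mr.x_iota] at h2
  rw [← D.κ3, ← D.κ3]
  linarith

theorem len (p : V) : D.mr.x p + D.mr.x (P.rho p) = D.ml.x p + D.ml.x (P.rho p) := by
  have h1 := D.κ2 p
  have h2 := D.κ2 (P.rho p)
  rw [P.rho_rho, ← P.rho_iota] at h2
  have h3 := D.κ3 p
  have h4 := D.κ3 (P.iota p)
  rw [D.a_iota] at h4
  linarith

theorem X_eq (p : V) : D.ml.X p = D.mr.X p + D.κ p := (quake_X D.κ1 p).1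
theorem C_eq (p : V) : D.ml.C p = D.mr.C p := (quake_X D.κ1 p).2

/-- sums of the `X`'s and of the cosines -/
noncomputable def Xs (p : V) : ℝ := D.ml.X p + D.mr.X p
noncomputable def Gam (p : V) : ℝ := cos (D.mr.θ p) + cos (D.ml.θ p)
noncomputable def term (q : V) : ℝ :=
  D.Xs q * D.Gam q + D.Xs (P.rho (P.B q)) * D.Gam (P.B q)

theorem cf_neg (C u v : ℝ) : cf C (-u) (-v) = cf C u v := by
  unfold cf; rw [cosh_neg, cosh_neg, sinh_neg, sinh_neg]; ring
theorem cfu_neg (C u v : ℝ) : cfu C (-u) (-v) = -cfu C u v := by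
  unfold cfu; rw [cosh_neg, cosh_neg, sinh_neg, sinh_neg]; ring
theorem cfv_neg (C u v : ℝ) : cfv C (-u) (-v) = -cfv C u v := by
  unfold cfv; rw [cosh_neg, cosh_neg, sinh_neg, sinh_neg]; ring

theorem term_pos (q : V) (h : D.Xs q ≠ 0 ∨ D.Xs (P.rho (P.B q)) ≠ 0) : 0 < D.term q := by
  have h' : D.ml.X q ≠ -(D.mr.X q) ∨ D.ml.X (P.rho (P.B q)) ≠ -(D.mr.X (P.rho (P.B q))) := by
    rcases h with h | h
    · left; intro e; apply h; unfold Xs; linarith
    · right; intro e; apply h; unfold Xs; linarith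
  have key := dist_grad_mono (D.mr.one_lt_C q) h'
  rw [cf_neg, cfu_neg, cfv_neg, neg_div, neg_div, ← D.mr.cos_θ q, ← D.mr.cos_θ_B q,
    ← D.C_eq q, ← D.ml.cos_θ q, ← D.ml.cos_θ_B q] at key
  unfold term Xs Gam
  linarith

theorem term_nonneg (q : V) : 0 ≤ D.term q := by
  by_cases h : D.Xs q ≠ 0 ∨ D.Xs (P.rho (P.B q)) ≠ 0
  · exact (D.term_pos q h).le
  · rw [not_or, not_not, not_not] at h
    unfold term; rw [h.1, h.2]; simp

theorem Xs_of_term (q : V) (h : D.term q = 0) : D.Xs q = 0 := by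
  by_contra hne
  exact (D.term_pos q (Or.inl hne)).ne' h

noncomputable def Ys (p : V) : ℝ := D.Xs p + D.Xs (P.rho p)

theorem Y_iota (m : HypMetric P) (p : V) :
    m.X (P.iota p) + m.X (P.rho (P.iota p)) = m.X p + m.X (P.rho p) := by
  have h1 := m.X_rel p
  have h2 := m.X_rel (P.rho p)
  rw [P.rho_rho, ← P.rho_iota] at h2
  linarith

theorem Ys_iota (p : V) : D.Ys (P.iota p) = D.Ys p := by
  have h1 := Y_iota D.ml p
  have h2 := Y_iota D.mr p
  unfold Ys Xs
  linarith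

theorem sum_term [Fintype V] (w : V → ℝ) (hB : ∀ p, w (P.B p) = w p) :
    ∑ q, w q * D.term q = ∑ q, w q * D.Gam q * D.Ys q := by
  have h1 : ∑ q, w q * D.term q = ∑ q, w q * D.Gam q * D.Xs q +
      ∑ q, (fun q => w q * D.Gam q * D.Xs (P.rho q)) (P.B q) := by
    rw [← Finset.sum_add_distrib]
    apply Finset.sum_congr rfl
    intro q _
    unfold term
    simp only [hB]
    ring
  rw [h1, P.B_bij.sum_comp (fun q => w q * D.Gam q * D.Xs (P.rho q)), ← Finset.sum_add_distrib]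
  apply Finset.sum_congr rfl
  intro q _
  unfold Ys
  ring

theorem sum_zero [Fintype V] : ∑ q, sinh (b q / 2) * D.Gam q * D.Ys q = 0 := by
  have h1 : ∑ q, sinh (b q / 2) * D.Gam q * D.Ys q =
      ∑ q, sinh (b (P.iota q) / 2) * D.Gam (P.iota q) * D.Ys (P.iota q) :=
    (P.iota_bij.sum_comp (fun q => sinh (b q / 2) * D.Gam q * D.Ys q)).symm
  have h2 : ∑ q, sinh (b q / 2) * D.Gam q * D.Ys q +
      ∑ q, sinh (b (P.iota q) / 2) * D.Gam (P.iota q) * D.Ys (P.iota q) = 0 := by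
    rw [← Finset.sum_add_distrib]
    apply Finset.sum_eq_zero
    intro q _
    rw [D.Ys_iota]
    have := star D.μ1 D.μ3 q (D.len q)
    have e : sinh (b q / 2) * D.Gam q * D.Ys q +
      sinh (b (P.iota q) / 2) * D.Gam (P.iota q) * D.Ys q =
      (sinh (b q / 2) * (cos (D.mr.θ q) + cos (D.ml.θ q)) +
      sinh (b (P.iota q) / 2) * (cos (D.mr.θ (P.iota q)) + cos (D.ml.θ (P.iota q)))) * D.Ys q := by
      unfold Gam; ring
    rw [e, this, zero_mul]
  linarith

theorem Xs_zero [Fintype V] (hb : ∀ p, 0 ≤ b p) (hfill : ∀ p, 0 < b p ∨ 0 < b (P.iota p))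
    (q : V) : D.Xs q = 0 := by
  have hpos : ∀ q, 0 < b q → D.Xs q = 0 := by
    intro q hq
    have h1 := D.sum_term (fun q => sinh (b q / 2)) (fun p => by simp only [D.b_B])
    rw [D.sum_zero, Finset.sum_eq_zero_iff_of_nonneg] at h1
    · have h2 := h1 q (Finset.mem_univ q)
      have h3 : 0 < sinh (b q / 2) := Real.sinh_pos_iff.mpr (by linarith)
      exact D.Xs_of_term q ((mul_eq_zero.mp h2).resolve_left h3.ne')
    · intro i _
      exact mul_nonneg (Real.sinh_nonneg_iff.mpr (by linarith [hb i])) (D.term_nonneg i)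
  by_cases hq : 0 < b q
  · exact hpos q hq
  have hq0 : b q = 0 := le_antisymm (not_lt.mp hq) (hb q)
  classical
  have h1 := D.sum_term (fun q => if b q = 0 then (1 : ℝ) else 0) (fun p => by simp only [D.b_B])
  have h2 : ∑ q, (if b q = 0 then (1 : ℝ) else 0) * D.Gam q * D.Ys q = 0 := by
    apply Finset.sum_eq_zero
    intro q _
    split_ifs with h
    · have hι : 0 < b (P.iota q) := by
        rcases hfill q with h' | h'
        · linarith
        · exact h'
      have : D.Ys q = 0 := by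
        rw [← D.Ys_iota]
        unfold Ys
        rw [hpos _ hι, hpos (P.rho (P.iota q)) (by rw [D.b_rho]; exact hι), add_zero]
      rw [this, mul_zero]
    · simp
  rw [h2, Finset.sum_eq_zero_iff_of_nonneg] at h1
  · have h3 := h1 q (Finset.mem_univ q)
    rw [if_pos hq0, one_mul] at h3
    exact D.Xs_of_term q h3
  · intro i _
    apply mul_nonneg _ (D.term_nonneg i)
    split_ifs <;> norm_num

end QData

end Run7.h568
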